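import Pool.Agent.helper73.ASU.Sig

set_option autoImplicit false

namespace Pool.Agent.ASU

open Finset Pool.Agent.helper3.FT

/-- every prime, all characters but `C p^σ` -/
def B1S_stmt : Prop := ∀ k : ℕ, 1 ≤ k → ∀ ε : ℝ, 0 < ε → ∀ σ : ℝ, 0 < σ → ∃ δ C : ℝ, 0 < δ ∧ 0 < C ∧
  ∀ (p : ℕ) [Fact p.Prime], ∀ E : Finset (DirichletCharacter ℂ p), (∀ χ ∈ E, ∃ N : ℕ, N ≤ p ∧
    Bad (CM χ) (range N) (range N) k ((p : ℝ) ^ ε * ((p * (N : ℝ) ^ (k + 1) + (N : ℝ) ^ (2 * k + 1)) / (p : ℝ) ^ σ))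
      ((p : ℝ) ^ (-δ))) → (E.card : ℝ) ≤ C * (p : ℝ) ^ σ

/-- translates -/
def CFS_stmt : Prop := ∀ k : ℕ, 1 ≤ k → ∀ ε : ℝ, 0 < ε → ∀ σ : ℝ, 0 < σ → ∃ δ C : ℝ, 0 < δ ∧ 0 < C ∧
  ∀ (p : ℕ) [Fact p.Prime], ∀ χ : MulChar (ZMod p) ℂ, χ ≠ 1 → ∀ (N : ℕ) (P Q : Finset (ZMod p)), P.card ≤ N → Q.card ≤ N →
  ∀ E : Finset (ZMod p), (∀ x ∈ E, Bad (XM χ x) P Q k
    ((p : ℝ) ^ ε * ((p * (N : ℝ) ^ (k + 1) + √(p : ℝ) * (N : ℝ) ^ (2 * k)) / (p : ℝ) ^ σ)) ((p : ℝ) ^ (-δ))) →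
  (E.card : ℝ) ≤ C * (p : ℝ) ^ σ

theorem B1S (hTOE : TOE_stmt) (hPOW : POW_stmt) (hLSP : LSP_stmt) : B1S_stmt := by
  classical
  intro k hk ε hε σ hσ
  obtain ⟨C₀, hC₀, h₀⟩ := B1F_sum hPOW hLSP k hk (ε / 4) (by positivity)
  obtain ⟨C₁, hC₁, h₁⟩ := BF_log (ε / 4) (by positivity)
  have hk0 : (0 : ℝ) < k := by exact_mod_cast hk
  set K : ℝ := 4 ^ k * 2 ^ (2 * k + 1) with hK
  have hK0 : 0 < K := by positivity
  refine ⟨ε / (8 * k), C₁ * 2 ^ (ε / 4) * (C₀ * K * 2 ^ (ε / 4)), by positivity, by positivity, ?_⟩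
  intro p _ E hE
  have hp : p.Prime := Fact.out
  have hp0 : (0 : ℝ) < p := by exact_mod_cast hp.pos
  have hp1 : (1 : ℝ) ≤ p := by exact_mod_cast hp.one_lt.le
  choose! N hNp hbad using hE
  have hN1 : ∀ χ ∈ E, 1 ≤ N χ := by
    intro χ hχ
    by_contra hcon
    have h0 : N χ = 0 := by omega
    have := hbad χ hχ
    rw [h0] at this
    exact CF_empty range_zero this
  set j : DirichletCharacter ℂ p → ℕ := fun χ => Nat.clog 2 (N χ) with hj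
  have hM : ∀ χ ∈ E, 2 ^ j χ ≤ 2 * p := by
    intro χ hχ
    have h3 : 2 ^ j χ < 2 * N χ := (BF_clog (hN1 χ hχ)).2
    have h4 := hNp χ hχ
    omega
  have hjJ : ∀ χ ∈ E, j χ ≤ Nat.log 2 (2 * p) := fun χ hχ => Nat.le_log_of_pow_le (by norm_num) (hM χ hχ)
  have hsc := BF_scale E j (Nat.log 2 (2 * p)) (C₀ * K * 2 ^ (ε / 4) * (p : ℝ) ^ (σ - ε / 2)) hjJ ?_
  · refine hsc.trans ?_
    have h2 := h₁ (2 * p) (by have := hp.pos; omega)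
    have h4 : (((2 * p : ℕ) : ℕ) : ℝ) ^ (ε / 4) = 2 ^ (ε / 4) * (p : ℝ) ^ (ε / 4) := by
      push_cast
      rw [Real.mul_rpow (by norm_num) hp0.le]
    rw [h4] at h2
    have h3 : (p : ℝ) ^ (ε / 4) * (p : ℝ) ^ (σ - ε / 2) ≤ (p : ℝ) ^ σ := by
      rw [← Real.rpow_add hp0]
      exact Real.rpow_le_rpow_of_exponent_le hp1 (by linarith)
    calc (((Nat.log 2 (2 * p) : ℕ) : ℝ) + 1) * (C₀ * K * 2 ^ (ε / 4) * (p : ℝ) ^ (σ - ε / 2))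
        ≤ (C₁ * (2 ^ (ε / 4) * (p : ℝ) ^ (ε / 4))) * (C₀ * K * 2 ^ (ε / 4) * (p : ℝ) ^ (σ - ε / 2)) :=
          mul_le_mul_of_nonneg_right h2 (by positivity)
      _ = C₁ * 2 ^ (ε / 4) * (C₀ * K * 2 ^ (ε / 4)) * ((p : ℝ) ^ (ε / 4) * (p : ℝ) ^ (σ - ε / 2)) := by ring
      _ ≤ C₁ * 2 ^ (ε / 4) * (C₀ * K * 2 ^ (ε / 4)) * (p : ℝ) ^ σ := mul_le_mul_of_nonneg_left h3 (by positivity)
  intro i _
  rcases (E.filter (fun χ => j χ = i)).eq_empty_or_nonempty with hem | ⟨χ₁, hχ₁⟩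
  · rw [hem]
    simp only [card_empty, Nat.cast_zero]
    positivity
  obtain ⟨hχE, hχi⟩ := mem_filter.mp hχ₁
  set M : ℕ := 2 ^ i with hMdef
  have hM1 : 1 ≤ M := Nat.one_le_two_pow
  have hM0 : (0 : ℝ) < M := by exact_mod_cast hM1
  have hMp : M ≤ 2 * p := by
    have := hM χ₁ hχE
    rwa [hχi] at this
  have hsum := h₀ p M hM1
  set θ : ℝ := (p : ℝ) ^ (-(ε / (8 * k))) with hθ
  have hθ0 : 0 < θ := by positivity
  set G : ℝ := (p : ℝ) * (M : ℝ) ^ (k + 1) + (M : ℝ) ^ (2 * k + 1) with hG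
  have hG0 : 0 < G := by positivity
  set R : ℝ := (p : ℝ) ^ ε * (G / 2 ^ (2 * k + 1) / (p : ℝ) ^ σ) with hR
  have hR0 : 0 < R := by positivity
  have hlow : ((E.filter (fun χ => j χ = i)).card : ℝ) * (θ ^ (2 * k) / 4 ^ k * R) ≤
      ∑ χ : DirichletCharacter ℂ p, ∑ j ∈ range (2 * M), ‖GS χ M j‖ ^ (2 * k) := by
    rw [← nsmul_eq_mul, ← sum_const]
    refine (sum_le_sum fun χ hχ => ?_).trans
      (sum_le_sum_of_subset_of_nonneg (subset_univ _) (fun χ _ _ => sum_nonneg fun _ _ => by positivity))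
    obtain ⟨hχE', hχi'⟩ := mem_filter.mp hχ
    obtain ⟨hc1, hc2⟩ := BF_clog (hN1 χ hχE')
    have hc1' : N χ ≤ M := by rw [hMdef, ← hχi']; exact hc1
    have hc2' : M < 2 * N χ := by rw [hMdef, ← hχi']; exact hc2
    have hRle : R ≤ (p : ℝ) ^ ε * ((p * (N χ : ℝ) ^ (k + 1) + (N χ : ℝ) ^ (2 * k + 1)) / (p : ℝ) ^ σ) := by
      rw [hR]
      apply mul_le_mul_of_nonneg_left _ (by positivity)
      apply div_le_div_of_nonneg_right _ (by positivity)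
      rw [div_le_iff₀ (by positivity), hG]
      have h5 : (M : ℝ) ≤ 2 * N χ := by exact_mod_cast hc2'.le
      have h6 : (p : ℝ) * (M : ℝ) ^ (k + 1) ≤ p * (N χ : ℝ) ^ (k + 1) * 2 ^ (2 * k + 1) := by
        rw [mul_assoc]
        apply mul_le_mul_of_nonneg_left _ hp0.le
        calc (M : ℝ) ^ (k + 1) ≤ (2 * (N χ : ℝ)) ^ (k + 1) := pow_le_pow_left₀ hM0.le h5 _
          _ = (N χ : ℝ) ^ (k + 1) * 2 ^ (k + 1) := by rw [mul_pow]; ring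
          _ ≤ (N χ : ℝ) ^ (k + 1) * 2 ^ (2 * k + 1) :=
            mul_le_mul_of_nonneg_left (pow_le_pow_right₀ (by norm_num) (by omega)) (by positivity)
      have h7 : (M : ℝ) ^ (2 * k + 1) ≤ (N χ : ℝ) ^ (2 * k + 1) * 2 ^ (2 * k + 1) := by
        calc (M : ℝ) ^ (2 * k + 1) ≤ (2 * (N χ : ℝ)) ^ (2 * k + 1) := pow_le_pow_left₀ hM0.le h5 _
          _ = (N χ : ℝ) ^ (2 * k + 1) * 2 ^ (2 * k + 1) := by rw [mul_pow]; ring
      linarith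
    obtain ⟨j', hj', hle⟩ := B1F_large hTOE hk hc1' hM1 hR0 hθ0
      (BF_mono (hbad χ hχE') (Subset.refl _) (Subset.refl _) hRle le_rfl)
    refine hle.trans ?_
    exact single_le_sum (f := fun j => ‖GS χ M j‖ ^ (2 * k)) (fun _ _ => by positivity) (mem_range.mpr hj')
  have h5 : θ ^ (2 * k) = (p : ℝ) ^ (-(ε / 4)) := by
    rw [hθ, ← Real.rpow_natCast, ← Real.rpow_mul hp0.le]
    congr 1
    push_cast
    field_simp
    ring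
  have h7 : (M : ℝ) ^ (ε / 4) ≤ 2 ^ (ε / 4) * (p : ℝ) ^ (ε / 4) := by
    rw [← Real.mul_rpow (by norm_num) hp0.le]
    exact Real.rpow_le_rpow hM0.le (by exact_mod_cast hMp) (by positivity)
  have h8 := hlow.trans hsum
  rw [h5, hR] at h8
  have h9 : ((E.filter (fun χ => j χ = i)).card : ℝ) * ((p : ℝ) ^ (-(ε / 4)) * (p : ℝ) ^ ε) ≤
      C₀ * K * 2 ^ (ε / 4) * ((p : ℝ) ^ σ * (p : ℝ) ^ (ε / 4)) := by
    have hpos : (0 : ℝ) < G / (K * (p : ℝ) ^ σ) := by positivity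
    refine le_of_mul_le_mul_right ?_ hpos
    calc ((E.filter (fun χ => j χ = i)).card : ℝ) * ((p : ℝ) ^ (-(ε / 4)) * (p : ℝ) ^ ε) * (G / (K * (p : ℝ) ^ σ))
        = ((E.filter (fun χ => j χ = i)).card : ℝ) * ((p : ℝ) ^ (-(ε / 4)) / 4 ^ k *
            ((p : ℝ) ^ ε * (G / 2 ^ (2 * k + 1) / (p : ℝ) ^ σ))) := by rw [hK]; field_simp
      _ ≤ C₀ * (G * (M : ℝ) ^ (ε / 4)) := h8
      _ ≤ C₀ * (G * (2 ^ (ε / 4) * (p : ℝ) ^ (ε / 4))) := by gcongr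
      _ = C₀ * K * 2 ^ (ε / 4) * ((p : ℝ) ^ σ * (p : ℝ) ^ (ε / 4)) * (G / (K * (p : ℝ) ^ σ)) := by field_simp
  have h10 : (p : ℝ) ^ (-(ε / 4)) * (p : ℝ) ^ ε = (p : ℝ) ^ (3 * ε / 4) := by
    rw [← Real.rpow_add hp0]; congr 1; ring
  have h11 : (p : ℝ) ^ σ * (p : ℝ) ^ (ε / 4) = (p : ℝ) ^ (σ - ε / 2) * (p : ℝ) ^ (3 * ε / 4) := by
    rw [← Real.rpow_add hp0, ← Real.rpow_add hp0]
    congr 1; ring
  rw [h10, h11, ← mul_assoc] at h9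
  exact le_of_mul_le_mul_right h9 (by positivity)

theorem CFS (hTR : TR_stmt) (hCS1 : CS1_stmt) : CFS_stmt := by
  intro k hk ε hε σ hσ
  have hk0 : (0 : ℝ) < k := by exact_mod_cast hk
  refine ⟨ε / (4 * k), (2 * k : ℝ) ^ (2 * k), by positivity, by positivity, ?_⟩
  intro p _ χ hχ N P Q hP hQ E hE
  have hp : p.Prime := Fact.out
  have hp0 : (0 : ℝ) < p := by exact_mod_cast hp.pos
  have hp1 : (1 : ℝ) ≤ p := by exact_mod_cast hp.one_lt.le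
  rcases Nat.eq_zero_or_pos N with hN | hN
  · have hE0 : E = ∅ := by
      apply eq_empty_of_forall_notMem
      intro x hx
      have : P = ∅ := by rw [← card_eq_zero]; omega
      exact CF_empty this (hE x hx)
    rw [hE0]
    simp only [card_empty, Nat.cast_zero]
    positivity
  have hN0 : (0 : ℝ) < N := by exact_mod_cast hN
  set G : ℝ := (p : ℝ) * (N : ℝ) ^ (k + 1) + √(p : ℝ) * (N : ℝ) ^ (2 * k) with hG
  have hG0 : 0 < G := by positivity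
  set θ : ℝ := (p : ℝ) ^ (-(ε / (4 * k))) with hθ
  have hθ0 : 0 < θ := by positivity
  have h1 : (E.card : ℝ) * (θ ^ (2 * k) * ((p : ℝ) ^ ε * (G / (p : ℝ) ^ σ))) ≤ ∑ x : ZMod p, (TT (XM χ x) P Q k).re := by
    rw [← nsmul_eq_mul, ← sum_const]
    refine (sum_le_sum fun x hx => CF_bad hTR hk (by positivity) hθ0 (hE x hx)).trans ?_
    exact sum_le_sum_of_subset_of_nonneg (subset_univ _) (fun x _ _ => (hTR _ _ (XM χ x) P Q k hk).1)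
  have h2 := hCS1 p k N hk hN χ hχ P Q hP hQ
  have h3 : (2 * k : ℝ) ^ (2 * k) * (p * (N : ℝ) ^ (k + 1)) + 2 * k * √(p : ℝ) * (N : ℝ) ^ (2 * k) ≤
      (2 * k : ℝ) ^ (2 * k) * G := by
    have h4 : (2 * k : ℝ) ≤ (2 * k : ℝ) ^ (2 * k) := by
      have h5 : (1 : ℝ) ≤ 2 * k := by
        have : (1 : ℝ) ≤ k := by exact_mod_cast hk
        linarith
      exact le_self_pow₀ h5 (by omega)
    rw [hG, mul_add, mul_assoc (2 * (k : ℝ))]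
    have h8 : 0 ≤ √(p : ℝ) * (N : ℝ) ^ (2 * k) := by positivity
    have h9 := mul_le_mul_of_nonneg_right h4 h8
    linarith
  have h4 := h1.trans (h2.trans h3)
  have h5 : θ ^ (2 * k) = (p : ℝ) ^ (-(ε / 2)) := by
    rw [hθ, ← Real.rpow_natCast, ← Real.rpow_mul hp0.le]
    congr 1
    push_cast
    field_simp
    ring
  rw [h5] at h4
  have h6 : (E.card : ℝ) * ((p : ℝ) ^ (-(ε / 2)) * (p : ℝ) ^ ε) ≤ (2 * k : ℝ) ^ (2 * k) * (p : ℝ) ^ σ := by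
    have hpos : (0 : ℝ) < G / (p : ℝ) ^ σ := by positivity
    refine le_of_mul_le_mul_right ?_ hpos
    calc (E.card : ℝ) * ((p : ℝ) ^ (-(ε / 2)) * (p : ℝ) ^ ε) * (G / (p : ℝ) ^ σ)
        = (E.card : ℝ) * ((p : ℝ) ^ (-(ε / 2)) * ((p : ℝ) ^ ε * (G / (p : ℝ) ^ σ))) := by ring
      _ ≤ (2 * k : ℝ) ^ (2 * k) * G := h4
      _ = (2 * k : ℝ) ^ (2 * k) * (p : ℝ) ^ σ * (G / (p : ℝ) ^ σ) := by field_simp
  rw [← Real.rpow_add hp0] at h6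
  have h7 : (1 : ℝ) ≤ (p : ℝ) ^ (-(ε / 2) + ε) := Real.one_le_rpow hp1 (by linarith)
  exact (le_mul_of_one_le_right (Nat.cast_nonneg _) h7).trans h6

end Pool.Agent.ASU
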