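import Pool.Agent.helper73.ASU.A1S
import Pool.Agent.helper73.ASU.B1S

set_option autoImplicit false

/-! # ASU: final form with exceptional sets of size `X^σ` -/

namespace Pool.Agent.ASU

open Finset

/-- all characters modulo almost all primes -/
def QA (k : ℕ) (ε σ δ C : ℝ) : Prop :=
  ∀ X : ℕ, 1 ≤ X → ∃ E : Finset ℕ, (E.card : ℝ) ≤ C * (X : ℝ) ^ σ ∧
    ∀ (p : ℕ) [Fact p.Prime], p ≤ X → p ∉ E → ∀ χ : MulChar (ZMod p) ℂ, χ ≠ 1 →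
      ∀ N : ℕ, N ≤ p → ∀ (A B : Finset ℕ) (a b c d : ZMod p), A ⊆ range N → B ⊆ range N → a * d - b * c ≠ 0 →
        (∀ x ∈ A, c * (x : ZMod p) + d ≠ 0) → (∀ y ∈ B, c * (y : ZMod p) + d ≠ 0) →
        (p : ℝ) ^ ε * (p * (N : ℝ) ^ k + (N : ℝ) ^ (2 * k + 1) / (p : ℝ) ^ σ) ≤ ((A.card : ℝ) * B.card) ^ k →
        ∀ w : ℕ → ℂ, (∀ y, ‖w y‖ ≤ 1) →
          ∑ x ∈ A, ‖∑ y ∈ B, w y * χ ((a * (x : ZMod p) + b) / (c * (x : ZMod p) + d) -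
            (a * (y : ZMod p) + b) / (c * (y : ZMod p) + d))‖ ≤ (p : ℝ) ^ (-δ) * (A.card * B.card)

/-- the Legendre symbol modulo almost all primes -/
def QL (k : ℕ) (ε σ δ C : ℝ) : Prop :=
  ∀ X : ℕ, 1 ≤ X → ∃ E : Finset ℕ, (E.card : ℝ) ≤ C * (X : ℝ) ^ σ ∧
    ∀ (p : ℕ) [Fact p.Prime], p ≤ X → p ∉ E →
      ∀ N : ℕ, N ≤ p → ∀ (A B : Finset ℕ) (a b c d : ZMod p), A ⊆ range N → B ⊆ range N → a * d - b * c ≠ 0 →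
        (∀ x ∈ A, c * (x : ZMod p) + d ≠ 0) → (∀ y ∈ B, c * (y : ZMod p) + d ≠ 0) →
        (p : ℝ) ^ ε * ((p * (N : ℝ) ^ (k + 1) + (N : ℝ) ^ (3 * k)) / (p : ℝ) ^ σ) ≤ ((A.card : ℝ) * B.card) ^ k →
        ∀ w : ℕ → ℂ, (∀ y, ‖w y‖ ≤ 1) →
          ∑ x ∈ A, ‖∑ y ∈ B, w y * ((quadraticChar (ZMod p) ((a * (x : ZMod p) + b) / (c * (x : ZMod p) + d) -
            (a * (y : ZMod p) + b) / (c * (y : ZMod p) + d)) : ℤ) : ℂ)‖ ≤ (p : ℝ) ^ (-δ) * (A.card * B.card)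

/-- almost all characters modulo every prime -/
def QB (k : ℕ) (ε σ δ C : ℝ) : Prop :=
  ∀ (p : ℕ) [Fact p.Prime], ∃ E : Finset (MulChar (ZMod p) ℂ), (E.card : ℝ) ≤ C * (p : ℝ) ^ σ ∧
    ∀ χ : MulChar (ZMod p) ℂ, χ ∉ E →
      ∀ N : ℕ, N ≤ p → ∀ (A B : Finset ℕ) (a b c d : ZMod p), A ⊆ range N → B ⊆ range N → a * d - b * c ≠ 0 →
        (∀ x ∈ A, c * (x : ZMod p) + d ≠ 0) → (∀ y ∈ B, c * (y : ZMod p) + d ≠ 0) →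
        (p : ℝ) ^ ε * ((p * (N : ℝ) ^ (k + 1) + (N : ℝ) ^ (2 * k + 1)) / (p : ℝ) ^ σ) ≤ ((A.card : ℝ) * B.card) ^ k →
        ∀ w : ℕ → ℂ, (∀ y, ‖w y‖ ≤ 1) →
          ∑ x ∈ A, ‖∑ y ∈ B, w y * χ ((a * (x : ZMod p) + b) / (c * (x : ZMod p) + d) -
            (a * (y : ZMod p) + b) / (c * (y : ZMod p) + d))‖ ≤ (p : ℝ) ^ (-δ) * (A.card * B.card)

/-- almost all translates of arbitrary hosts, every character modulo every prime -/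
def QC (k : ℕ) (ε σ δ C : ℝ) : Prop :=
  ∀ (p : ℕ) [Fact p.Prime] (χ : MulChar (ZMod p) ℂ), χ ≠ 1 → ∀ (N : ℕ) (P Q : Finset (ZMod p)),
    P.card ≤ N → Q.card ≤ N → ∃ E : Finset (ZMod p), (E.card : ℝ) ≤ C * (p : ℝ) ^ σ ∧
    ∀ x : ZMod p, x ∉ E → ∀ A ⊆ P, ∀ B ⊆ Q,
      (p : ℝ) ^ ε * ((p * (N : ℝ) ^ (k + 1) + √(p : ℝ) * (N : ℝ) ^ (2 * k)) / (p : ℝ) ^ σ) ≤ ((A.card : ℝ) * B.card) ^ k →
      ∀ w : ZMod p → ℂ, (∀ y, ‖w y‖ ≤ 1) →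
        ∑ a ∈ A, ‖∑ b ∈ B, w b * χ (x + a + b)‖ ≤ (p : ℝ) ^ (-δ) * (A.card * B.card)

theorem FS_A (hA : A1S_stmt) (hMOB : MOB_stmt) (k : ℕ) (hk : 1 ≤ k) (ε : ℝ) (hε : 0 < ε) (σ : ℝ) (hσ : 0 < σ) :
    ∃ δ C : ℝ, 0 < δ ∧ 0 < C ∧ QA k ε σ δ C := by
  classical
  obtain ⟨δ, C, hδ, hC, h⟩ := hA k hk ε hε σ hσ
  refine ⟨δ, C, hδ, hC, fun X hX => ?_⟩
  set E₀ : Finset ℕ := (range (X + 1)).filter (fun p => p.Prime ∧ p ≤ X ∧ ∃ χ : DirichletCharacter ℂ p, χ ≠ 1 ∧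
    ∃ N : ℕ, N ≤ p ∧ Bad (CM χ) (range N) (range N) k
      ((p : ℝ) ^ ε * (p * (N : ℝ) ^ k + (N : ℝ) ^ (2 * k + 1) / (p : ℝ) ^ σ)) ((p : ℝ) ^ (-δ))) with hE
  refine ⟨E₀, h X hX E₀ (fun p hp => (mem_filter.mp hp).2), ?_⟩
  intro p _ hpX hpE χ hχ N hN A B a b c' d hA hB hdet hcA hcB hR w hw
  have hp : p.Prime := Fact.out
  obtain ⟨w', hw', hbb⟩ := hMOB p χ A B a b c' d hdet hcA hcB w hw
  rw [hbb]
  by_contra hcon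
  push Not at hcon
  apply hpE
  rw [hE, mem_filter, mem_range]
  exact ⟨by omega, hp, hpX, χ, hχ, N, hN, A, hA, B, hB, w', hw', hR, hcon⟩

theorem FS_L (hA : AS_stmt) (hMOB : MOB_stmt) (k : ℕ) (hk : 1 ≤ k) (ε : ℝ) (hε : 0 < ε) (σ : ℝ) (hσ : 0 < σ) :
    ∃ δ C : ℝ, 0 < δ ∧ 0 < C ∧ QL k ε σ δ C := by
  classical
  obtain ⟨δ, C, hδ, hC, h⟩ := hA k hk ε hε σ hσ
  refine ⟨δ, C + 1, hδ, by linarith, fun X hX => ?_⟩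
  set E₀ : Finset ℕ := (range (X + 1)).filter (fun p => p.Prime ∧ p ≤ X ∧ p ≠ 2 ∧ ∃ N : ℕ, N ≤ p ∧
    Bad (JM p) (range N) (range N) k
      ((p : ℝ) ^ ε * ((p * (N : ℝ) ^ (k + 1) + (N : ℝ) ^ (3 * k)) / (p : ℝ) ^ σ)) ((p : ℝ) ^ (-δ))) with hE
  have h1 := h X hX E₀ (fun p hp => (mem_filter.mp hp).2)
  have hX1 : (1 : ℝ) ≤ X := by exact_mod_cast hX
  refine ⟨insert 2 E₀, ?_, ?_⟩
  · have h2 : ((insert 2 E₀).card : ℝ) ≤ E₀.card + 1 := by exact_mod_cast card_insert_le _ _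
    have h3 : (1 : ℝ) ≤ (X : ℝ) ^ σ := Real.one_le_rpow hX1 hσ.le
    linarith
  · intro p _ hpX hpE N hN A B a b c' d hA hB hdet hcA hcB hR w hw
    rw [mem_insert, not_or] at hpE
    obtain ⟨hp2, hpE⟩ := hpE
    have hp : p.Prime := Fact.out
    set χ : MulChar (ZMod p) ℂ := (quadraticChar (ZMod p)).ringHomComp (Int.castRingHom ℂ) with hχ
    obtain ⟨w', hw', hbb⟩ := hMOB p χ A B a b c' d hdet hcA hcB w hw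
    have e1 : ∑ x ∈ A, ‖∑ y ∈ B, w y * ((quadraticChar (ZMod p) ((a * (x : ZMod p) + b) / (c' * (x : ZMod p) + d) -
          (a * (y : ZMod p) + b) / (c' * (y : ZMod p) + d)) : ℤ) : ℂ)‖ = BB (CM χ) A B w' := by
      rw [← hbb]; rfl
    have e2 : BB (CM χ) A B w' = BB (JM p) A B w' := by
      unfold BB
      refine sum_congr rfl fun x _ => ?_
      congr 1
      refine sum_congr rfl fun y _ => ?_
      congr 1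
      unfold CM JM
      rw [hχ, MulChar.ringHomComp_apply, ← jacobiSym.legendreSym.to_jacobiSym]
      simp [legendreSym]
    rw [e1, e2]
    by_contra hcon
    push Not at hcon
    apply hpE
    rw [hE, mem_filter, mem_range]
    exact ⟨by omega, hp, hpX, hp2, N, hN, A, hA, B, hB, w', hw', hR, hcon⟩

theorem FS_B (hB1 : B1S_stmt) (hMOB : MOB_stmt) (k : ℕ) (hk : 1 ≤ k) (ε : ℝ) (hε : 0 < ε) (σ : ℝ) (hσ : 0 < σ) :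
    ∃ δ C : ℝ, 0 < δ ∧ 0 < C ∧ QB k ε σ δ C := by
  classical
  obtain ⟨δ, C, hδ, hC, h⟩ := hB1 k hk ε hε σ hσ
  refine ⟨δ, C, hδ, hC, fun p _ => ?_⟩
  set E₀ : Finset (DirichletCharacter ℂ p) := univ.filter (fun χ => ∃ N : ℕ, N ≤ p ∧
    Bad (CM χ) (range N) (range N) k
      ((p : ℝ) ^ ε * ((p * (N : ℝ) ^ (k + 1) + (N : ℝ) ^ (2 * k + 1)) / (p : ℝ) ^ σ)) ((p : ℝ) ^ (-δ))) with hE
  refine ⟨E₀, h p E₀ (fun χ hχ => (mem_filter.mp hχ).2), ?_⟩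
  intro χ hχ N hN A B a b c' d hA hB hdet hcA hcB hR w hw
  obtain ⟨w', hw', hbb⟩ := hMOB p χ A B a b c' d hdet hcA hcB w hw
  rw [hbb]
  by_contra hcon
  push Not at hcon
  apply hχ
  rw [hE, mem_filter]
  exact ⟨mem_univ _, N, hN, A, hA, B, hB, w', hw', hR, hcon⟩

theorem FS_C (hCF : CFS_stmt) (k : ℕ) (hk : 1 ≤ k) (ε : ℝ) (hε : 0 < ε) (σ : ℝ) (hσ : 0 < σ) :
    ∃ δ C : ℝ, 0 < δ ∧ 0 < C ∧ QC k ε σ δ C := by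
  classical
  obtain ⟨δ, C, hδ, hC, h⟩ := hCF k hk ε hε σ hσ
  refine ⟨δ, C, hδ, hC, fun p _ χ hχ N P Q hP hQ => ?_⟩
  set E₀ : Finset (ZMod p) := univ.filter (fun x => Bad (XM χ x) P Q k
    ((p : ℝ) ^ ε * ((p * (N : ℝ) ^ (k + 1) + √(p : ℝ) * (N : ℝ) ^ (2 * k)) / (p : ℝ) ^ σ)) ((p : ℝ) ^ (-δ))) with hE
  refine ⟨E₀, h p χ hχ N P Q hP hQ E₀ (fun x hx => (mem_filter.mp hx).2), ?_⟩
  intro x hx A hA B hB hR w hw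
  by_contra hcon
  push Not at hcon
  apply hx
  rw [hE, mem_filter]
  exact ⟨mem_univ _, A, hA, B, hB, w, hw, hR, hcon⟩

theorem FS_rpow {X s δ δ' : ℝ} (hX : 1 ≤ X) (hδ : δ' ≤ δ) (hs : 0 ≤ s) : X ^ (-δ) * s ≤ X ^ (-δ') * s :=
  mul_le_mul_of_nonneg_right (Real.rpow_le_rpow_of_exponent_le hX (by linarith)) hs

theorem FS_mA {k : ℕ} {ε σ δ C δ' C' : ℝ} (h : QA k ε σ δ C) (hδ : δ' ≤ δ) (hCC : C ≤ C') : QA k ε σ δ' C' := by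
  intro X hX
  obtain ⟨E, hE, h2⟩ := h X hX
  refine ⟨E, hE.trans (mul_le_mul_of_nonneg_right hCC (by positivity)), ?_⟩
  intro p _ hpX hpE χ hχ N hN A B a b c' d hA hB hdet hcA hcB hR w hw
  have hp1 : (1 : ℝ) ≤ p := by exact_mod_cast (Fact.out : p.Prime).one_lt.le
  exact (h2 p hpX hpE χ hχ N hN A B a b c' d hA hB hdet hcA hcB hR w hw).trans (FS_rpow hp1 hδ (by positivity))

theorem FS_mL {k : ℕ} {ε σ δ C δ' C' : ℝ} (h : QL k ε σ δ C) (hδ : δ' ≤ δ) (hCC : C ≤ C') : QL k ε σ δ' C' := by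
  intro X hX
  obtain ⟨E, hE, h2⟩ := h X hX
  refine ⟨E, hE.trans (mul_le_mul_of_nonneg_right hCC (by positivity)), ?_⟩
  intro p _ hpX hpE N hN A B a b c' d hA hB hdet hcA hcB hR w hw
  have hp1 : (1 : ℝ) ≤ p := by exact_mod_cast (Fact.out : p.Prime).one_lt.le
  exact (h2 p hpX hpE N hN A B a b c' d hA hB hdet hcA hcB hR w hw).trans (FS_rpow hp1 hδ (by positivity))

theorem FS_mB {k : ℕ} {ε σ δ C δ' C' : ℝ} (h : QB k ε σ δ C) (hδ : δ' ≤ δ) (hCC : C ≤ C') : QB k ε σ δ' C' := by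
  intro p _
  obtain ⟨E, hE, h2⟩ := h p
  refine ⟨E, hE.trans (mul_le_mul_of_nonneg_right hCC (by positivity)), ?_⟩
  intro χ hχ N hN A B a b c' d hA hB hdet hcA hcB hR w hw
  have hp1 : (1 : ℝ) ≤ p := by exact_mod_cast (Fact.out : p.Prime).one_lt.le
  exact (h2 χ hχ N hN A B a b c' d hA hB hdet hcA hcB hR w hw).trans (FS_rpow hp1 hδ (by positivity))

theorem FS_mC {k : ℕ} {ε σ δ C δ' C' : ℝ} (h : QC k ε σ δ C) (hδ : δ' ≤ δ) (hCC : C ≤ C') : QC k ε σ δ' C' := by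
  intro p _ χ hχ N P Q hP hQ
  obtain ⟨E, hE, h2⟩ := h p χ hχ N P Q hP hQ
  refine ⟨E, hE.trans (mul_le_mul_of_nonneg_right hCC (by positivity)), ?_⟩
  intro x hx A hA B hB hR w hw
  have hp1 : (1 : ℝ) ≤ p := by exact_mod_cast (Fact.out : p.Prime).one_lt.le
  exact (h2 x hx A hA B hB hR w hw).trans (FS_rpow hp1 hδ (by positivity))

/-- the conjunction -/
theorem FS (h1 : A1S_stmt) (h2 : AS_stmt) (h3 : B1S_stmt) (h4 : CFS_stmt) (hMOB : MOB_stmt) :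
    ∀ k : ℕ, 1 ≤ k → ∀ ε : ℝ, 0 < ε → ∀ σ : ℝ, 0 < σ → ∃ δ C : ℝ, 0 < δ ∧ 0 < C ∧
      QA k ε σ δ C ∧ QL k ε σ δ C ∧ QB k ε σ δ C ∧ QC k ε σ δ C := by
  intro k hk ε hε σ hσ
  obtain ⟨δ₁, C₁, hδ₁, hC₁, h₁⟩ := FS_A h1 hMOB k hk ε hε σ hσ
  obtain ⟨δ₂, C₂, hδ₂, hC₂, h₂⟩ := FS_L h2 hMOB k hk ε hε σ hσ
  obtain ⟨δ₃, C₃, hδ₃, hC₃, h₃⟩ := FS_B h3 hMOB k hk ε hε σ hσ
  obtain ⟨δ₄, C₄, hδ₄, hC₄, h₄⟩ := FS_C h4 k hk ε hε σ hσ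
  refine ⟨min (min δ₁ δ₂) (min δ₃ δ₄), C₁ + C₂ + C₃ + C₄, lt_min (lt_min hδ₁ hδ₂) (lt_min hδ₃ hδ₄), by positivity,
    ?_, ?_, ?_, ?_⟩
  · exact FS_mA h₁ ((min_le_left _ _).trans (min_le_left _ _)) (by linarith)
  · exact FS_mL h₂ ((min_le_left _ _).trans (min_le_right _ _)) (by linarith)
  · exact FS_mB h₃ ((min_le_right _ _).trans (min_le_left _ _)) (by linarith)
  · exact FS_mC h₄ ((min_le_right _ _).trans (min_le_right _ _)) (by linarith)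

end Pool.Agent.ASU
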