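import Pool.Agent.helper73.ASU.All
import Pool.Agent.helper73.ASU.FIN2
import Pool.Agent.helper30.ASU.TOE
import Pool.Agent.helper79.ASU.POW
import Pool.Agent.helper54.ASU.PVQ
import Pool.Agent.helper28.ASU.HMB
import Pool.Agent.helper60.ASU.A1E
import Pool.Agent.helper87.ASU.LSP

set_option autoImplicit false

/-! # ASU: assembly of block 2 -/

namespace Pool.Agent.ASU

open Finset

theorem pvg : PVG_stmt := Pool.Agent.AP.PVB

theorem q_A1E : A1E_stmt := A1E POW (HMB (PVQ pvg))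

theorem q_A1S : A1S_stmt := A1S TOE q_A1E

theorem q_AS : AS_stmt := AS (AE TR (AS1 p_SQ4 p_PVD))

theorem q_B1S : B1S_stmt := B1S TOE POW LSP

theorem q_CFS : CFS_stmt := CFS TR (CS1 CP)

theorem q_main : ∀ k : ℕ, 1 ≤ k → ∀ ε : ℝ, 0 < ε → ∀ σ : ℝ, 0 < σ → ∃ δ C : ℝ, 0 < δ ∧ 0 < C ∧
    QA k ε σ δ C ∧ QL k ε σ δ C ∧ QB k ε σ δ C ∧ QC k ε σ δ C := FS q_A1S q_AS q_B1S q_CFS MOB

end Pool.Agent.ASU
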