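import Pool.Agent.helper73.ASU.B1F

set_option autoImplicit false

namespace Pool.Agent.ASU

open Finset Pool.Agent.helper3.FT

theorem A1F_one (hTOE : TOE_stmt) (hA1E : A1E_stmt) (k : ℕ) (hk : 1 ≤ k) (ε : ℝ) (hε : 0 < ε) : ∃ C : ℝ, 0 < C ∧
    ∀ X M : ℕ, 1 ≤ X → 1 ≤ M → M ≤ 2 * X → ∀ E : Finset ℕ,
    (∀ p ∈ E, p.Prime ∧ p ≤ X ∧ (X : ℝ) ^ (1 - ε / (4 * (1 + ε))) ≤ p ∧ ∃ χ : DirichletCharacter ℂ p, χ ≠ 1 ∧
      ∃ N : ℕ, N ≤ M ∧ M < 2 * N ∧ Bad (CM χ) (range N) (range N) k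
        ((p : ℝ) ^ ε * (p * (N : ℝ) ^ k + (N : ℝ) ^ (2 * k + 1) / p)) ((p : ℝ) ^ (-(ε / (16 * k))))) →
    (E.card : ℝ) ≤ C * (X : ℝ) ^ (1 - ε / 4) := by
  obtain ⟨C₀, hC₀, h₀⟩ := hA1E k hk (ε / 16) (by positivity)
  have hk0 : (0 : ℝ) < k := by exact_mod_cast hk
  set K : ℝ := 4 ^ k * 2 ^ (2 * k + 1) with hK
  have hK0 : 0 < K := by positivity
  set D : ℝ := C₀ * 2 ^ (ε / 16) * K with hD
  have hD0 : 0 < D := by positivity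
  refine ⟨D, hD0, ?_⟩
  intro X M hX hM hMX E hE
  have hX0 : (0 : ℝ) < X := by exact_mod_cast hX
  have hX1 : (1 : ℝ) ≤ X := by exact_mod_cast hX
  have hM0 : (0 : ℝ) < M := by exact_mod_cast hM
  by_cases hbig : D ≤ (X : ℝ) ^ (ε / 4)
  swap
  · push Not at hbig
    have h1 : (E.card : ℝ) ≤ X := by
      have h2 : E ⊆ Ioc 0 X := by
        intro p hp
        rw [mem_Ioc]
        exact ⟨(hE p hp).1.pos, (hE p hp).2.1⟩
      have h3 := card_le_card h2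
      rw [Nat.card_Ioc, Nat.sub_zero] at h3
      exact_mod_cast h3
    have h2 : (X : ℝ) = (X : ℝ) ^ (ε / 4) * (X : ℝ) ^ (1 - ε / 4) := by
      rw [← Real.rpow_add hX0]
      nth_rw 1 [← Real.rpow_one (X : ℝ)]
      congr 1; ring
    calc (E.card : ℝ) ≤ X := h1
      _ = (X : ℝ) ^ (ε / 4) * (X : ℝ) ^ (1 - ε / 4) := h2
      _ ≤ D * (X : ℝ) ^ (1 - ε / 4) := mul_le_mul_of_nonneg_right hbig.le (by positivity)
  set G : ℝ := X * (M : ℝ) ^ k + (M : ℝ) ^ (2 * k + 1) / X with hG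
  have hG0 : 0 < G := by positivity
  set V2 : ℝ := (X : ℝ) ^ (3 * ε / 8) / K * G with hV2
  have hV20 : 0 < V2 := by positivity
  set V : ℝ := V2 ^ (1 / (2 * (k : ℝ))) with hV
  have hV0 : 0 < V := by positivity
  have hVk : V ^ (2 * k) = V2 := by
    rw [hV, ← Real.rpow_natCast, ← Real.rpow_mul hV20.le]
    push_cast
    rw [one_div, inv_mul_cancel₀ (by positivity), Real.rpow_one]
  have hMε : (M : ℝ) ^ (ε / 16) ≤ 2 ^ (ε / 16) * (X : ℝ) ^ (ε / 16) := by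
    rw [← Real.mul_rpow (by norm_num) hX0.le]
    exact Real.rpow_le_rpow hM0.le (by exact_mod_cast hMX) (by positivity)
  have h1 := h₀ M X hM hX V hV0 E (by
    intro p hp
    obtain ⟨hpp, hpX, hXp, χ, hχ, N, hNM, hMN, hbad⟩ := hE p hp
    have : Fact p.Prime := ⟨hpp⟩
    have hp0 : (0 : ℝ) < p := by exact_mod_cast hpp.pos
    refine ⟨hpp, hpX, χ, hχ, ?_⟩
    have hpX' : (p : ℝ) ≤ X := by exact_mod_cast hpX
    set θ : ℝ := (X : ℝ) ^ (-(ε / (16 * k))) with hθ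
    have hθ0 : 0 < θ := by positivity
    set R : ℝ := (X : ℝ) ^ (ε / 2) * (G / 2 ^ (2 * k + 1)) with hR
    have hR0 : 0 < R := by positivity
    have hκ : (1 + ε) * (1 - ε / (4 * (1 + ε))) = 1 + 3 * ε / 4 := by
      field_simp
      ring
    have e1 : (X : ℝ) ^ (1 + ε / 2) ≤ (p : ℝ) ^ (1 + ε) := by
      calc (X : ℝ) ^ (1 + ε / 2) ≤ (X : ℝ) ^ (1 + 3 * ε / 4) := Real.rpow_le_rpow_of_exponent_le hX1 (by linarith)
        _ = ((X : ℝ) ^ (1 - ε / (4 * (1 + ε)))) ^ (1 + ε) := by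
          rw [← Real.rpow_mul hX0.le]
          congr 1
          linarith [hκ, mul_comm (1 + ε) (1 - ε / (4 * (1 + ε)))]
        _ ≤ (p : ℝ) ^ (1 + ε) := Real.rpow_le_rpow (by positivity) hXp (by positivity)
    have e2 : (X : ℝ) ^ (ε / 2) ≤ (p : ℝ) ^ ε := by
      have hκ2 : ε / 2 ≤ (1 - ε / (4 * (1 + ε))) * ε := by
        have : ε / (4 * (1 + ε)) ≤ 1 / 2 := by
          rw [div_le_iff₀ (by positivity)]
          linarith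
        nlinarith
      calc (X : ℝ) ^ (ε / 2) ≤ (X : ℝ) ^ ((1 - ε / (4 * (1 + ε))) * ε) := Real.rpow_le_rpow_of_exponent_le hX1 hκ2
        _ = ((X : ℝ) ^ (1 - ε / (4 * (1 + ε)))) ^ ε := by rw [← Real.rpow_mul hX0.le]
        _ ≤ (p : ℝ) ^ ε := Real.rpow_le_rpow (by positivity) hXp (by positivity)
    have e3 : (M : ℝ) ≤ 2 * N := by exact_mod_cast hMN.le
    have e4 : (M : ℝ) ^ k / 2 ^ (2 * k + 1) ≤ (N : ℝ) ^ k := by
      rw [div_le_iff₀ (by positivity)]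
      calc (M : ℝ) ^ k ≤ (2 * (N : ℝ)) ^ k := pow_le_pow_left₀ hM0.le e3 _
        _ = (N : ℝ) ^ k * 2 ^ k := by rw [mul_pow]; ring
        _ ≤ (N : ℝ) ^ k * 2 ^ (2 * k + 1) :=
          mul_le_mul_of_nonneg_left (pow_le_pow_right₀ (by norm_num) (by omega)) (by positivity)
    have e5 : (M : ℝ) ^ (2 * k + 1) / 2 ^ (2 * k + 1) ≤ (N : ℝ) ^ (2 * k + 1) := by
      rw [div_le_iff₀ (by positivity)]
      calc (M : ℝ) ^ (2 * k + 1) ≤ (2 * (N : ℝ)) ^ (2 * k + 1) := pow_le_pow_left₀ hM0.le e3 _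
        _ = (N : ℝ) ^ (2 * k + 1) * 2 ^ (2 * k + 1) := by rw [mul_pow]; ring
    have hRle : R ≤ (p : ℝ) ^ ε * (p * (N : ℝ) ^ k + (N : ℝ) ^ (2 * k + 1) / p) := by
      have f1 : R = (X : ℝ) ^ (1 + ε / 2) * ((M : ℝ) ^ k / 2 ^ (2 * k + 1)) +
          (X : ℝ) ^ (ε / 2) * ((M : ℝ) ^ (2 * k + 1) / 2 ^ (2 * k + 1) / X) := by
        rw [hR, hG, Real.rpow_add hX0, Real.rpow_one]
        field_simp
      have f2 : (p : ℝ) ^ ε * (p * (N : ℝ) ^ k + (N : ℝ) ^ (2 * k + 1) / p) =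
          (p : ℝ) ^ (1 + ε) * (N : ℝ) ^ k + (p : ℝ) ^ ε * ((N : ℝ) ^ (2 * k + 1) / p) := by
        rw [Real.rpow_add hp0, Real.rpow_one]
        ring
      rw [f1, f2]
      refine add_le_add ?_ ?_
      · exact mul_le_mul e1 e4 (by positivity) (by positivity)
      · refine mul_le_mul e2 ?_ (by positivity) (by positivity)
        exact div_le_div₀ (by positivity) e5 hp0 hpX'
    have hθle : θ ≤ (p : ℝ) ^ (-(ε / (16 * k))) := by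
      rw [hθ, Real.rpow_neg hX0.le, Real.rpow_neg hp0.le]
      apply inv_anti₀ (by positivity)
      exact Real.rpow_le_rpow hp0.le hpX' (by positivity)
    obtain ⟨j, hj, hle⟩ := B1F_large hTOE hk hNM hM hR0 hθ0
      (BF_mono hbad (Subset.refl _) (Subset.refl _) hRle hθle)
    refine ⟨j, hj, ?_⟩
    have h5 : θ ^ (2 * k) = (X : ℝ) ^ (-(ε / 8)) := by
      rw [hθ, ← Real.rpow_natCast, ← Real.rpow_mul hX0.le]
      congr 1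
      push_cast
      field_simp
      ring
    have h6 : V ^ (2 * k) ≤ ‖GS χ M j‖ ^ (2 * k) := by
      rw [hVk]
      refine le_trans (le_of_eq ?_) hle
      have f3 : (X : ℝ) ^ (3 * ε / 8) = (X : ℝ) ^ (-(ε / 8)) * (X : ℝ) ^ (ε / 2) := by
        rw [← Real.rpow_add hX0]; congr 1; ring
      rw [h5, hV2, hR, hK, f3]
      field_simp
    exact le_of_pow_le_pow_left₀ (by omega) (norm_nonneg _) h6)
  have hcond : C₀ * ((X : ℝ) ^ (1 + ε / 16) * (M : ℝ) ^ ((k : ℝ) + ε / 16)) ≤ V ^ (2 * k) := by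
    rw [hVk]
    have f1 : (M : ℝ) ^ ((k : ℝ) + ε / 16) = (M : ℝ) ^ k * (M : ℝ) ^ (ε / 16) := by
      rw [Real.rpow_add hM0, Real.rpow_natCast]
    have f2 : (X : ℝ) ^ (1 + ε / 16) = X * (X : ℝ) ^ (ε / 16) := by
      rw [Real.rpow_add hX0, Real.rpow_one]
    have f3 : (X : ℝ) ^ (3 * ε / 8) = (X : ℝ) ^ (ε / 4) * ((X : ℝ) ^ (ε / 16) * (X : ℝ) ^ (ε / 16)) := by
      rw [← Real.rpow_add hX0, ← Real.rpow_add hX0]; congr 1; ring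
    have f4 : X * (M : ℝ) ^ k ≤ G := by
      rw [hG]
      have : 0 ≤ (M : ℝ) ^ (2 * k + 1) / X := by positivity
      linarith
    calc C₀ * ((X : ℝ) ^ (1 + ε / 16) * (M : ℝ) ^ ((k : ℝ) + ε / 16))
        = C₀ * (X : ℝ) ^ (ε / 16) * (M : ℝ) ^ (ε / 16) * (X * (M : ℝ) ^ k) := by rw [f1, f2]; ring
      _ ≤ C₀ * (X : ℝ) ^ (ε / 16) * (2 ^ (ε / 16) * (X : ℝ) ^ (ε / 16)) * G := by gcongr
      _ = D / K * ((X : ℝ) ^ (ε / 16) * (X : ℝ) ^ (ε / 16)) * G := by rw [hD]; field_simp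
      _ ≤ (X : ℝ) ^ (ε / 4) / K * ((X : ℝ) ^ (ε / 16) * (X : ℝ) ^ (ε / 16)) * G := by gcongr
      _ = V2 := by rw [hV2, f3]; ring
  have h2 := h1 hcond
  rw [hVk] at h2
  have f1 : (M : ℝ) ^ (2 * (k : ℝ) + 1 + ε / 16) = (M : ℝ) ^ (2 * k + 1) * (M : ℝ) ^ (ε / 16) := by
    rw [Real.rpow_add hM0]
    congr 1
    rw [← Real.rpow_natCast]
    congr 1
    push_cast
    ring
  rw [f1] at h2
  have h3 : (E.card : ℝ) * ((X : ℝ) ^ (3 * ε / 8) / K * ((M : ℝ) ^ (2 * k + 1) / X)) ≤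
      C₀ * ((M : ℝ) ^ (2 * k + 1) * (2 ^ (ε / 16) * (X : ℝ) ^ (ε / 16))) := by
    have f4 : (M : ℝ) ^ (2 * k + 1) / X ≤ G := by
      rw [hG]
      have : 0 ≤ X * (M : ℝ) ^ k := by positivity
      linarith
    calc (E.card : ℝ) * ((X : ℝ) ^ (3 * ε / 8) / K * ((M : ℝ) ^ (2 * k + 1) / X))
        ≤ (E.card : ℝ) * V2 := by rw [hV2]; gcongr
      _ ≤ C₀ * ((M : ℝ) ^ (2 * k + 1) * (M : ℝ) ^ (ε / 16)) := h2
      _ ≤ _ := by gcongr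
  have h4 : (E.card : ℝ) * (X : ℝ) ^ (3 * ε / 8) ≤ D * (X * (X : ℝ) ^ (ε / 16)) := by
    have hpos : (0 : ℝ) < (M : ℝ) ^ (2 * k + 1) / (K * X) := by positivity
    refine le_of_mul_le_mul_right ?_ hpos
    calc (E.card : ℝ) * (X : ℝ) ^ (3 * ε / 8) * ((M : ℝ) ^ (2 * k + 1) / (K * X))
        = (E.card : ℝ) * ((X : ℝ) ^ (3 * ε / 8) / K * ((M : ℝ) ^ (2 * k + 1) / X)) := by field_simp
      _ ≤ C₀ * ((M : ℝ) ^ (2 * k + 1) * (2 ^ (ε / 16) * (X : ℝ) ^ (ε / 16))) := h3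
      _ = D * (X * (X : ℝ) ^ (ε / 16)) * ((M : ℝ) ^ (2 * k + 1) / (K * X)) := by rw [hD]; field_simp
  have h5 : (X : ℝ) * (X : ℝ) ^ (ε / 16) ≤ (X : ℝ) ^ (1 - ε / 4) * (X : ℝ) ^ (3 * ε / 8) := by
    rw [← Real.rpow_add hX0]
    nth_rw 1 [← Real.rpow_one (X : ℝ)]
    rw [← Real.rpow_add hX0]
    exact Real.rpow_le_rpow_of_exponent_le hX1 (by linarith)
  have h6 : (E.card : ℝ) * (X : ℝ) ^ (3 * ε / 8) ≤ D * (X : ℝ) ^ (1 - ε / 4) * (X : ℝ) ^ (3 * ε / 8) := by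
    calc (E.card : ℝ) * (X : ℝ) ^ (3 * ε / 8) ≤ D * (X * (X : ℝ) ^ (ε / 16)) := h4
      _ ≤ D * ((X : ℝ) ^ (1 - ε / 4) * (X : ℝ) ^ (3 * ε / 8)) := mul_le_mul_of_nonneg_left h5 hD0.le
      _ = _ := by ring
  exact le_of_mul_le_mul_right h6 (by positivity)

theorem A1F (hTOE : TOE_stmt) (hA1E : A1E_stmt) : A1F_stmt := by
  classical
  intro k hk ε hε
  obtain ⟨C₂, hC₂, h₂⟩ := A1F_one hTOE hA1E k hk ε hε
  obtain ⟨C₁, hC₁, h₁⟩ := BF_log (ε / 8) (by positivity)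
  have hk0 : (0 : ℝ) < k := by exact_mod_cast hk
  set κ : ℝ := ε / (4 * (1 + ε)) with hκ
  have hκ0 : 0 < κ := by positivity
  set c : ℝ := min (ε / 8) κ with hc
  have hc0 : 0 < c := lt_min (by positivity) hκ0
  refine ⟨ε / (16 * k), c, 1 + C₁ * 2 ^ (ε / 8) * C₂, by positivity, hc0, by positivity, ?_⟩
  intro X hX E hE
  have hX0 : (0 : ℝ) < X := by exact_mod_cast hX
  have hX1 : (1 : ℝ) ≤ X := by exact_mod_cast hX
  have hsplit : E.card = (E.filter (fun p : ℕ => (p : ℝ) < (X : ℝ) ^ (1 - κ))).card +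
      (E.filter (fun p : ℕ => ¬ (p : ℝ) < (X : ℝ) ^ (1 - κ))).card :=
    (card_filter_add_card_filter_not _).symm
  have hsmall : ((E.filter (fun p : ℕ => (p : ℝ) < (X : ℝ) ^ (1 - κ))).card : ℝ) ≤ (X : ℝ) ^ (1 - c) := by
    have h3 : (E.filter (fun p : ℕ => (p : ℝ) < (X : ℝ) ^ (1 - κ))).card ≤ ⌊(X : ℝ) ^ (1 - κ)⌋₊ := by
      have h4 : E.filter (fun p : ℕ => (p : ℝ) < (X : ℝ) ^ (1 - κ)) ⊆ Ioc 0 ⌊(X : ℝ) ^ (1 - κ)⌋₊ := by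
        intro p hp
        obtain ⟨hpE, hpX⟩ := mem_filter.mp hp
        rw [mem_Ioc]
        exact ⟨(hE p hpE).1.pos, Nat.le_floor hpX.le⟩
      refine (card_le_card h4).trans ?_
      rw [Nat.card_Ioc]
      omega
    have h6 : (X : ℝ) ^ (1 - κ) ≤ (X : ℝ) ^ (1 - c) :=
      Real.rpow_le_rpow_of_exponent_le hX1 (by linarith [min_le_right (ε / 8) κ])
    calc ((E.filter (fun p : ℕ => (p : ℝ) < (X : ℝ) ^ (1 - κ))).card : ℝ) ≤ (⌊(X : ℝ) ^ (1 - κ)⌋₊ : ℝ) := by exact_mod_cast h3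
      _ ≤ (X : ℝ) ^ (1 - κ) := Nat.floor_le (by positivity)
      _ ≤ _ := h6
  set F := E.filter (fun p : ℕ => ¬ (p : ℝ) < (X : ℝ) ^ (1 - κ)) with hF
  have hFE : ∀ p ∈ F, p.Prime ∧ p ≤ X ∧ (X : ℝ) ^ (1 - κ) ≤ p ∧ ∃ N : ℕ, N ≤ p ∧ ∃ χ : DirichletCharacter ℂ p, χ ≠ 1 ∧
      Bad (CM χ) (range N) (range N) k ((p : ℝ) ^ ε * (p * (N : ℝ) ^ k + (N : ℝ) ^ (2 * k + 1) / p))
        ((p : ℝ) ^ (-(ε / (16 * k)))) := by
    intro p hp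
    obtain ⟨hpE, hpX⟩ := mem_filter.mp hp
    obtain ⟨a1, a2, χ, hχ, N, hN, hb⟩ := hE p hpE
    exact ⟨a1, a2, not_lt.mp hpX, N, hN, χ, hχ, hb⟩
  have hex : ∀ p ∈ F, ∃ N : ℕ, N ≤ p ∧ ∃ χ : DirichletCharacter ℂ p, χ ≠ 1 ∧
      Bad (CM χ) (range N) (range N) k ((p : ℝ) ^ ε * (p * (N : ℝ) ^ k + (N : ℝ) ^ (2 * k + 1) / p))
        ((p : ℝ) ^ (-(ε / (16 * k)))) := fun p hp => (hFE p hp).2.2.2
  choose! N hNp hbad using hex
  have hN1 : ∀ p ∈ F, 1 ≤ N p := by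
    intro p hp
    by_contra hcon
    have h0 : N p = 0 := by omega
    obtain ⟨χ, hχ, hb⟩ := hbad p hp
    rw [h0] at hb
    exact CF_empty range_zero hb
  set j : ℕ → ℕ := fun p => Nat.clog 2 (N p) with hj
  have hM : ∀ p ∈ F, 2 ^ j p ≤ 2 * X := by
    intro p hp
    have h3 : 2 ^ j p < 2 * N p := (BF_clog (hN1 p hp)).2
    have h4 := hNp p hp
    have h5 := (hFE p hp).2.1
    omega
  have hjJ : ∀ p ∈ F, j p ≤ Nat.log 2 (2 * X) := fun p hp => Nat.le_log_of_pow_le (by norm_num) (hM p hp)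
  have hsc := BF_scale F j (Nat.log 2 (2 * X)) (C₂ * (X : ℝ) ^ (1 - ε / 4)) hjJ ?_
  · have h3 := h₁ (2 * X) (by omega)
    have h4 : (((2 * X : ℕ) : ℕ) : ℝ) ^ (ε / 8) = 2 ^ (ε / 8) * (X : ℝ) ^ (ε / 8) := by
      push_cast
      rw [Real.mul_rpow (by norm_num) hX0.le]
    rw [h4] at h3
    have h5 : (F.card : ℝ) ≤ C₁ * 2 ^ (ε / 8) * C₂ * (X : ℝ) ^ (1 - c) := by
      refine hsc.trans ?_
      have h6 : (X : ℝ) ^ (ε / 8) * (X : ℝ) ^ (1 - ε / 4) ≤ (X : ℝ) ^ (1 - c) := by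
        rw [← Real.rpow_add hX0]
        exact Real.rpow_le_rpow_of_exponent_le hX1 (by linarith [min_le_left (ε / 8) κ])
      calc (((Nat.log 2 (2 * X) : ℕ) : ℝ) + 1) * (C₂ * (X : ℝ) ^ (1 - ε / 4))
          ≤ (C₁ * (2 ^ (ε / 8) * (X : ℝ) ^ (ε / 8))) * (C₂ * (X : ℝ) ^ (1 - ε / 4)) :=
            mul_le_mul_of_nonneg_right h3 (by positivity)
        _ = C₁ * 2 ^ (ε / 8) * C₂ * ((X : ℝ) ^ (ε / 8) * (X : ℝ) ^ (1 - ε / 4)) := by ring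
        _ ≤ C₁ * 2 ^ (ε / 8) * C₂ * (X : ℝ) ^ (1 - c) := mul_le_mul_of_nonneg_left h6 (by positivity)
    rw [hsplit]
    push_cast
    have h7 : (1 + C₁ * 2 ^ (ε / 8) * C₂) * (X : ℝ) ^ (1 - c) =
        (X : ℝ) ^ (1 - c) + C₁ * 2 ^ (ε / 8) * C₂ * (X : ℝ) ^ (1 - c) := by ring
    rw [h7]
    exact add_le_add hsmall h5
  intro i _
  rcases (F.filter (fun p => j p = i)).eq_empty_or_nonempty with hem | ⟨p₁, hp₁⟩
  · rw [hem]
    simp only [card_empty, Nat.cast_zero]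
    positivity
  obtain ⟨hpE₁, hpi₁⟩ := mem_filter.mp hp₁
  have hMX : 2 ^ i ≤ 2 * X := by
    have := hM p₁ hpE₁
    rwa [hpi₁] at this
  refine h₂ X (2 ^ i) hX Nat.one_le_two_pow hMX _ ?_
  intro p hp
  obtain ⟨hpF, hpi⟩ := mem_filter.mp hp
  obtain ⟨a1, a2, a3, _⟩ := hFE p hpF
  obtain ⟨hc1, hc2⟩ := BF_clog (hN1 p hpF)
  obtain ⟨χ, hχ, hb⟩ := hbad p hpF
  refine ⟨a1, a2, a3, χ, hχ, N p, ?_, ?_, hb⟩
  · rw [← hpi]; exact hc1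
  · rw [← hpi]; exact hc2

end Pool.Agent.ASU
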