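import Pool.Agent.helper73.ASU.Sig

set_option autoImplicit false

namespace Pool.Agent.ASU

open Finset Pool.Agent.helper3.FT

/-- all characters, exceptional set of size `X^σ` -/
def A1S_stmt : Prop := ∀ k : ℕ, 1 ≤ k → ∀ ε : ℝ, 0 < ε → ∀ σ : ℝ, 0 < σ → ∃ δ C : ℝ, 0 < δ ∧ 0 < C ∧ ∀ X : ℕ, 1 ≤ X →
  ∀ E : Finset ℕ, (∀ p ∈ E, p.Prime ∧ p ≤ X ∧ ∃ χ : DirichletCharacter ℂ p, χ ≠ 1 ∧ ∃ N : ℕ, N ≤ p ∧
    Bad (CM χ) (range N) (range N) k ((p : ℝ) ^ ε * (p * (N : ℝ) ^ k + (N : ℝ) ^ (2 * k + 1) / (p : ℝ) ^ σ))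
      ((p : ℝ) ^ (-δ))) → (E.card : ℝ) ≤ C * (X : ℝ) ^ σ

/-- the Legendre symbol -/
def AS_stmt : Prop := ∀ k : ℕ, 1 ≤ k → ∀ ε : ℝ, 0 < ε → ∀ σ : ℝ, 0 < σ → ∃ δ C : ℝ, 0 < δ ∧ 0 < C ∧ ∀ X : ℕ, 1 ≤ X →
  ∀ E : Finset ℕ, (∀ p ∈ E, p.Prime ∧ p ≤ X ∧ p ≠ 2 ∧ ∃ N : ℕ, N ≤ p ∧
    Bad (JM p) (range N) (range N) k ((p : ℝ) ^ ε * ((p * (N : ℝ) ^ (k + 1) + (N : ℝ) ^ (3 * k)) / (p : ℝ) ^ σ))
      ((p : ℝ) ^ (-δ))) → (E.card : ℝ) ≤ C * (X : ℝ) ^ σ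

theorem A1S_one (hTOE : TOE_stmt) (hA1E : A1E_stmt) (k : ℕ) (hk : 1 ≤ k) (ε : ℝ) (hε : 0 < ε) (σ : ℝ) (hσ : 0 < σ) :
    ∃ C : ℝ, 0 < C ∧ ∀ X M : ℕ, 1 ≤ X → 1 ≤ M → M ≤ 2 * X → ∀ E : Finset ℕ,
    (∀ p ∈ E, p.Prime ∧ p ≤ X ∧ X < 2 * p ∧ ∃ N : ℕ, N ≤ M ∧ M < 2 * N ∧ ∃ χ : DirichletCharacter ℂ p, χ ≠ 1 ∧
      Bad (CM χ) (range N) (range N) k
        ((p : ℝ) ^ ε * (p * (N : ℝ) ^ k + (N : ℝ) ^ (2 * k + 1) / (p : ℝ) ^ σ)) ((p : ℝ) ^ (-(ε / (16 * k))))) →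
    (E.card : ℝ) ≤ C * (X : ℝ) ^ (max (σ - ε / 2) (σ / 2)) := by
  obtain ⟨C₀, hC₀, h₀⟩ := hA1E k hk (ε / 16) (by positivity)
  have hk0 : (0 : ℝ) < k := by exact_mod_cast hk
  set K : ℝ := 4 ^ k * (2 ^ (2 * k + 1) * 2 ^ (1 + ε)) with hK
  have hK0 : 0 < K := by positivity
  set D : ℝ := C₀ * 2 ^ (ε / 16) * K with hD
  have hD0 : 0 < D := by positivity
  set s : ℝ := max (σ - ε / 2) (σ / 2) with hs
  have hs0 : 0 ≤ s := le_trans (by positivity) (le_max_right _ _)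
  refine ⟨D + D ^ (4 / (3 * ε)), by positivity, ?_⟩
  intro X M hX hM hMX E hE
  have hX0 : (0 : ℝ) < X := by exact_mod_cast hX
  have hX1 : (1 : ℝ) ≤ X := by exact_mod_cast hX
  have hM0 : (0 : ℝ) < M := by exact_mod_cast hM
  have hXs : (1 : ℝ) ≤ (X : ℝ) ^ s := Real.one_le_rpow hX1 hs0
  by_cases hbig : D ≤ (X : ℝ) ^ (3 * ε / 4)
  swap
  · push Not at hbig
    have h1 : (E.card : ℝ) ≤ X := by
      have h2 : E ⊆ Ioc 0 X := by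
        intro p hp
        rw [mem_Ioc]
        exact ⟨(hE p hp).1.pos, (hE p hp).2.1⟩
      have h3 := card_le_card h2
      rw [Nat.card_Ioc, Nat.sub_zero] at h3
      exact_mod_cast h3
    have h2 : (X : ℝ) ≤ D ^ (4 / (3 * ε)) := by
      calc (X : ℝ) = ((X : ℝ) ^ (3 * ε / 4)) ^ (4 / (3 * ε)) := by
            rw [← Real.rpow_mul hX0.le]
            nth_rw 1 [← Real.rpow_one (X : ℝ)]
            congr 1
            field_simp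
        _ ≤ D ^ (4 / (3 * ε)) := Real.rpow_le_rpow (by positivity) hbig.le (by positivity)
    have h3 : 0 ≤ D ^ (4 / (3 * ε)) := by positivity
    nlinarith
  set G : ℝ := X * (M : ℝ) ^ k + (M : ℝ) ^ (2 * k + 1) / (X : ℝ) ^ σ with hG
  have hG0 : 0 < G := by positivity
  set V2 : ℝ := (X : ℝ) ^ (7 * ε / 8) / K * G with hV2
  have hV20 : 0 < V2 := by positivity
  set V : ℝ := V2 ^ (1 / (2 * (k : ℝ))) with hV
  have hV0 : 0 < V := by positivity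
  have hVk : V ^ (2 * k) = V2 := by
    rw [hV, ← Real.rpow_natCast, ← Real.rpow_mul hV20.le]
    push_cast
    rw [one_div, inv_mul_cancel₀ (by positivity), Real.rpow_one]
  have hMε : (M : ℝ) ^ (ε / 16) ≤ 2 ^ (ε / 16) * (X : ℝ) ^ (ε / 16) := by
    rw [← Real.mul_rpow (by norm_num) hX0.le]
    exact Real.rpow_le_rpow hM0.le (by exact_mod_cast hMX) (by positivity)
  have h1 := h₀ M X hM hX V hV0 E (by
    intro p hp
    obtain ⟨hpp, hpX, hXp, N, hNM, hMN, χ, hχ, hbad⟩ := hE p hp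
    have : Fact p.Prime := ⟨hpp⟩
    have hp0 : (0 : ℝ) < p := by exact_mod_cast hpp.pos
    refine ⟨hpp, hpX, χ, hχ, ?_⟩
    have hpX' : (p : ℝ) ≤ X := by exact_mod_cast hpX
    have hXp' : (X : ℝ) ≤ 2 * p := by exact_mod_cast hXp.le
    set θ : ℝ := (X : ℝ) ^ (-(ε / (16 * k))) with hθ
    have hθ0 : 0 < θ := by positivity
    set R : ℝ := (X : ℝ) ^ ε * (G / (2 ^ (2 * k + 1) * 2 ^ (1 + ε))) with hR
    have hR0 : 0 < R := by positivity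
    have e1 : (X : ℝ) ^ (1 + ε) / 2 ^ (1 + ε) ≤ (p : ℝ) ^ (1 + ε) := by
      rw [div_le_iff₀ (by positivity), ← Real.mul_rpow hp0.le (by norm_num)]
      exact Real.rpow_le_rpow hX0.le (by linarith) (by positivity)
    have e2 : (X : ℝ) ^ ε / 2 ^ (1 + ε) ≤ (p : ℝ) ^ ε := by
      rw [div_le_iff₀ (by positivity)]
      calc (X : ℝ) ^ ε ≤ (p * 2 : ℝ) ^ ε := Real.rpow_le_rpow hX0.le (by linarith) (by positivity)
        _ = (p : ℝ) ^ ε * 2 ^ ε := Real.mul_rpow hp0.le (by norm_num)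
        _ ≤ (p : ℝ) ^ ε * 2 ^ (1 + ε) :=
          mul_le_mul_of_nonneg_left (Real.rpow_le_rpow_of_exponent_le (by norm_num) (by linarith)) (by positivity)
    have e3 : (M : ℝ) ≤ 2 * N := by exact_mod_cast hMN.le
    have e4 : (M : ℝ) ^ k / 2 ^ (2 * k + 1) ≤ (N : ℝ) ^ k := by
      rw [div_le_iff₀ (by positivity)]
      calc (M : ℝ) ^ k ≤ (2 * (N : ℝ)) ^ k := pow_le_pow_left₀ hM0.le e3 _
        _ = (N : ℝ) ^ k * 2 ^ k := by rw [mul_pow]; ring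
        _ ≤ (N : ℝ) ^ k * 2 ^ (2 * k + 1) :=
          mul_le_mul_of_nonneg_left (pow_le_pow_right₀ (by norm_num) (by omega)) (by positivity)
    have e5 : (M : ℝ) ^ (2 * k + 1) / 2 ^ (2 * k + 1) ≤ (N : ℝ) ^ (2 * k + 1) := by
      rw [div_le_iff₀ (by positivity)]
      calc (M : ℝ) ^ (2 * k + 1) ≤ (2 * (N : ℝ)) ^ (2 * k + 1) := pow_le_pow_left₀ hM0.le e3 _
        _ = (N : ℝ) ^ (2 * k + 1) * 2 ^ (2 * k + 1) := by rw [mul_pow]; ring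
    have e6 : (p : ℝ) ^ σ ≤ (X : ℝ) ^ σ := Real.rpow_le_rpow hp0.le hpX' hσ.le
    have hRle : R ≤ (p : ℝ) ^ ε * (p * (N : ℝ) ^ k + (N : ℝ) ^ (2 * k + 1) / (p : ℝ) ^ σ) := by
      have f1 : R = (X : ℝ) ^ (1 + ε) / 2 ^ (1 + ε) * ((M : ℝ) ^ k / 2 ^ (2 * k + 1)) +
          (X : ℝ) ^ ε / 2 ^ (1 + ε) * ((M : ℝ) ^ (2 * k + 1) / 2 ^ (2 * k + 1) / (X : ℝ) ^ σ) := by
        rw [hR, hG, Real.rpow_add hX0, Real.rpow_one]
        field_simp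
      have f2 : (p : ℝ) ^ ε * (p * (N : ℝ) ^ k + (N : ℝ) ^ (2 * k + 1) / (p : ℝ) ^ σ) =
          (p : ℝ) ^ (1 + ε) * (N : ℝ) ^ k + (p : ℝ) ^ ε * ((N : ℝ) ^ (2 * k + 1) / (p : ℝ) ^ σ) := by
        rw [Real.rpow_add hp0, Real.rpow_one]
        ring
      rw [f1, f2]
      refine add_le_add ?_ ?_
      · exact mul_le_mul e1 e4 (by positivity) (by positivity)
      · refine mul_le_mul e2 ?_ (by positivity) (by positivity)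
        exact div_le_div₀ (by positivity) e5 (by positivity) e6
    have hθle : θ ≤ (p : ℝ) ^ (-(ε / (16 * k))) := by
      rw [hθ, Real.rpow_neg hX0.le, Real.rpow_neg hp0.le]
      apply inv_anti₀ (by positivity)
      exact Real.rpow_le_rpow hp0.le hpX' (by positivity)
    obtain ⟨j, hj, hle⟩ := B1F_large hTOE hk hNM hM hR0 hθ0
      (BF_mono hbad (Subset.refl _) (Subset.refl _) hRle hθle)
    refine ⟨j, hj, ?_⟩
    have h5 : θ ^ (2 * k) = (X : ℝ) ^ (-(ε / 8)) := by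
      rw [hθ, ← Real.rpow_natCast, ← Real.rpow_mul hX0.le]
      congr 1
      push_cast
      field_simp
      ring
    have h6 : V ^ (2 * k) ≤ ‖GS χ M j‖ ^ (2 * k) := by
      rw [hVk]
      refine le_trans (le_of_eq ?_) hle
      have f3 : (X : ℝ) ^ (7 * ε / 8) = (X : ℝ) ^ (-(ε / 8)) * (X : ℝ) ^ ε := by
        rw [← Real.rpow_add hX0]; congr 1; ring
      rw [h5, hV2, hR, hK, f3]
      field_simp
    exact le_of_pow_le_pow_left₀ (by omega) (norm_nonneg _) h6)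
  have hcond : C₀ * ((X : ℝ) ^ (1 + ε / 16) * (M : ℝ) ^ ((k : ℝ) + ε / 16)) ≤ V ^ (2 * k) := by
    rw [hVk]
    have f1 : (M : ℝ) ^ ((k : ℝ) + ε / 16) = (M : ℝ) ^ k * (M : ℝ) ^ (ε / 16) := by
      rw [Real.rpow_add hM0, Real.rpow_natCast]
    have f2 : (X : ℝ) ^ (1 + ε / 16) = X * (X : ℝ) ^ (ε / 16) := by
      rw [Real.rpow_add hX0, Real.rpow_one]
    have f3 : (X : ℝ) ^ (7 * ε / 8) = (X : ℝ) ^ (3 * ε / 4) * ((X : ℝ) ^ (ε / 16) * (X : ℝ) ^ (ε / 16)) := by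
      rw [← Real.rpow_add hX0, ← Real.rpow_add hX0]; congr 1; ring
    have f4 : X * (M : ℝ) ^ k ≤ G := by
      rw [hG]
      have : 0 ≤ (M : ℝ) ^ (2 * k + 1) / (X : ℝ) ^ σ := by positivity
      linarith
    calc C₀ * ((X : ℝ) ^ (1 + ε / 16) * (M : ℝ) ^ ((k : ℝ) + ε / 16))
        = C₀ * (X : ℝ) ^ (ε / 16) * (M : ℝ) ^ (ε / 16) * (X * (M : ℝ) ^ k) := by rw [f1, f2]; ring
      _ ≤ C₀ * (X : ℝ) ^ (ε / 16) * (2 ^ (ε / 16) * (X : ℝ) ^ (ε / 16)) * G := by gcongr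
      _ = D / K * ((X : ℝ) ^ (ε / 16) * (X : ℝ) ^ (ε / 16)) * G := by rw [hD]; field_simp
      _ ≤ (X : ℝ) ^ (3 * ε / 4) / K * ((X : ℝ) ^ (ε / 16) * (X : ℝ) ^ (ε / 16)) * G := by gcongr
      _ = V2 := by rw [hV2, f3]; ring
  have h2 := h1 hcond
  rw [hVk] at h2
  have f1 : (M : ℝ) ^ (2 * (k : ℝ) + 1 + ε / 16) = (M : ℝ) ^ (2 * k + 1) * (M : ℝ) ^ (ε / 16) := by
    rw [Real.rpow_add hM0]
    congr 1
    rw [← Real.rpow_natCast]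
    congr 1
    push_cast
    ring
  rw [f1] at h2
  have h3 : (E.card : ℝ) * ((X : ℝ) ^ (7 * ε / 8) / K * ((M : ℝ) ^ (2 * k + 1) / (X : ℝ) ^ σ)) ≤
      C₀ * ((M : ℝ) ^ (2 * k + 1) * (2 ^ (ε / 16) * (X : ℝ) ^ (ε / 16))) := by
    have f4 : (M : ℝ) ^ (2 * k + 1) / (X : ℝ) ^ σ ≤ G := by
      rw [hG]
      have : 0 ≤ X * (M : ℝ) ^ k := by positivity
      linarith
    calc (E.card : ℝ) * ((X : ℝ) ^ (7 * ε / 8) / K * ((M : ℝ) ^ (2 * k + 1) / (X : ℝ) ^ σ))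
        ≤ (E.card : ℝ) * V2 := by rw [hV2]; gcongr
      _ ≤ C₀ * ((M : ℝ) ^ (2 * k + 1) * (M : ℝ) ^ (ε / 16)) := h2
      _ ≤ _ := by gcongr
  have h4 : (E.card : ℝ) * (X : ℝ) ^ (7 * ε / 8) ≤ D * ((X : ℝ) ^ σ * (X : ℝ) ^ (ε / 16)) := by
    have hpos : (0 : ℝ) < (M : ℝ) ^ (2 * k + 1) / (K * (X : ℝ) ^ σ) := by positivity
    refine le_of_mul_le_mul_right ?_ hpos
    calc (E.card : ℝ) * (X : ℝ) ^ (7 * ε / 8) * ((M : ℝ) ^ (2 * k + 1) / (K * (X : ℝ) ^ σ))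
        = (E.card : ℝ) * ((X : ℝ) ^ (7 * ε / 8) / K * ((M : ℝ) ^ (2 * k + 1) / (X : ℝ) ^ σ)) := by field_simp
      _ ≤ C₀ * ((M : ℝ) ^ (2 * k + 1) * (2 ^ (ε / 16) * (X : ℝ) ^ (ε / 16))) := h3
      _ = D * ((X : ℝ) ^ σ * (X : ℝ) ^ (ε / 16)) * ((M : ℝ) ^ (2 * k + 1) / (K * (X : ℝ) ^ σ)) := by rw [hD]; field_simp
  have h5 : (X : ℝ) ^ σ * (X : ℝ) ^ (ε / 16) ≤ (X : ℝ) ^ s * (X : ℝ) ^ (7 * ε / 8) := by
    rw [← Real.rpow_add hX0, ← Real.rpow_add hX0]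
    exact Real.rpow_le_rpow_of_exponent_le hX1 (by linarith [le_max_left (σ - ε / 2) (σ / 2)])
  have h6 : (E.card : ℝ) * (X : ℝ) ^ (7 * ε / 8) ≤ D * (X : ℝ) ^ s * (X : ℝ) ^ (7 * ε / 8) := by
    calc (E.card : ℝ) * (X : ℝ) ^ (7 * ε / 8) ≤ D * ((X : ℝ) ^ σ * (X : ℝ) ^ (ε / 16)) := h4
      _ ≤ D * ((X : ℝ) ^ s * (X : ℝ) ^ (7 * ε / 8)) := mul_le_mul_of_nonneg_left h5 hD0.le
      _ = _ := by ring
  have h7 := le_of_mul_le_mul_right h6 (by positivity)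
  refine h7.trans ?_
  apply mul_le_mul_of_nonneg_right _ (by positivity)
  have : 0 ≤ D ^ (4 / (3 * ε)) := by positivity
  linarith

theorem A1S (hTOE : TOE_stmt) (hA1E : A1E_stmt) : A1S_stmt := by
  intro k hk ε hε σ hσ
  have hk0 : (0 : ℝ) < k := by exact_mod_cast hk
  obtain ⟨C, hC, h⟩ := A1S_one hTOE hA1E k hk ε hε σ hσ
  obtain ⟨C', hC', h'⟩ := Sig_dyadic (fun p N => ∃ χ : DirichletCharacter ℂ p, χ ≠ 1 ∧
      Bad (CM χ) (range N) (range N) k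
        ((p : ℝ) ^ ε * (p * (N : ℝ) ^ k + (N : ℝ) ^ (2 * k + 1) / (p : ℝ) ^ σ)) ((p : ℝ) ^ (-(ε / (16 * k)))))
    σ (max (σ - ε / 2) (σ / 2)) C (le_trans (by positivity) (le_max_right _ _))
    (max_lt (by linarith) (by linarith)) hC h
  refine ⟨ε / (16 * k), C', by positivity, hC', fun X hX E hE => h' X hX E fun p hp => ?_⟩
  obtain ⟨a1, a2, χ, hχ, N, hN, hb⟩ := hE p hp
  refine ⟨a1, a2, N, ?_, hN, χ, hχ, hb⟩
  by_contra hcon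
  have h0 : N = 0 := by omega
  rw [h0] at hb
  exact CF_empty range_zero hb

theorem AS_one (hAE : AE_stmt) (k : ℕ) (hk : 1 ≤ k) (ε : ℝ) (hε : 0 < ε) (σ : ℝ) (hσ : 0 < σ) :
    ∃ C : ℝ, 0 < C ∧ ∀ X M : ℕ, 1 ≤ X → 1 ≤ M → M ≤ 2 * X → ∀ E : Finset ℕ,
    (∀ p ∈ E, p.Prime ∧ p ≤ X ∧ X < 2 * p ∧ ∃ N : ℕ, N ≤ M ∧ M < 2 * N ∧ p ≠ 2 ∧
      Bad (JM p) (range N) (range N) k
        ((p : ℝ) ^ ε * ((p * (N : ℝ) ^ (k + 1) + (N : ℝ) ^ (3 * k)) / (p : ℝ) ^ σ)) ((p : ℝ) ^ (-(ε / (16 * k))))) →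
    (E.card : ℝ) ≤ C * (X : ℝ) ^ (max (σ - ε / 2) (σ / 2)) := by
  obtain ⟨C₀, hC₀, h₀⟩ := hAE k hk (ε / 8) (by positivity)
  have hk0 : (0 : ℝ) < k := by exact_mod_cast hk
  set K : ℝ := 2 ^ ε * (2 * 8 ^ k) with hK
  have hK0 : 0 < K := by positivity
  refine ⟨C₀ * K * 2 ^ (ε / 8), by positivity, ?_⟩
  intro X M hX hM hMX E hE
  have hX0 : (0 : ℝ) < X := by exact_mod_cast hX
  have hX1 : (1 : ℝ) ≤ X := by exact_mod_cast hX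
  have hM0 : (0 : ℝ) < M := by exact_mod_cast hM
  set s : ℝ := max (σ - ε / 2) (σ / 2) with hs
  set G : ℝ := X * (M : ℝ) ^ (k + 1) + (M : ℝ) ^ (3 * k) with hG
  have hG0 : 0 < G := by positivity
  set R : ℝ := (X : ℝ) ^ ε / 2 ^ ε * (G / (2 * 8 ^ k) / (X : ℝ) ^ σ) with hR
  have hR0 : 0 < R := by positivity
  set θ : ℝ := (X : ℝ) ^ (-(ε / (16 * k))) with hθ
  have hθ0 : 0 < θ := by positivity
  have h1 := h₀ M X hM hX R θ hR0 hθ0 E (by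
    intro p hp
    obtain ⟨hpp, hpX, hXp, N, hNM, hMN, hp2, hbad⟩ := hE p hp
    have hp0 : (0 : ℝ) < p := by exact_mod_cast hpp.pos
    have hpX' : (p : ℝ) ≤ X := by exact_mod_cast hpX
    have hXp' : (X : ℝ) ≤ 2 * p := by exact_mod_cast hXp.le
    refine ⟨hpp, hp2, hpX, BF_mono hbad (range_subset_range.mpr hNM) (range_subset_range.mpr hNM) ?_ ?_⟩
    · have e1 : (X : ℝ) ^ ε / 2 ^ ε ≤ (p : ℝ) ^ ε := by
        rw [div_le_iff₀ (by positivity), ← Real.mul_rpow hp0.le (by norm_num)]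
        exact Real.rpow_le_rpow hX0.le (by linarith) (by positivity)
      have e3 : (M : ℝ) ≤ 2 * N := by exact_mod_cast hMN.le
      have e4 : X * (M : ℝ) ^ (k + 1) ≤ 2 * 8 ^ k * (p * (N : ℝ) ^ (k + 1)) := by
        have e5 : (2 : ℝ) ^ (k + 1) ≤ 8 ^ k := by
          have e6 : (8 : ℝ) ^ k = 2 ^ (3 * k) := by rw [pow_mul]; norm_num
          rw [e6]
          exact pow_le_pow_right₀ (by norm_num) (by omega)
        calc X * (M : ℝ) ^ (k + 1) ≤ (2 * p) * (2 * (N : ℝ)) ^ (k + 1) :=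
              mul_le_mul hXp' (pow_le_pow_left₀ hM0.le e3 _) (by positivity) (by positivity)
          _ = 2 * 2 ^ (k + 1) * (p * (N : ℝ) ^ (k + 1)) := by rw [mul_pow]; ring
          _ ≤ 2 * 8 ^ k * (p * (N : ℝ) ^ (k + 1)) := by gcongr
      have e5 : (M : ℝ) ^ (3 * k) ≤ 2 * 8 ^ k * (N : ℝ) ^ (3 * k) := by
        calc (M : ℝ) ^ (3 * k) ≤ (2 * (N : ℝ)) ^ (3 * k) := pow_le_pow_left₀ hM0.le e3 _
          _ = 8 ^ k * (N : ℝ) ^ (3 * k) := by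
            rw [mul_pow, pow_mul (2 : ℝ)]; norm_num
          _ ≤ 2 * 8 ^ k * (N : ℝ) ^ (3 * k) := by
            have : 0 ≤ 8 ^ k * (N : ℝ) ^ (3 * k) := by positivity
            linarith
      have e6 : (p : ℝ) ^ σ ≤ (X : ℝ) ^ σ := Real.rpow_le_rpow hp0.le hpX' hσ.le
      have e7 : G / (2 * 8 ^ k) ≤ p * (N : ℝ) ^ (k + 1) + (N : ℝ) ^ (3 * k) := by
        rw [div_le_iff₀ (by positivity), hG]
        linarith
      rw [hR]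
      refine mul_le_mul e1 ?_ (by positivity) (by positivity)
      exact div_le_div₀ (by positivity) e7 (by positivity) e6
    · rw [hθ, Real.rpow_neg hX0.le, Real.rpow_neg hp0.le]
      apply inv_anti₀ (by positivity)
      exact Real.rpow_le_rpow hp0.le hpX' (by positivity))
  have h5 : θ ^ (2 * k) = (X : ℝ) ^ (-(ε / 8)) := by
    rw [hθ, ← Real.rpow_natCast, ← Real.rpow_mul hX0.le]
    congr 1
    push_cast
    field_simp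
    ring
  have h6 : (M : ℝ) ^ ((k : ℝ) + 1 + ε / 8) = (M : ℝ) ^ (k + 1) * (M : ℝ) ^ (ε / 8) := by
    rw [Real.rpow_add hM0]
    congr 1
    rw [← Real.rpow_natCast]
    congr 1
    push_cast
    ring
  have h7 : (M : ℝ) ^ (3 * (k : ℝ) + ε / 8) = (M : ℝ) ^ (3 * k) * (M : ℝ) ^ (ε / 8) := by
    rw [Real.rpow_add hM0]
    congr 1
    rw [← Real.rpow_natCast]
    congr 1
    push_cast
    ring
  have h8 : (X : ℝ) * (M : ℝ) ^ ((k : ℝ) + 1 + ε / 8) + (M : ℝ) ^ (3 * (k : ℝ) + ε / 8) = G * (M : ℝ) ^ (ε / 8) := by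
    rw [h6, h7, hG]
    ring
  have h9 : (M : ℝ) ^ (ε / 8) ≤ 2 ^ (ε / 8) * (X : ℝ) ^ (ε / 8) := by
    rw [← Real.mul_rpow (by norm_num) hX0.le]
    exact Real.rpow_le_rpow hM0.le (by exact_mod_cast hMX) (by positivity)
  rw [h8, h5, hR] at h1
  have h10 : (E.card : ℝ) * (X : ℝ) ^ (7 * ε / 8) ≤ C₀ * K * 2 ^ (ε / 8) * ((X : ℝ) ^ σ * (X : ℝ) ^ (ε / 8)) := by
    have hpos : (0 : ℝ) < G / (K * (X : ℝ) ^ σ) := by positivity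
    refine le_of_mul_le_mul_right ?_ hpos
    have e1 : (X : ℝ) ^ (7 * ε / 8) = (X : ℝ) ^ (-(ε / 8)) * (X : ℝ) ^ ε := by
      rw [← Real.rpow_add hX0]; congr 1; ring
    calc (E.card : ℝ) * (X : ℝ) ^ (7 * ε / 8) * (G / (K * (X : ℝ) ^ σ))
        = (X : ℝ) ^ (-(ε / 8)) * ((X : ℝ) ^ ε / 2 ^ ε * (G / (2 * 8 ^ k) / (X : ℝ) ^ σ)) * E.card := by
          rw [e1, hK]; field_simp
      _ ≤ C₀ * (G * (M : ℝ) ^ (ε / 8)) := h1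
      _ ≤ C₀ * (G * (2 ^ (ε / 8) * (X : ℝ) ^ (ε / 8))) := by gcongr
      _ = C₀ * K * 2 ^ (ε / 8) * ((X : ℝ) ^ σ * (X : ℝ) ^ (ε / 8)) * (G / (K * (X : ℝ) ^ σ)) := by field_simp
  have h11 : (X : ℝ) ^ σ * (X : ℝ) ^ (ε / 8) ≤ (X : ℝ) ^ s * (X : ℝ) ^ (7 * ε / 8) := by
    rw [← Real.rpow_add hX0, ← Real.rpow_add hX0]
    exact Real.rpow_le_rpow_of_exponent_le hX1 (by linarith [le_max_left (σ - ε / 2) (σ / 2)])
  have h12 : (E.card : ℝ) * (X : ℝ) ^ (7 * ε / 8) ≤ C₀ * K * 2 ^ (ε / 8) * (X : ℝ) ^ s * (X : ℝ) ^ (7 * ε / 8) := by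
    calc (E.card : ℝ) * (X : ℝ) ^ (7 * ε / 8) ≤ C₀ * K * 2 ^ (ε / 8) * ((X : ℝ) ^ σ * (X : ℝ) ^ (ε / 8)) := h10
      _ ≤ C₀ * K * 2 ^ (ε / 8) * ((X : ℝ) ^ s * (X : ℝ) ^ (7 * ε / 8)) := mul_le_mul_of_nonneg_left h11 (by positivity)
      _ = _ := by ring
  exact le_of_mul_le_mul_right h12 (by positivity)

theorem AS (hAE : AE_stmt) : AS_stmt := by
  intro k hk ε hε σ hσ
  have hk0 : (0 : ℝ) < k := by exact_mod_cast hk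
  obtain ⟨C, hC, h⟩ := AS_one hAE k hk ε hε σ hσ
  obtain ⟨C', hC', h'⟩ := Sig_dyadic (fun p N => p ≠ 2 ∧ Bad (JM p) (range N) (range N) k
        ((p : ℝ) ^ ε * ((p * (N : ℝ) ^ (k + 1) + (N : ℝ) ^ (3 * k)) / (p : ℝ) ^ σ)) ((p : ℝ) ^ (-(ε / (16 * k)))))
    σ (max (σ - ε / 2) (σ / 2)) C (le_trans (by positivity) (le_max_right _ _))
    (max_lt (by linarith) (by linarith)) hC h
  refine ⟨ε / (16 * k), C', by positivity, hC', fun X hX E hE => h' X hX E fun p hp => ?_⟩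
  obtain ⟨a1, a2, hp2, N, hN, hb⟩ := hE p hp
  refine ⟨a1, a2, N, ?_, hN, hp2, hb⟩
  by_contra hcon
  have h0 : N = 0 := by omega
  rw [h0] at hb
  exact CF_empty range_zero hb

end Pool.Agent.ASU
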