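import Pool.Agent.helper73.ASU.BF

set_option autoImplicit false

namespace Pool.Agent.ASU

open Finset

theorem AF_one (hAE : AE_stmt) (k : ℕ) (hk : 1 ≤ k) (ε : ℝ) (hε : 0 < ε) : ∃ C : ℝ, 0 < C ∧ ∀ X M : ℕ, 1 ≤ X → 1 ≤ M →
    M ≤ 2 * X → ∀ E : Finset ℕ, (∀ p ∈ E, p.Prime ∧ p ≠ 2 ∧ p ≤ X ∧ X ≤ p * p ∧ ∃ N : ℕ, N ≤ M ∧ M < 2 * N ∧
      Bad (JM p) (range N) (range N) k ((p : ℝ) ^ ε * ((N : ℝ) ^ (k + 1) + (N : ℝ) ^ (3 * k) / p)) ((p : ℝ) ^ (-(ε / (16 * k))))) →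
    (E.card : ℝ) ≤ C * (X : ℝ) ^ (1 - ε / 4) := by
  obtain ⟨C₀, hC₀, h₀⟩ := hAE k hk (ε / 8) (by positivity)
  have hk0 : (0 : ℝ) < k := by exact_mod_cast hk
  refine ⟨C₀ * 8 ^ k * 2 ^ (ε / 8), by positivity, ?_⟩
  intro X M hX hM hMX E hE
  have hX0 : (0 : ℝ) < X := by exact_mod_cast hX
  have hX1 : (1 : ℝ) ≤ X := by exact_mod_cast hX
  have hM0 : (0 : ℝ) < M := by exact_mod_cast hM
  set G : ℝ := (M : ℝ) ^ (k + 1) + (M : ℝ) ^ (3 * k) / X with hG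
  have hG0 : 0 < G := by positivity
  set R : ℝ := (X : ℝ) ^ (ε / 2) * (G / 8 ^ k) with hR
  have hR0 : 0 < R := by positivity
  set θ : ℝ := (X : ℝ) ^ (-(ε / (16 * k))) with hθ
  have hθ0 : 0 < θ := by positivity
  have h1 := h₀ M X hM hX R θ hR0 hθ0 E (by
    intro p hp
    obtain ⟨hpp, hp2, hpX, hXp, N, hNM, hMN, hbad⟩ := hE p hp
    refine ⟨hpp, hp2, hpX, BF_mono hbad (range_subset_range.mpr hNM) (range_subset_range.mpr hNM) ?_ ?_⟩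
    · have hp0 : (0 : ℝ) < p := by exact_mod_cast hpp.pos
      have e1 : (X : ℝ) ^ (ε / 2) ≤ (p : ℝ) ^ ε := by
        have e2 : (X : ℝ) ≤ (p : ℝ) * p := by exact_mod_cast hXp
        calc (X : ℝ) ^ (ε / 2) ≤ ((p : ℝ) * p) ^ (ε / 2) := Real.rpow_le_rpow hX0.le e2 (by positivity)
          _ = (p : ℝ) ^ ε := by
            rw [Real.mul_rpow hp0.le hp0.le, ← Real.rpow_add hp0]; congr 1; ring
      have e3 : (M : ℝ) ≤ 2 * N := by exact_mod_cast hMN.le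
      have e4 : (M : ℝ) ^ (k + 1) ≤ 8 ^ k * (N : ℝ) ^ (k + 1) := by
        have e5 : (2 : ℝ) ^ (k + 1) ≤ 8 ^ k := by
          have e6 : (8 : ℝ) ^ k = 2 ^ (3 * k) := by rw [pow_mul]; norm_num
          rw [e6]
          exact pow_le_pow_right₀ (by norm_num) (by omega)
        calc (M : ℝ) ^ (k + 1) ≤ (2 * (N : ℝ)) ^ (k + 1) := pow_le_pow_left₀ hM0.le e3 _
          _ = 2 ^ (k + 1) * (N : ℝ) ^ (k + 1) := by rw [mul_pow]
          _ ≤ 8 ^ k * (N : ℝ) ^ (k + 1) := mul_le_mul_of_nonneg_right e5 (by positivity)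
      have e5 : (M : ℝ) ^ (3 * k) ≤ 8 ^ k * (N : ℝ) ^ (3 * k) := by
        calc (M : ℝ) ^ (3 * k) ≤ (2 * (N : ℝ)) ^ (3 * k) := pow_le_pow_left₀ hM0.le e3 _
          _ = 8 ^ k * (N : ℝ) ^ (3 * k) := by
            rw [mul_pow, pow_mul (2 : ℝ)]; norm_num
      have e6 : (M : ℝ) ^ (3 * k) / X ≤ 8 ^ k * ((N : ℝ) ^ (3 * k) / p) := by
        rw [← mul_div_assoc]
        have e7 : (p : ℝ) ≤ X := by exact_mod_cast hpX
        exact div_le_div₀ (by positivity) e5 hp0 e7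
      have e7 : G / 8 ^ k ≤ (N : ℝ) ^ (k + 1) + (N : ℝ) ^ (3 * k) / p := by
        rw [div_le_iff₀ (by positivity), hG]
        linarith
      rw [hR]
      exact mul_le_mul e1 e7 (by positivity) (by positivity)
    · have hp0 : (0 : ℝ) < p := by exact_mod_cast hpp.pos
      rw [hθ, Real.rpow_neg hX0.le, Real.rpow_neg hp0.le]
      apply inv_anti₀ (by positivity)
      exact Real.rpow_le_rpow hp0.le (by exact_mod_cast hpX) (by positivity))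
  have h5 : θ ^ (2 * k) = (X : ℝ) ^ (-(ε / 8)) := by
    rw [hθ, ← Real.rpow_natCast, ← Real.rpow_mul hX0.le]
    congr 1
    push_cast
    field_simp
    ring
  have h6 : (M : ℝ) ^ ((k : ℝ) + 1 + ε / 8) = (M : ℝ) ^ (k + 1) * (M : ℝ) ^ (ε / 8) := by
    rw [Real.rpow_add hM0]
    congr 1
    rw [← Real.rpow_natCast]
    congr 1
    push_cast
    ring
  have h7 : (M : ℝ) ^ (3 * (k : ℝ) + ε / 8) = (M : ℝ) ^ (3 * k) * (M : ℝ) ^ (ε / 8) := by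
    rw [Real.rpow_add hM0]
    congr 1
    rw [← Real.rpow_natCast]
    congr 1
    push_cast
    ring
  have h8 : (X : ℝ) * (M : ℝ) ^ ((k : ℝ) + 1 + ε / 8) + (M : ℝ) ^ (3 * (k : ℝ) + ε / 8) = X * G * (M : ℝ) ^ (ε / 8) := by
    rw [h6, h7, hG]
    field_simp
  have h9 : (M : ℝ) ^ (ε / 8) ≤ 2 ^ (ε / 8) * (X : ℝ) ^ (ε / 8) := by
    rw [← Real.mul_rpow (by norm_num) hX0.le]
    exact Real.rpow_le_rpow hM0.le (by exact_mod_cast hMX) (by positivity)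
  rw [h8, h5, hR] at h1
  have h10 : (X : ℝ) ^ (3 * ε / 8) * (E.card : ℝ) ≤ C₀ * 8 ^ k * (X * (2 ^ (ε / 8) * (X : ℝ) ^ (ε / 8))) := by
    have hpos : (0 : ℝ) < G / 8 ^ k := by positivity
    refine le_of_mul_le_mul_right ?_ hpos
    have e1 : (X : ℝ) ^ (3 * ε / 8) = (X : ℝ) ^ (-(ε / 8)) * (X : ℝ) ^ (ε / 2) := by
      rw [← Real.rpow_add hX0]; congr 1; ring
    calc (X : ℝ) ^ (3 * ε / 8) * (E.card : ℝ) * (G / 8 ^ k)
        = (X : ℝ) ^ (-(ε / 8)) * ((X : ℝ) ^ (ε / 2) * (G / 8 ^ k)) * E.card := by rw [e1]; ring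
      _ ≤ C₀ * (X * G * (M : ℝ) ^ (ε / 8)) := h1
      _ ≤ C₀ * (X * G * (2 ^ (ε / 8) * (X : ℝ) ^ (ε / 8))) := by gcongr
      _ = C₀ * 8 ^ k * (X * (2 ^ (ε / 8) * (X : ℝ) ^ (ε / 8))) * (G / 8 ^ k) := by field_simp
  have h11 : (X : ℝ) * (X : ℝ) ^ (ε / 8) = (X : ℝ) ^ (3 * ε / 8) * (X : ℝ) ^ (1 - ε / 4) := by
    rw [← Real.rpow_add hX0]
    nth_rw 1 [← Real.rpow_one (X : ℝ)]
    rw [← Real.rpow_add hX0]
    congr 1; ring
  have h12 : C₀ * 8 ^ k * (X * (2 ^ (ε / 8) * (X : ℝ) ^ (ε / 8))) =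
      (X : ℝ) ^ (3 * ε / 8) * (C₀ * 8 ^ k * 2 ^ (ε / 8) * (X : ℝ) ^ (1 - ε / 4)) := by
    calc C₀ * 8 ^ k * (X * (2 ^ (ε / 8) * (X : ℝ) ^ (ε / 8)))
        = C₀ * 8 ^ k * 2 ^ (ε / 8) * (X * (X : ℝ) ^ (ε / 8)) := by ring
      _ = _ := by rw [h11]; ring
  rw [h12] at h10
  exact le_of_mul_le_mul_left h10 (by positivity)

theorem AF (hAE : AE_stmt) : AF_stmt := by
  classical
  intro k hk ε hε
  obtain ⟨C₂, hC₂, h₂⟩ := AF_one hAE k hk ε hε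
  obtain ⟨C₁, hC₁, h₁⟩ := BF_log (ε / 8) (by positivity)
  have hk0 : (0 : ℝ) < k := by exact_mod_cast hk
  set c : ℝ := min (ε / 8) (1 / 2) with hc
  have hc0 : 0 < c := lt_min (by positivity) (by norm_num)
  refine ⟨ε / (16 * k), c, 1 + C₁ * 2 ^ (ε / 8) * C₂, by positivity, hc0, by positivity, ?_⟩
  intro X hX E hE
  have hX0 : (0 : ℝ) < X := by exact_mod_cast hX
  have hX1 : (1 : ℝ) ≤ X := by exact_mod_cast hX
  -- small primes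
  have hsplit : E.card = (E.filter (fun p => p * p < X)).card + (E.filter (fun p => ¬ p * p < X)).card :=
    (card_filter_add_card_filter_not _).symm
  have hsmall : ((E.filter (fun p => p * p < X)).card : ℝ) ≤ (X : ℝ) ^ (1 - c) := by
    have h3 : (E.filter (fun p => p * p < X)).card ≤ Nat.sqrt X := by
      have h4 : E.filter (fun p => p * p < X) ⊆ Ioc 0 (Nat.sqrt X) := by
        intro p hp
        obtain ⟨hpE, hpX⟩ := mem_filter.mp hp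
        rw [mem_Ioc]
        exact ⟨(hE p hpE).1.pos, Nat.le_sqrt.mpr hpX.le⟩
      refine (card_le_card h4).trans ?_
      rw [Nat.card_Ioc]
      omega
    have h5 : ((Nat.sqrt X : ℕ) : ℝ) ≤ √(X : ℝ) := Real.nat_sqrt_le_real_sqrt
    have h6 : √(X : ℝ) ≤ (X : ℝ) ^ (1 - c) := by
      rw [Real.sqrt_eq_rpow]
      exact Real.rpow_le_rpow_of_exponent_le hX1 (by linarith [min_le_right (ε / 8) (1 / 2)])
    calc ((E.filter (fun p => p * p < X)).card : ℝ) ≤ (Nat.sqrt X : ℕ) := by exact_mod_cast h3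
      _ ≤ _ := h5.trans h6
  -- large primes
  set F := E.filter (fun p => ¬ p * p < X) with hF
  have hFE : ∀ p ∈ F, p.Prime ∧ p ≠ 2 ∧ p ≤ X ∧ X ≤ p * p ∧ ∃ N : ℕ, N ≤ p ∧
      Bad (JM p) (range N) (range N) k ((p : ℝ) ^ ε * ((N : ℝ) ^ (k + 1) + (N : ℝ) ^ (3 * k) / p)) ((p : ℝ) ^ (-(ε / (16 * k)))) := by
    intro p hp
    obtain ⟨hpE, hpX⟩ := mem_filter.mp hp
    obtain ⟨a1, a2, a3, a4⟩ := hE p hpE
    exact ⟨a1, a2, a3, by omega, a4⟩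
  have hex : ∀ p ∈ F, ∃ N : ℕ, N ≤ p ∧
      Bad (JM p) (range N) (range N) k ((p : ℝ) ^ ε * ((N : ℝ) ^ (k + 1) + (N : ℝ) ^ (3 * k) / p)) ((p : ℝ) ^ (-(ε / (16 * k)))) :=
    fun p hp => (hFE p hp).2.2.2.2
  choose! N hNp hbad using hex
  have hN1 : ∀ p ∈ F, 1 ≤ N p := by
    intro p hp
    by_contra hcon
    have h0 : N p = 0 := by omega
    have := hbad p hp
    rw [h0] at this
    exact CF_empty range_zero this
  set j : ℕ → ℕ := fun p => Nat.clog 2 (N p) with hj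
  have hM : ∀ p ∈ F, 2 ^ j p ≤ 2 * X := by
    intro p hp
    have h3 := (BF_clog (hN1 p hp)).2
    have h4 := hNp p hp
    have h5 := (hFE p hp).2.2.1
    have h6 : 2 ^ j p < 2 * N p := h3
    omega
  have hjJ : ∀ p ∈ F, j p ≤ Nat.log 2 (2 * X) := fun p hp => Nat.le_log_of_pow_le (by norm_num) (hM p hp)
  have hsc := BF_scale F j (Nat.log 2 (2 * X)) (C₂ * (X : ℝ) ^ (1 - ε / 4)) hjJ ?_
  · have h3 := h₁ (2 * X) (by omega)
    have h4 : (((2 * X : ℕ) : ℕ) : ℝ) ^ (ε / 8) = 2 ^ (ε / 8) * (X : ℝ) ^ (ε / 8) := by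
      push_cast
      rw [Real.mul_rpow (by norm_num) hX0.le]
    rw [h4] at h3
    have h5 : (F.card : ℝ) ≤ C₁ * 2 ^ (ε / 8) * C₂ * (X : ℝ) ^ (1 - c) := by
      refine hsc.trans ?_
      have h6 : (X : ℝ) ^ (ε / 8) * (X : ℝ) ^ (1 - ε / 4) ≤ (X : ℝ) ^ (1 - c) := by
        rw [← Real.rpow_add hX0]
        exact Real.rpow_le_rpow_of_exponent_le hX1 (by linarith [min_le_left (ε / 8) (1 / 2)])
      calc (((Nat.log 2 (2 * X) : ℕ) : ℝ) + 1) * (C₂ * (X : ℝ) ^ (1 - ε / 4))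
          ≤ (C₁ * (2 ^ (ε / 8) * (X : ℝ) ^ (ε / 8))) * (C₂ * (X : ℝ) ^ (1 - ε / 4)) :=
            mul_le_mul_of_nonneg_right h3 (by positivity)
        _ = C₁ * 2 ^ (ε / 8) * C₂ * ((X : ℝ) ^ (ε / 8) * (X : ℝ) ^ (1 - ε / 4)) := by ring
        _ ≤ C₁ * 2 ^ (ε / 8) * C₂ * (X : ℝ) ^ (1 - c) := mul_le_mul_of_nonneg_left h6 (by positivity)
    rw [hsplit]
    push_cast
    have h7 : (1 + C₁ * 2 ^ (ε / 8) * C₂) * (X : ℝ) ^ (1 - c) =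
        (X : ℝ) ^ (1 - c) + C₁ * 2 ^ (ε / 8) * C₂ * (X : ℝ) ^ (1 - c) := by ring
    rw [h7]
    exact add_le_add hsmall h5
  intro i _
  rcases (F.filter (fun p => j p = i)).eq_empty_or_nonempty with hem | ⟨p₁, hp₁⟩
  · rw [hem]
    simp only [card_empty, Nat.cast_zero]
    positivity
  obtain ⟨hpE₁, hpi₁⟩ := mem_filter.mp hp₁
  have hMX : 2 ^ i ≤ 2 * X := by
    have := hM p₁ hpE₁
    rwa [hpi₁] at this
  refine h₂ X (2 ^ i) hX Nat.one_le_two_pow hMX _ ?_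
  intro p hp
  obtain ⟨hpF, hpi⟩ := mem_filter.mp hp
  obtain ⟨a1, a2, a3, a4, _⟩ := hFE p hpF
  obtain ⟨hc1, hc2⟩ := BF_clog (hN1 p hpF)
  refine ⟨a1, a2, a3, a4, N p, ?_, ?_, hbad p hpF⟩
  · rw [← hpi]; exact hc1
  · rw [← hpi]; exact hc2

end Pool.Agent.ASU
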