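import Pool.Agent.helper73.ASU.CF

set_option autoImplicit false

namespace Pool.Agent.ASU

open Finset

theorem BF_scale {ι : Type*} (E : Finset ι) (j : ι → ℕ) (J : ℕ) (b : ℝ) (hj : ∀ e ∈ E, j e ≤ J)
    (hb : ∀ i ≤ J, ((E.filter (fun e => j e = i)).card : ℝ) ≤ b) : (E.card : ℝ) ≤ ((J : ℝ) + 1) * b := by
  classical
  have h1 : E.card = ∑ i ∈ range (J + 1), (E.filter (fun e => j e = i)).card :=
    card_eq_sum_card_fiberwise (fun e he => by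
      rw [mem_coe, mem_range]
      exact Nat.lt_succ_of_le (hj e he))
  rw [h1]
  push_cast
  refine (sum_le_sum fun i hi => hb i (Nat.lt_succ_iff.mp (mem_range.mp hi))).trans ?_
  rw [sum_const, card_range, nsmul_eq_mul]
  push_cast
  exact le_rfl

theorem BF_log (η : ℝ) (hη : 0 < η) : ∃ C : ℝ, 0 < C ∧ ∀ n : ℕ, 1 ≤ n → ((Nat.log 2 n : ℕ) : ℝ) + 1 ≤ C * (n : ℝ) ^ η := by
  refine ⟨1 / (η * Real.log 2) + 1, ?_, fun n hn => ?_⟩
  · have : 0 < Real.log 2 := Real.log_pos (by norm_num)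
    positivity
  have hl : 0 < Real.log 2 := Real.log_pos (by norm_num)
  have hn1 : (1 : ℝ) ≤ n := by exact_mod_cast hn
  have h1 : ((2 : ℝ)) ^ (Nat.log 2 n) ≤ n := by exact_mod_cast Nat.pow_log_le_self 2 (by omega)
  have h2 := Real.log_le_log (by positivity) h1
  rw [Real.log_pow] at h2
  have h3 : Real.log n ≤ (n : ℝ) ^ η / η := Real.log_le_rpow_div (by linarith) hη
  have h4 : (1 : ℝ) ≤ (n : ℝ) ^ η := Real.one_le_rpow hn1 hη.le
  have h5 : ((Nat.log 2 n : ℕ) : ℝ) ≤ (n : ℝ) ^ η / η / Real.log 2 := by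
    rw [le_div_iff₀ hl]
    exact h2.trans h3
  have h6 : (n : ℝ) ^ η / η / Real.log 2 = 1 / (η * Real.log 2) * (n : ℝ) ^ η := by
    field_simp
  rw [h6] at h5
  linarith

theorem BF_clog {N : ℕ} (hN : 1 ≤ N) : N ≤ 2 ^ Nat.clog 2 N ∧ 2 ^ Nat.clog 2 N < 2 * N := by
  refine ⟨Nat.le_pow_clog (by norm_num) N, ?_⟩
  rcases Nat.lt_or_ge 1 N with h | h
  · have h1 := Nat.pow_pred_clog_lt_self (b := 2) (by norm_num) h
    have h2 : 0 < Nat.clog 2 N := Nat.clog_pos (by norm_num) h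
    have h3 : 2 ^ Nat.clog 2 N = 2 * 2 ^ (Nat.clog 2 N).pred := by
      rw [← pow_succ']
      congr 1
      exact (Nat.succ_pred_eq_of_pos h2).symm
    rw [h3]
    omega
  · have : N = 1 := by omega
    subst this
    simp

theorem BF_mono {α β : Type} {m : α → β → ℂ} {V V' : Finset α} {W W' : Finset β} {k : ℕ} {R R' θ θ' : ℝ}
    (h : Bad m V W k R θ) (hV : V ⊆ V') (hW : W ⊆ W') (hR : R' ≤ R) (hθ : θ' ≤ θ) : Bad m V' W' k R' θ' := by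
  obtain ⟨A, hA, B, hB, w, hw, hRt, hbb⟩ := h
  exact ⟨A, hA.trans hV, B, hB.trans hW, w, hw, hR.trans hRt,
    lt_of_le_of_lt (mul_le_mul_of_nonneg_right hθ (by positivity)) hbb⟩

theorem BF (hTR : TR_stmt) (hBS1 : BS1_stmt) : BF_stmt := by
  classical
  intro k hk ε hε
  obtain ⟨C₀, hC₀, h₀⟩ := hBS1 k (by omega) (ε / 4) (by positivity)
  obtain ⟨C₁, hC₁, h₁⟩ := BF_log (ε / 4) (by positivity)
  have hk0 : (0 : ℝ) < k := by
    have : 0 < k := by omega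
    exact_mod_cast this
  refine ⟨ε / (8 * k), ε / 4, C₁ * (C₀ * 4 ^ k), by positivity, by positivity, by positivity, ?_⟩
  intro p _ E hE
  have hp : p.Prime := Fact.out
  have hp0 : (0 : ℝ) < p := by exact_mod_cast hp.pos
  have hp1 : (1 : ℝ) ≤ p := by exact_mod_cast hp.one_lt.le
  choose! N hN hbad using hE
  have hN1 : ∀ χ ∈ E, 1 ≤ N χ := by
    intro χ hχ
    by_contra hcon
    have h0 : N χ = 0 := by omega
    have := hbad χ hχ
    rw [h0] at this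
    exact CF_empty range_zero this
  set j : DirichletCharacter ℂ p → ℕ := fun χ => Nat.clog 2 (N χ) with hj
  have hMk : ∀ χ ∈ E, 2 * (2 ^ j χ) ^ k < p := by
    intro χ hχ
    have h2 := (BF_clog (hN1 χ hχ)).2
    have h3 : (2 ^ j χ) ^ k < (2 * N χ) ^ k := Nat.pow_lt_pow_left h2 (by omega)
    have h4 : 2 * 2 ^ k ≤ 3 ^ k := by
      obtain ⟨l, rfl⟩ : ∃ l, k = l + 2 := ⟨k - 2, by omega⟩
      have h5 : 2 ^ l ≤ 3 ^ l := Nat.pow_le_pow_left (by norm_num) l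
      rw [pow_add, pow_add]
      omega
    calc 2 * (2 ^ j χ) ^ k < 2 * (2 * N χ) ^ k := by omega
      _ = 2 * 2 ^ k * (N χ) ^ k := by rw [mul_pow]; ring
      _ ≤ 3 ^ k * (N χ) ^ k := Nat.mul_le_mul_right _ h4
      _ = (3 * N χ) ^ k := by rw [mul_pow]
      _ ≤ p := hN χ hχ
  have hM : ∀ χ ∈ E, 2 ^ j χ ≤ p := by
    intro χ hχ
    have h2 := hMk χ hχ
    have h3 : 2 ^ j χ ≤ (2 ^ j χ) ^ k := Nat.le_self_pow (by omega) _
    omega
  have hjJ : ∀ χ ∈ E, j χ ≤ Nat.log 2 p := fun χ hχ => Nat.le_log_of_pow_le (by norm_num) (hM χ hχ)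
  have hsc := BF_scale E j (Nat.log 2 p) (C₀ * 4 ^ k * (p : ℝ) ^ (1 - ε / 2)) hjJ ?_
  · refine hsc.trans ?_
    have h2 := h₁ p hp.one_lt.le
    have h3 : (p : ℝ) ^ (1 - ε / 4) = (p : ℝ) ^ (ε / 4) * (p : ℝ) ^ (1 - ε / 2) := by
      rw [← Real.rpow_add hp0]; congr 1; ring
    calc (((Nat.log 2 p : ℕ) : ℝ) + 1) * (C₀ * 4 ^ k * (p : ℝ) ^ (1 - ε / 2))
        ≤ (C₁ * (p : ℝ) ^ (ε / 4)) * (C₀ * 4 ^ k * (p : ℝ) ^ (1 - ε / 2)) :=
          mul_le_mul_of_nonneg_right h2 (by positivity)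
      _ = C₁ * (C₀ * 4 ^ k) * (p : ℝ) ^ (1 - ε / 4) := by rw [h3]; ring
  intro i _
  rcases (E.filter (fun χ => j χ = i)).eq_empty_or_nonempty with hem | ⟨χ₁, hχ₁⟩
  · rw [hem]
    simp only [card_empty, Nat.cast_zero]
    positivity
  obtain ⟨hχE, hχi⟩ := mem_filter.mp hχ₁
  set M : ℕ := 2 ^ i with hMdef
  have hM1 : 1 ≤ M := Nat.one_le_two_pow
  have hM0 : (0 : ℝ) < M := by exact_mod_cast hM1
  have hMk' : 2 * M ^ k < p := by
    have := hMk χ₁ hχE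
    rwa [hχi] at this
  have hMp : M ≤ p := by
    have := hM χ₁ hχE
    rwa [hχi] at this
  have hsum := h₀ p M hM1 hMk'
  set θ : ℝ := (p : ℝ) ^ (-(ε / (8 * k))) with hθ
  have hθ0 : 0 < θ := by positivity
  set R : ℝ := (p : ℝ) ^ ε * ((M : ℝ) ^ (k + 1) / 4 ^ k) with hR
  have hR0 : 0 < R := by positivity
  have hlow : ((E.filter (fun χ => j χ = i)).card : ℝ) * (θ ^ (2 * k) * R) ≤
      ∑ χ : DirichletCharacter ℂ p, (TT (CM χ) (range M) (range M) k).re := by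
    rw [← nsmul_eq_mul, ← sum_const]
    refine (sum_le_sum fun χ hχ => ?_).trans
      (sum_le_sum_of_subset_of_nonneg (subset_univ _) (fun χ _ _ => (hTR _ _ (CM χ) (range M) (range M) k (by omega)).1))
    obtain ⟨hχE', hχi'⟩ := mem_filter.mp hχ
    obtain ⟨hc1, hc2⟩ := BF_clog (hN1 χ hχE')
    have hc1' : N χ ≤ M := by rw [hMdef, ← hχi']; exact hc1
    have hc2' : M < 2 * N χ := by rw [hMdef, ← hχi']; exact hc2
    apply CF_bad hTR (by omega) hR0 hθ0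
    refine BF_mono (hbad χ hχE') (range_subset_range.mpr hc1') (range_subset_range.mpr hc1') ?_ le_rfl
    rw [hR]
    apply mul_le_mul_of_nonneg_left _ (by positivity)
    rw [div_le_iff₀ (by positivity)]
    have h5 : (M : ℝ) ≤ 2 * N χ := by exact_mod_cast hc2'.le
    have h6 : (M : ℝ) ^ (k + 1) ≤ (2 * (N χ : ℝ)) ^ (k + 1) := pow_le_pow_left₀ hM0.le h5 _
    have h7 : (2 : ℝ) ^ (k + 1) ≤ 4 ^ k := by
      have h8 : (4 : ℝ) ^ k = 2 ^ (2 * k) := by rw [pow_mul]; norm_num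
      rw [h8]
      exact pow_le_pow_right₀ (by norm_num) (by omega)
    calc (M : ℝ) ^ (k + 1) ≤ (2 * (N χ : ℝ)) ^ (k + 1) := h6
      _ = (N χ : ℝ) ^ (k + 1) * 2 ^ (k + 1) := by rw [mul_pow]; ring
      _ ≤ (N χ : ℝ) ^ (k + 1) * 4 ^ k := mul_le_mul_of_nonneg_left h7 (by positivity)
  have h5 : θ ^ (2 * k) = (p : ℝ) ^ (-(ε / 4)) := by
    rw [hθ, ← Real.rpow_natCast, ← Real.rpow_mul hp0.le]
    congr 1
    push_cast
    field_simp
    ring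
  have h6 : (M : ℝ) ^ ((k : ℝ) + 1 + ε / 4) = (M : ℝ) ^ (k + 1) * (M : ℝ) ^ (ε / 4) := by
    rw [Real.rpow_add hM0]
    congr 1
    rw [← Real.rpow_natCast]
    congr 1
    push_cast
    ring
  have h7 : (M : ℝ) ^ (ε / 4) ≤ (p : ℝ) ^ (ε / 4) :=
    Real.rpow_le_rpow hM0.le (by exact_mod_cast hMp) (by positivity)
  have h8 := hlow.trans hsum
  rw [h5, hR, h6] at h8
  have h9 : ((E.filter (fun χ => j χ = i)).card : ℝ) * ((p : ℝ) ^ (-(ε / 4)) * (p : ℝ) ^ ε) ≤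
      C₀ * 4 ^ k * (p * (p : ℝ) ^ (ε / 4)) := by
    have hpos : (0 : ℝ) < (M : ℝ) ^ (k + 1) / 4 ^ k := by positivity
    refine le_of_mul_le_mul_right ?_ hpos
    calc ((E.filter (fun χ => j χ = i)).card : ℝ) * ((p : ℝ) ^ (-(ε / 4)) * (p : ℝ) ^ ε) * ((M : ℝ) ^ (k + 1) / 4 ^ k)
        = ((E.filter (fun χ => j χ = i)).card : ℝ) * ((p : ℝ) ^ (-(ε / 4)) * ((p : ℝ) ^ ε * ((M : ℝ) ^ (k + 1) / 4 ^ k))) := by ring
      _ ≤ C₀ * (p * ((M : ℝ) ^ (k + 1) * (M : ℝ) ^ (ε / 4))) := h8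
      _ ≤ C₀ * (p * ((M : ℝ) ^ (k + 1) * (p : ℝ) ^ (ε / 4))) := by gcongr
      _ = C₀ * 4 ^ k * (p * (p : ℝ) ^ (ε / 4)) * ((M : ℝ) ^ (k + 1) / 4 ^ k) := by
          field_simp
  have h10 : (p : ℝ) ^ (-(ε / 4)) * (p : ℝ) ^ ε = (p : ℝ) ^ (3 * ε / 4) := by
    rw [← Real.rpow_add hp0]; congr 1; ring
  have h11 : (p : ℝ) * (p : ℝ) ^ (ε / 4) = (p : ℝ) ^ (1 - ε / 2) * (p : ℝ) ^ (3 * ε / 4) := by
    rw [← Real.rpow_add hp0]
    nth_rw 1 [← Real.rpow_one (p : ℝ)]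
    rw [← Real.rpow_add hp0]
    congr 1; ring
  rw [h10, h11, ← mul_assoc] at h9
  exact le_of_mul_le_mul_right h9 (by positivity)

end Pool.Agent.ASU
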