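import Pool.Agent.helper73.ASU.Spec

set_option autoImplicit false

namespace Pool.Agent.ASU

open Finset

theorem CF_bad (hTR : TR_stmt) {α β : Type} {m : α → β → ℂ} {V : Finset α} {W : Finset β} {k : ℕ} (hk : 1 ≤ k)
    {R θ : ℝ} (hR : 0 < R) (hθ : 0 < θ) (h : Bad m V W k R θ) : θ ^ (2 * k) * R ≤ (TT m V W k).re := by
  obtain ⟨A, hA, B, hB, w, hw, hRt, hbb⟩ := h
  set t : ℝ := (A.card : ℝ) * B.card with ht
  have ht0 : 0 ≤ t := by positivity
  have htk : 0 < t ^ k := lt_of_lt_of_le hR hRt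
  have h1 : (θ * t) ^ (2 * k) ≤ t ^ k * (TT m V W k).re :=
    (pow_le_pow_left₀ (by positivity) hbb.le _).trans ((hTR α β m V W k hk).2 A hA B hB w hw)
  have h2 : (θ * t) ^ (2 * k) = t ^ k * (θ ^ (2 * k) * t ^ k) := by
    rw [mul_pow, two_mul, pow_add t k k]; ring
  rw [h2] at h1
  have h3 := le_of_mul_le_mul_left h1 htk
  refine le_trans ?_ h3
  exact mul_le_mul_of_nonneg_left hRt (by positivity)

theorem CF_empty {α β : Type} {m : α → β → ℂ} {V : Finset α} {W : Finset β} {k : ℕ} {R θ : ℝ}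
    (hV : V = ∅) (h : Bad m V W k R θ) : False := by
  obtain ⟨A, hA, B, hB, w, hw, hRt, hbb⟩ := h
  subst hV
  have : A = ∅ := subset_empty.mp hA
  subst this
  simp [BB] at hbb

theorem CF (hTR : TR_stmt) (hCS1 : CS1_stmt) : CF_stmt := by
  intro k hk ε hε
  have hk0 : (0 : ℝ) < k := by exact_mod_cast hk
  refine ⟨ε / (4 * k), ε / 2, (2 * k : ℝ) ^ (2 * k), by positivity, by positivity, by positivity, ?_⟩
  intro p _ χ hχ N P Q hP hQ E hE
  have hp : p.Prime := Fact.out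
  have hp0 : (0 : ℝ) < p := by exact_mod_cast hp.pos
  rcases Nat.eq_zero_or_pos N with hN | hN
  · have hE0 : E = ∅ := by
      apply eq_empty_of_forall_notMem
      intro x hx
      have : P = ∅ := by rw [← card_eq_zero]; omega
      exact CF_empty this (hE x hx)
    rw [hE0]
    simp only [card_empty, Nat.cast_zero]
    positivity
  have hN0 : (0 : ℝ) < N := by exact_mod_cast hN
  set G : ℝ := (N : ℝ) ^ (k + 1) + (N : ℝ) ^ (2 * k) / √(p : ℝ) with hG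
  have hG0 : 0 < G := by positivity
  set θ : ℝ := (p : ℝ) ^ (-(ε / (4 * k))) with hθ
  have hθ0 : 0 < θ := by positivity
  have h1 : (E.card : ℝ) * (θ ^ (2 * k) * ((p : ℝ) ^ ε * G)) ≤ ∑ x : ZMod p, (TT (XM χ x) P Q k).re := by
    rw [← nsmul_eq_mul, ← sum_const]
    refine (sum_le_sum fun x hx => CF_bad hTR hk (by positivity) hθ0 (hE x hx)).trans ?_
    exact sum_le_sum_of_subset_of_nonneg (subset_univ _) (fun x _ _ => (hTR _ _ (XM χ x) P Q k hk).1)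
  have h2 := hCS1 p k N hk hN χ hχ P Q hP hQ
  have h3 : (2 * k : ℝ) ^ (2 * k) * (p * (N : ℝ) ^ (k + 1)) + 2 * k * √(p : ℝ) * (N : ℝ) ^ (2 * k) ≤
      (2 * k : ℝ) ^ (2 * k) * (p * G) := by
    have h4 : (2 * k : ℝ) ≤ (2 * k : ℝ) ^ (2 * k) := by
      have h5 : (1 : ℝ) ≤ 2 * k := by
        have : (1 : ℝ) ≤ k := by exact_mod_cast hk
        linarith
      exact le_self_pow₀ h5 (by omega)
    have h6 : √(p : ℝ) * (N : ℝ) ^ (2 * k) = p * ((N : ℝ) ^ (2 * k) / √(p : ℝ)) := by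
      have h7 : √(p : ℝ) ≠ 0 := (Real.sqrt_pos.mpr hp0).ne'
      field_simp
      rw [Real.sq_sqrt hp0.le]
    rw [hG, mul_add, mul_add, mul_assoc (2 * (k : ℝ)), h6]
    have h8 : 0 ≤ (p : ℝ) * ((N : ℝ) ^ (2 * k) / √(p : ℝ)) := by positivity
    have h9 := mul_le_mul_of_nonneg_right h4 h8
    linarith
  have h4 : (E.card : ℝ) * (θ ^ (2 * k) * ((p : ℝ) ^ ε * G)) ≤ (2 * k : ℝ) ^ (2 * k) * (p * G) := h1.trans (h2.trans h3)
  have h5 : θ ^ (2 * k) = (p : ℝ) ^ (-(ε / 2)) := by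
    rw [hθ, ← Real.rpow_natCast, ← Real.rpow_mul hp0.le]
    congr 1
    push_cast
    field_simp
    ring
  rw [h5] at h4
  have h6 : (E.card : ℝ) * ((p : ℝ) ^ (-(ε / 2)) * (p : ℝ) ^ ε) ≤ (2 * k : ℝ) ^ (2 * k) * p := by
    refine le_of_mul_le_mul_right ?_ hG0
    calc (E.card : ℝ) * ((p : ℝ) ^ (-(ε / 2)) * (p : ℝ) ^ ε) * G
        = (E.card : ℝ) * ((p : ℝ) ^ (-(ε / 2)) * ((p : ℝ) ^ ε * G)) := by ring
      _ ≤ (2 * k : ℝ) ^ (2 * k) * (p * G) := h4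
      _ = (2 * k : ℝ) ^ (2 * k) * p * G := by ring
  rw [← Real.rpow_add hp0] at h6
  have h7 : -(ε / 2) + ε = ε / 2 := by ring
  rw [h7] at h6
  have h8 : (p : ℝ) ^ (1 - ε / 2) = p * (p : ℝ) ^ (-(ε / 2)) := by
    rw [sub_eq_add_neg, Real.rpow_add hp0, Real.rpow_one]
  rw [h8, Real.rpow_neg hp0.le, ← mul_assoc, ← div_eq_mul_inv, le_div_iff₀ (by positivity)]
  exact h6

end Pool.Agent.ASU
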