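import Pool.Agent.helper73.ASU.Spec

set_option autoImplicit false

namespace Pool.Agent.ASU

open Finset Pool.Agent.helper82.Weil

theorem CP_img {F : Type} [DecidableEq F] {k : ℕ} (t : Fin k ⊕ Fin k → F)
    (hdeg : ¬ ∃ i₀ : Fin k ⊕ Fin k, ∀ i, i ≠ i₀ → t i ≠ t i₀) : (Finset.univ.image t).card ≤ k := by
  have h1 : ∀ w ∈ Finset.univ.image t, 2 ≤ (Finset.univ.filter (fun i => t i = w)).card := by
    intro w hw
    rw [Finset.mem_image] at hw
    obtain ⟨i₀, _, hi₀⟩ := hw
    by_contra hcon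
    apply hdeg
    refine ⟨i₀, fun i hi heq => ?_⟩
    have h2 : ({i, i₀} : Finset (Fin k ⊕ Fin k)) ⊆ Finset.univ.filter (fun i => t i = w) := by
      intro j hj
      rw [Finset.mem_insert, Finset.mem_singleton] at hj
      rw [Finset.mem_filter]
      refine ⟨Finset.mem_univ _, ?_⟩
      rcases hj with rfl | rfl
      · rw [← hi₀]; exact heq
      · exact hi₀
    have h3 := Finset.card_le_card h2
    rw [Finset.card_pair hi] at h3
    omega
  have h2 : ∑ w ∈ Finset.univ.image t, (Finset.univ.filter (fun i => t i = w)).card =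
      (Finset.univ : Finset (Fin k ⊕ Fin k)).card := by
    rw [Finset.card_eq_sum_card_image t]
  have h3 : (Finset.univ.image t).card * 2 ≤
      ∑ w ∈ Finset.univ.image t, (Finset.univ.filter (fun i => t i = w)).card := by
    rw [← smul_eq_mul, ← Finset.sum_const]
    exact Finset.sum_le_sum h1
  rw [h2, Finset.card_univ, Fintype.card_sum, Fintype.card_fin] at h3
  omega

/-- position of an edge along the walk -/
def CP_pos {k : ℕ} : Fin k ⊕ Fin k → ℕ := Sum.elim (fun i => 2 * (i : ℕ)) (fun i => 2 * (i : ℕ) + 1)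

theorem CP_pos_inj {k : ℕ} : Function.Injective (CP_pos (k := k)) := by
  rintro (i | i) (j | j) h
  · have h' : 2 * (i : ℕ) = 2 * (j : ℕ) := h
    congr 1
    apply Fin.ext
    omega
  · have h' : 2 * (i : ℕ) = 2 * (j : ℕ) + 1 := h
    omega
  · have h' : 2 * (i : ℕ) + 1 = 2 * (j : ℕ) := h
    omega
  · have h' : 2 * (i : ℕ) + 1 = 2 * (j : ℕ) + 1 := h
    congr 1
    apply Fin.ext
    omega

/-- the sums along the walk -/
def CP_n {F : Type} [Field F] {k : ℕ} (v : (Fin k → F) × (Fin k → F)) : Fin k ⊕ Fin k → F :=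
  Sum.elim (fun i => v.1 i + v.2 i) (fun i => rot v.1 i + v.2 i)

/-- the new vertices along the walk -/
def CP_w {F : Type} [Field F] {k : ℕ} (v : (Fin k → F) × (Fin k → F)) : Fin k ⊕ Fin k → F :=
  Sum.elim (fun i => v.2 i) (fun i => rot v.1 i)

theorem CP_rot {α : Type} {k : ℕ} (a : Fin k → α) (i : ℕ) (hi : i + 1 < k) :
    rot a ⟨i, by omega⟩ = a ⟨i + 1, hi⟩ := by
  obtain ⟨K, rfl⟩ : ∃ K, k = K + 1 := ⟨k - 1, by omega⟩
  unfold rot
  congr 1
  rw [finRotate_succ_apply]
  apply Fin.ext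
  rw [Fin.val_add_one_of_lt]
  rw [Fin.lt_def]
  simp only [Fin.val_last]
  omega

theorem CP_inj {F : Type} [Field F] {k : ℕ} (hk : 1 ≤ k) (v v' : (Fin k → F) × (Fin k → F)) (f : Fin k ⊕ Fin k → Fin k ⊕ Fin k)
    (h1 : ∀ j, CP_n v (f j) = CP_n v j) (h1' : ∀ j, CP_n v' (f j) = CP_n v' j) (h2 : ∀ j, CP_pos (f j) ≤ CP_pos j)
    (h0 : v.1 ⟨0, hk⟩ = v'.1 ⟨0, hk⟩) (hw : ∀ j, f j = j → CP_w v j = CP_w v' j) : v = v' := by
  have key : ∀ i : ℕ, i ≤ k → (∀ h : i < k, v.1 ⟨i, h⟩ = v'.1 ⟨i, h⟩) ∧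
      (∀ j : Fin k ⊕ Fin k, CP_pos j < 2 * i → CP_n v j = CP_n v' j ∧ CP_w v j = CP_w v' j) := by
    intro i
    induction i with
    | zero =>
      intro _
      exact ⟨fun _ => h0, fun j hj => absurd hj (by omega)⟩
    | succ i ih =>
      intro hi
      obtain ⟨ha, hj⟩ := ih (by omega)
      have hik : i < k := by omega
      have hai := ha hik
      -- the edge inl i
      have hb : v.2 ⟨i, hik⟩ = v'.2 ⟨i, hik⟩ := by
        by_cases hfi : f (Sum.inl ⟨i, hik⟩) = Sum.inl ⟨i, hik⟩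
        · exact hw _ hfi
        · have h3 : CP_pos (f (Sum.inl ⟨i, hik⟩)) < 2 * i := by
            rcases lt_or_eq_of_le (h2 (Sum.inl ⟨i, hik⟩)) with h | h
            · exact h
            · exact absurd (CP_pos_inj h) hfi
          have h4 := (hj _ h3).1
          rw [h1, h1'] at h4
          have h5 : v.1 ⟨i, hik⟩ + v.2 ⟨i, hik⟩ = v'.1 ⟨i, hik⟩ + v'.2 ⟨i, hik⟩ := h4
          rw [hai] at h5
          exact add_left_cancel h5
      have hinl : ∀ j : Fin k ⊕ Fin k, CP_pos j < 2 * i + 1 → CP_n v j = CP_n v' j ∧ CP_w v j = CP_w v' j := by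
        intro j hjp
        rcases Nat.lt_succ_iff_lt_or_eq.mp hjp with h | h
        · exact hj j h
        · have : j = Sum.inl ⟨i, hik⟩ := CP_pos_inj h
          subst this
          refine ⟨?_, hb⟩
          change v.1 ⟨i, hik⟩ + v.2 ⟨i, hik⟩ = v'.1 ⟨i, hik⟩ + v'.2 ⟨i, hik⟩
          rw [hai, hb]
      have hr : rot v.1 ⟨i, hik⟩ = rot v'.1 ⟨i, hik⟩ := by
        by_cases hfi : f (Sum.inr ⟨i, hik⟩) = Sum.inr ⟨i, hik⟩
        · exact hw _ hfi
        · have h3 : CP_pos (f (Sum.inr ⟨i, hik⟩)) < 2 * i + 1 := by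
            rcases lt_or_eq_of_le (h2 (Sum.inr ⟨i, hik⟩)) with h | h
            · exact h
            · exact absurd (CP_pos_inj h) hfi
          have h4 := (hinl _ h3).1
          rw [h1, h1'] at h4
          have h5 : rot v.1 ⟨i, hik⟩ + v.2 ⟨i, hik⟩ = rot v'.1 ⟨i, hik⟩ + v'.2 ⟨i, hik⟩ := h4
          rw [hb] at h5
          exact add_right_cancel h5
      refine ⟨fun h => ?_, fun j hjp => ?_⟩
      · rw [← CP_rot v.1 i h, ← CP_rot v'.1 i h]
        exact hr
      · rcases Nat.lt_succ_iff_lt_or_eq.mp (show CP_pos j < (2 * i + 1) + 1 by omega) with h | h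
        · exact hinl j h
        · have : j = Sum.inr ⟨i, hik⟩ := CP_pos_inj h
          subst this
          refine ⟨?_, hr⟩
          change rot v.1 ⟨i, hik⟩ + v.2 ⟨i, hik⟩ = rot v'.1 ⟨i, hik⟩ + v'.2 ⟨i, hik⟩
          rw [hr, hb]
  refine Prod.ext (funext fun i => (key i i.2.le).1 i.2) (funext fun i => ?_)
  have h := (key k le_rfl).2 (Sum.inl i) (by change 2 * (i : ℕ) < 2 * k; omega)
  exact h.2

theorem CP : CP_stmt := by
  classical
  intro p _ k N hk hN P Q hP hQ S hS
  have hf : ∀ v : (Fin k → ZMod p) × (Fin k → ZMod p), ∀ j : Fin k ⊕ Fin k, ∃ i, CP_n v i = CP_n v j ∧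
      ∀ i', CP_n v i' = CP_n v j → CP_pos i ≤ CP_pos i' := by
    intro v j
    obtain ⟨i, hi, hmin⟩ := Finset.exists_min_image (univ.filter (fun i => CP_n v i = CP_n v j)) CP_pos ⟨j, by simp⟩
    exact ⟨i, (mem_filter.mp hi).2, fun i' hi' => hmin i' (by simp [hi'])⟩
  choose f hf1 hf2 using hf
  have hcount : ∀ g ∈ S.image f, (S.filter (fun v => f v = g)).card ≤ N ^ (k + 1) := by
    intro g hg
    obtain ⟨v₀, hv₀, rfl⟩ := mem_image.mp hg
    have himg : (univ.image (CP_n v₀)).card ≤ k := by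
      apply CP_img
      exact (hS v₀ hv₀).2.2
    set FF : Finset (Fin k ⊕ Fin k) := univ.filter (fun j => f v₀ j = j) with hFF
    have hFk : FF.card ≤ k := by
      refine le_trans ?_ himg
      refine card_le_card_of_injOn (CP_n v₀) (fun j _ => mem_image_of_mem _ (mem_univ _)) ?_
      intro i hi j hj hij
      have hi' : f v₀ i = i := (mem_filter.mp hi).2
      have hj' : f v₀ j = j := (mem_filter.mp hj).2
      have h1 := hf2 v₀ i j hij.symm
      have h2 := hf2 v₀ j i hij
      rw [hi'] at h1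
      rw [hj'] at h2
      exact CP_pos_inj (le_antisymm h1 h2)
    set T : Finset (ZMod p × (Fin k ⊕ Fin k → ZMod p)) := P ×ˢ Fintype.piFinset
      (fun j => if f v₀ j = j then (Sum.elim (fun _ => Q) (fun _ => P) j) else {0}) with hT
    have hTc : T.card ≤ N ^ (k + 1) := by
      rw [hT, card_product, Fintype.card_piFinset, pow_succ, mul_comm (N ^ k)]
      refine Nat.mul_le_mul hP ?_
      have h1 : ∀ j ∈ (univ : Finset (Fin k ⊕ Fin k)),
          (if f v₀ j = j then (Sum.elim (fun _ => Q) (fun _ => P) j) else ({0} : Finset (ZMod p))).card ≤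
          (if f v₀ j = j then N else 1) := by
        intro j _
        split_ifs with h
        · rcases j with j | j
          · exact hQ
          · exact hP
        · simp
      refine (prod_le_prod' h1).trans ?_
      rw [prod_ite, prod_const, prod_const_one, mul_one]
      exact Nat.pow_le_pow_right hN hFk
    refine le_trans ?_ hTc
    refine card_le_card_of_injOn (fun v => (v.1 ⟨0, hk⟩, fun j => if f v₀ j = j then CP_w v j else 0)) ?_ ?_
    · intro v hv
      have hv' := hS v (mem_filter.mp hv).1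
      rw [hT, mem_coe, mem_product, Fintype.mem_piFinset]
      refine ⟨hv'.1 _, fun j => ?_⟩
      dsimp only
      split_ifs with h
      · rcases j with j | j
        · exact hv'.2.1 _
        · exact hv'.1 _
      · simp
    · intro v hv v' hv' heq
      have hfv : f v = f v₀ := (mem_filter.mp hv).2
      have hfv' : f v' = f v₀ := (mem_filter.mp hv').2
      have heq1 : v.1 ⟨0, hk⟩ = v'.1 ⟨0, hk⟩ := congrArg Prod.fst heq
      have heq2 := congrArg Prod.snd heq
      refine CP_inj hk v v' (f v₀) (fun j => ?_) (fun j => ?_) (fun j => ?_) heq1 (fun j hj => ?_)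
      · rw [← hfv]; exact hf1 v j
      · rw [← hfv']; exact hf1 v' j
      · exact hf2 v₀ j j rfl
      · have h3 := congrFun heq2 j
        simp only [if_pos hj] at h3
        exact h3
  have h1 := card_le_mul_card_image S (N ^ (k + 1)) hcount
  have h2 : (S.image f).card ≤ (2 * k) ^ (2 * k) := by
    refine (card_le_card (subset_univ _)).trans ?_
    rw [card_univ, Fintype.card_fun, Fintype.card_sum, Fintype.card_fin, two_mul]
  calc S.card ≤ N ^ (k + 1) * (S.image f).card := h1
    _ ≤ N ^ (k + 1) * (2 * k) ^ (2 * k) := Nat.mul_le_mul_left _ h2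
    _ = (2 * k) ^ (2 * k) * N ^ (k + 1) := mul_comm _ _

end Pool.Agent.ASU
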