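import Pool.Agent.helper73.ASU.Spec

set_option autoImplicit false

namespace Pool.Agent.ASU

open Finset Pool.Agent.helper82.Weil

theorem CS1_expand {p : ℕ} [Fact p.Prime] (χ : MulChar (ZMod p) ℂ) (P Q : Finset (ZMod p)) (k : ℕ) :
    ∑ x : ZMod p, TT (XM χ x) P Q k =
      ∑ v ∈ wd k P ×ˢ wd k Q, ZZ χ (fun i => v.1 i + v.2 i) (fun i => rot v.1 i + v.2 i) := by
  unfold TT
  rw [sum_product, sum_comm]
  refine sum_congr rfl fun a _ => ?_
  rw [sum_comm]
  refine sum_congr rfl fun b _ => ?_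
  unfold ZZ
  refine sum_congr rfl fun x _ => ?_
  rw [prod_mul_distrib, map_prod]
  congr 1
  · refine prod_congr rfl fun i _ => ?_
    unfold XM
    congr 1
    ring
  · refine prod_congr rfl fun i _ => ?_
    unfold XM
    congr 2
    ring

theorem CS1 (hCP : CP_stmt) : CS1_stmt := by
  classical
  intro p _ k N hk hN χ hχ P Q hP hQ
  have hN0 : (0 : ℝ) < N := by exact_mod_cast hN
  have h1 : ∑ x : ZMod p, (TT (XM χ x) P Q k).re = (∑ x : ZMod p, TT (XM χ x) P Q k).re := by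
    rw [Complex.re_sum]
  rw [h1, CS1_expand]
  set Z : (Fin k → ZMod p) × (Fin k → ZMod p) → ℂ := fun v =>
    ZZ χ (fun i => v.1 i + v.2 i) (fun i => rot v.1 i + v.2 i) with hZ
  set S := wd k P ×ˢ wd k Q with hS
  set nd : (Fin k → ZMod p) × (Fin k → ZMod p) → Prop := fun v =>
    Nondeg (fun i => v.1 i + v.2 i) (fun i => rot v.1 i + v.2 i) with hnd
  have h2 : (∑ v ∈ S, Z v).re ≤ ∑ v ∈ S, ‖Z v‖ :=
    (Complex.re_le_norm _).trans (norm_sum_le _ _)
  refine h2.trans ?_
  rw [← sum_filter_not_add_sum_filter S nd]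
  have hcard : Fintype.card (ZMod p) = p := ZMod.card p
  refine add_le_add ?_ ?_
  · have h3 : ∀ v ∈ S.filter (fun v => ¬ nd v), ‖Z v‖ ≤ (p : ℝ) := by
      intro v _
      have := ZZ_trivial χ (fun i => v.1 i + v.2 i) (fun i => rot v.1 i + v.2 i)
      rwa [hcard] at this
    refine (sum_le_sum h3).trans ?_
    rw [sum_const, nsmul_eq_mul]
    have h4 := hCP p k N hk hN P Q hP hQ (S.filter (fun v => ¬ nd v)) (by
      intro v hv
      rw [mem_filter, hS, mem_product, Fintype.mem_piFinset, Fintype.mem_piFinset] at hv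
      exact ⟨hv.1.1, hv.1.2, hv.2⟩)
    have h5 : ((S.filter (fun v => ¬ nd v)).card : ℝ) ≤ (2 * k : ℝ) ^ (2 * k) * (N : ℝ) ^ (k + 1) := by
      exact_mod_cast h4
    have h6 : (0 : ℝ) ≤ p := by positivity
    calc ((S.filter (fun v => ¬ nd v)).card : ℝ) * p ≤ ((2 * k : ℝ) ^ (2 * k) * (N : ℝ) ^ (k + 1)) * p :=
          mul_le_mul_of_nonneg_right h5 h6
      _ = _ := by ring
  · have h3 : ∀ v ∈ S.filter nd, ‖Z v‖ ≤ 2 * k * √(p : ℝ) := by
      intro v hv
      have := ZZ_bound χ hχ (fun i => v.1 i + v.2 i) (fun i => rot v.1 i + v.2 i) (mem_filter.mp hv).2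
      rwa [hcard] at this
    refine (sum_le_sum h3).trans ?_
    rw [sum_const, nsmul_eq_mul]
    have h4 : (S.filter nd).card ≤ N ^ (2 * k) := by
      refine (card_filter_le _ _).trans ?_
      rw [hS, card_product, Fintype.card_piFinset, Fintype.card_piFinset]
      simp only [prod_const, card_univ, Fintype.card_fin]
      rw [two_mul, pow_add]
      exact Nat.mul_le_mul (Nat.pow_le_pow_left hP k) (Nat.pow_le_pow_left hQ k)
    have h5 : ((S.filter nd).card : ℝ) ≤ (N : ℝ) ^ (2 * k) := by exact_mod_cast h4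
    calc ((S.filter nd).card : ℝ) * (2 * k * √(p : ℝ)) ≤ (N : ℝ) ^ (2 * k) * (2 * k * √(p : ℝ)) :=
          mul_le_mul_of_nonneg_right h5 (by positivity)
      _ = _ := by ring

end Pool.Agent.ASU
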