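import Pool.Agent.helper73.ASU.FIN
import Pool.Agent.helper73.ASU.AF
import Pool.Agent.helper73.ASU.BF
import Pool.Agent.helper73.ASU.CF
import Pool.Agent.helper73.ASU.CP
import Pool.Agent.helper73.ASU.CS1
import Pool.Agent.helper95.ASU.TR
import Pool.Agent.helper76.ASU.SQA
import Pool.Agent.helper43.ASU.SQ1
import Pool.Agent.helper2.ASU.SQ2
import Pool.Agent.helper43.ASU.SQ3
import Pool.Agent.helper90.ASU.SQ4
import Pool.Agent.helper95.ASU.PVA8
import Pool.Agent.helper76.ASU.PVB8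
import Pool.Agent.helper27.ASU.PVD
import Pool.Agent.helper76.ASU.AS1
import Pool.Agent.helper69.ASU.AE
import Pool.Agent.helper26.ASU.BS1
import Pool.Agent.helper16.ASU.MOB
import Pool.Agent.helper8.AP.PVA
import Pool.Agent.helper92.AP.PVB
import Pool.Agent.helper82.AP.PVC

set_option autoImplicit false

/-! # ASU: assembly -/

namespace Pool.Agent.ASU

open Finset

/-- Pólya-Vinogradov in classes modulo 8 -/
theorem pv8 : PV8_stmt := by
  intro d g hd hsq hd2 hg hg8 a Z₁ Z₂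
  have hd8 : Nat.Coprime d 8 := by
    have h : Nat.Coprime d (2 ^ 3) := Nat.Coprime.pow_right 3 (Nat.coprime_two_right.mpr hd)
    simpa using h
  have := Pool.Agent.AP.PVC Pool.Agent.AP.PVA Pool.Agent.AP.PVB d 8 g 1 hd hsq hd2 (by norm_num) hg le_rfl hd8 hg8 a Z₁ Z₂
  simpa only [one_mul] using this

theorem p_SQ4 : SQ4_stmt := SQ4 (SQ3 SQA (SQ2 SQA (SQ1 SQA)))

theorem p_PVD : PVD_stmt := PVD (PVA8 pv8) PVB8

theorem p_AF : AF_stmt := AF (AE TR (AS1 p_SQ4 p_PVD))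

theorem p_BF : BF_stmt := BF TR (BS1 p_SQ4)

theorem p_CF : CF_stmt := CF TR (CS1 CP)

theorem p_main : ∀ k : ℕ, 2 ≤ k → ∀ ε : ℝ, 0 < ε → ∃ δ c C : ℝ, 0 < δ ∧ 0 < c ∧ 0 < C ∧
    PA k ε δ c C ∧ PB k ε δ c C ∧ PC k ε δ c C := FIN p_AF p_BF p_CF MOB

end Pool.Agent.ASU
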