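import Pool.Agent.helper73.ASU.Spec2
import Pool.Agent.helper73.ASU.BF

set_option autoImplicit false

namespace Pool.Agent.ASU

open Finset Pool.Agent.helper3.FT

theorem B1F_large (hTOE : TOE_stmt) {p : ℕ} [Fact p.Prime] {χ : DirichletCharacter ℂ p} {N M k : ℕ} (hk : 1 ≤ k)
    (hNM : N ≤ M) (hM : 1 ≤ M) {R θ : ℝ} (hR : 0 < R) (hθ : 0 < θ) (h : Bad (CM χ) (range N) (range N) k R θ) :
    ∃ j < 2 * M, θ ^ (2 * k) / 4 ^ k * R ≤ ‖GS χ M j‖ ^ (2 * k) := by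
  obtain ⟨A, hA, B, hB, w, hw, hRt, hbb⟩ := h
  have hsub : range N ⊆ range M := range_subset_range.mpr hNM
  obtain ⟨j, hj, hle⟩ := hTOE p χ M hM A (hA.trans hsub) B (hB.trans hsub) w hw
  refine ⟨j, hj, ?_⟩
  set t : ℝ := (A.card : ℝ) * B.card with ht
  have ht0 : 0 ≤ t := by positivity
  have htk : 0 < t ^ k := lt_of_lt_of_le hR hRt
  have htpos : 0 < t := by
    rcases ht0.lt_or_eq with h | h
    · exact h
    · rw [← h, zero_pow (by omega)] at htk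
      exact absurd htk (lt_irrefl _)
  have hst : 0 < √t := Real.sqrt_pos.mpr htpos
  have h1 : θ * √t ≤ 2 * ‖GS χ M j‖ := by
    have h2 : (θ * √t) * √t ≤ (2 * ‖GS χ M j‖) * √t := by
      calc (θ * √t) * √t = θ * t := by rw [mul_assoc, Real.mul_self_sqrt ht0]
        _ ≤ BB (CM χ) A B w := hbb.le
        _ ≤ 2 * √t * ‖GS χ M j‖ := hle
        _ = (2 * ‖GS χ M j‖) * √t := by ring
    exact le_of_mul_le_mul_right h2 hst
  have h2 : (θ * √t) ^ (2 * k) ≤ (2 * ‖GS χ M j‖) ^ (2 * k) := pow_le_pow_left₀ (by positivity) h1 _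
  have h3 : (θ * √t) ^ (2 * k) = θ ^ (2 * k) * t ^ k := by
    rw [mul_pow, pow_mul (√t), Real.sq_sqrt ht0]
  have h4 : (2 * ‖GS χ M j‖) ^ (2 * k) = 4 ^ k * ‖GS χ M j‖ ^ (2 * k) := by
    rw [mul_pow, pow_mul (2 : ℝ)]; norm_num
  rw [h3, h4] at h2
  have h5 : θ ^ (2 * k) * R ≤ 4 ^ k * ‖GS χ M j‖ ^ (2 * k) :=
    (mul_le_mul_of_nonneg_left hRt (by positivity)).trans h2
  rw [div_mul_eq_mul_div, div_le_iff₀ (by positivity)]
  linarith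

theorem B1F_sum (hPOW : POW_stmt) (hLSP : LSP_stmt) (k : ℕ) (hk : 1 ≤ k) (ε : ℝ) (hε : 0 < ε) : ∃ C : ℝ, 0 < C ∧
    ∀ (p : ℕ) [Fact p.Prime] (M : ℕ), 1 ≤ M → ∑ χ : DirichletCharacter ℂ p, ∑ j ∈ range (2 * M), ‖GS χ M j‖ ^ (2 * k) ≤
      C * (((p : ℝ) * (M : ℝ) ^ (k + 1) + (M : ℝ) ^ (2 * k + 1)) * (M : ℝ) ^ ε) := by
  obtain ⟨C, hC, h⟩ := hPOW k hk (ε / 2) (by positivity)
  refine ⟨2 * C ^ 2, by positivity, ?_⟩
  intro p _ M hM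
  have hM0 : (0 : ℝ) < M := by exact_mod_cast hM
  rw [sum_comm]
  have h1 : ∀ j ∈ range (2 * M), ∑ χ : DirichletCharacter ℂ p, ‖GS χ M j‖ ^ (2 * k) ≤
      ((p : ℝ) + (M : ℝ) ^ k) * ((M : ℝ) ^ k * (C ^ 2 * (M : ℝ) ^ ε)) := by
    intro j _
    obtain ⟨c, hc, hpow⟩ := h M j hM
    have h2 := hLSP p (M ^ k) c
    have h3 : ∀ χ : DirichletCharacter ℂ p, ‖GS χ M j‖ ^ (2 * k) = ‖∑ m ∈ Icc 1 (M ^ k), c m * χ (m : ZMod p)‖ ^ 2 := by
      intro χ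
      rw [← hpow p χ, norm_pow, ← pow_mul, mul_comm 2 k]
    have h4 : ∑ m ∈ Icc 1 (M ^ k), ‖c m‖ ^ 2 ≤ (M : ℝ) ^ k * (C ^ 2 * (M : ℝ) ^ ε) := by
      have h5 : ∀ m ∈ Icc 1 (M ^ k), ‖c m‖ ^ 2 ≤ C ^ 2 * (M : ℝ) ^ ε := by
        intro m hm
        calc ‖c m‖ ^ 2 ≤ (C * (M : ℝ) ^ (ε / 2)) ^ 2 := pow_le_pow_left₀ (norm_nonneg _) (hc m hm) 2
          _ = C ^ 2 * (M : ℝ) ^ ε := by
            rw [mul_pow, ← Real.rpow_natCast ((M : ℝ) ^ (ε / 2)), ← Real.rpow_mul hM0.le]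
            congr 2
            push_cast
            ring
      refine (sum_le_sum h5).trans ?_
      rw [sum_const, Nat.card_Icc, nsmul_eq_mul, Nat.add_sub_cancel]
      push_cast
      exact le_rfl
    calc ∑ χ : DirichletCharacter ℂ p, ‖GS χ M j‖ ^ (2 * k)
        = ∑ χ : DirichletCharacter ℂ p, ‖∑ m ∈ Icc 1 (M ^ k), c m * χ (m : ZMod p)‖ ^ 2 :=
          sum_congr rfl fun χ _ => h3 χ
      _ ≤ ((p : ℝ) + ((M ^ k : ℕ) : ℝ)) * ∑ m ∈ Icc 1 (M ^ k), ‖c m‖ ^ 2 := h2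
      _ ≤ ((p : ℝ) + ((M ^ k : ℕ) : ℝ)) * ((M : ℝ) ^ k * (C ^ 2 * (M : ℝ) ^ ε)) :=
          mul_le_mul_of_nonneg_left h4 (by positivity)
      _ = _ := by push_cast; ring
  refine (sum_le_sum h1).trans ?_
  rw [sum_const, card_range, nsmul_eq_mul]
  push_cast
  refine le_of_eq ?_
  ring

theorem B1F (hTOE : TOE_stmt) (hPOW : POW_stmt) (hLSP : LSP_stmt) : B1F_stmt := by
  classical
  intro k hk ε hε
  obtain ⟨C₀, hC₀, h₀⟩ := B1F_sum hPOW hLSP k hk (ε / 4) (by positivity)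
  obtain ⟨C₁, hC₁, h₁⟩ := BF_log (ε / 4) (by positivity)
  have hk0 : (0 : ℝ) < k := by exact_mod_cast hk
  set K : ℝ := 4 ^ k * 2 ^ (2 * k + 1) with hK
  have hK0 : 0 < K := by positivity
  refine ⟨ε / (8 * k), ε / 4, C₁ * 2 ^ (ε / 4) * (C₀ * K * 2 ^ (ε / 4)), by positivity, by positivity, by positivity, ?_⟩
  intro p _ E hE
  have hp : p.Prime := Fact.out
  have hp0 : (0 : ℝ) < p := by exact_mod_cast hp.pos
  have hp1 : (1 : ℝ) ≤ p := by exact_mod_cast hp.one_lt.le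
  choose! N hNp hbad using hE
  have hN1 : ∀ χ ∈ E, 1 ≤ N χ := by
    intro χ hχ
    by_contra hcon
    have h0 : N χ = 0 := by omega
    have := hbad χ hχ
    rw [h0] at this
    exact CF_empty range_zero this
  set j : DirichletCharacter ℂ p → ℕ := fun χ => Nat.clog 2 (N χ) with hj
  have hM : ∀ χ ∈ E, 2 ^ j χ ≤ 2 * p := by
    intro χ hχ
    have h3 : 2 ^ j χ < 2 * N χ := (BF_clog (hN1 χ hχ)).2
    have h4 := hNp χ hχ
    omega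
  have hjJ : ∀ χ ∈ E, j χ ≤ Nat.log 2 (2 * p) := fun χ hχ => Nat.le_log_of_pow_le (by norm_num) (hM χ hχ)
  have hsc := BF_scale E j (Nat.log 2 (2 * p)) (C₀ * K * 2 ^ (ε / 4) * (p : ℝ) ^ (1 - ε / 2)) hjJ ?_
  · refine hsc.trans ?_
    have h2 := h₁ (2 * p) (by have := hp.pos; omega)
    have h4 : (((2 * p : ℕ) : ℕ) : ℝ) ^ (ε / 4) = 2 ^ (ε / 4) * (p : ℝ) ^ (ε / 4) := by
      push_cast
      rw [Real.mul_rpow (by norm_num) hp0.le]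
    rw [h4] at h2
    have h3 : (p : ℝ) ^ (1 - ε / 4) = (p : ℝ) ^ (ε / 4) * (p : ℝ) ^ (1 - ε / 2) := by
      rw [← Real.rpow_add hp0]; congr 1; ring
    calc (((Nat.log 2 (2 * p) : ℕ) : ℝ) + 1) * (C₀ * K * 2 ^ (ε / 4) * (p : ℝ) ^ (1 - ε / 2))
        ≤ (C₁ * (2 ^ (ε / 4) * (p : ℝ) ^ (ε / 4))) * (C₀ * K * 2 ^ (ε / 4) * (p : ℝ) ^ (1 - ε / 2)) :=
          mul_le_mul_of_nonneg_right h2 (by positivity)
      _ = C₁ * 2 ^ (ε / 4) * (C₀ * K * 2 ^ (ε / 4)) * (p : ℝ) ^ (1 - ε / 4) := by rw [h3]; ring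
  intro i _
  rcases (E.filter (fun χ => j χ = i)).eq_empty_or_nonempty with hem | ⟨χ₁, hχ₁⟩
  · rw [hem]
    simp only [card_empty, Nat.cast_zero]
    positivity
  obtain ⟨hχE, hχi⟩ := mem_filter.mp hχ₁
  set M : ℕ := 2 ^ i with hMdef
  have hM1 : 1 ≤ M := Nat.one_le_two_pow
  have hM0 : (0 : ℝ) < M := by exact_mod_cast hM1
  have hMp : M ≤ 2 * p := by
    have := hM χ₁ hχE
    rwa [hχi] at this
  have hsum := h₀ p M hM1
  set θ : ℝ := (p : ℝ) ^ (-(ε / (8 * k))) with hθ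
  have hθ0 : 0 < θ := by positivity
  set G : ℝ := (M : ℝ) ^ (k + 1) + (M : ℝ) ^ (2 * k + 1) / p with hG
  have hG0 : 0 < G := by positivity
  set R : ℝ := (p : ℝ) ^ ε * (G / 2 ^ (2 * k + 1)) with hR
  have hR0 : 0 < R := by positivity
  have hlow : ((E.filter (fun χ => j χ = i)).card : ℝ) * (θ ^ (2 * k) / 4 ^ k * R) ≤
      ∑ χ : DirichletCharacter ℂ p, ∑ j ∈ range (2 * M), ‖GS χ M j‖ ^ (2 * k) := by
    rw [← nsmul_eq_mul, ← sum_const]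
    refine (sum_le_sum fun χ hχ => ?_).trans
      (sum_le_sum_of_subset_of_nonneg (subset_univ _) (fun χ _ _ => sum_nonneg fun _ _ => by positivity))
    obtain ⟨hχE', hχi'⟩ := mem_filter.mp hχ
    obtain ⟨hc1, hc2⟩ := BF_clog (hN1 χ hχE')
    have hc1' : N χ ≤ M := by rw [hMdef, ← hχi']; exact hc1
    have hc2' : M < 2 * N χ := by rw [hMdef, ← hχi']; exact hc2
    have hRle : R ≤ (p : ℝ) ^ ε * ((N χ : ℝ) ^ (k + 1) + (N χ : ℝ) ^ (2 * k + 1) / p) := by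
      rw [hR]
      apply mul_le_mul_of_nonneg_left _ (by positivity)
      rw [div_le_iff₀ (by positivity), hG]
      have h5 : (M : ℝ) ≤ 2 * N χ := by exact_mod_cast hc2'.le
      have h6 : (M : ℝ) ^ (k + 1) ≤ (N χ : ℝ) ^ (k + 1) * 2 ^ (2 * k + 1) := by
        calc (M : ℝ) ^ (k + 1) ≤ (2 * (N χ : ℝ)) ^ (k + 1) := pow_le_pow_left₀ hM0.le h5 _
          _ = (N χ : ℝ) ^ (k + 1) * 2 ^ (k + 1) := by rw [mul_pow]; ring
          _ ≤ (N χ : ℝ) ^ (k + 1) * 2 ^ (2 * k + 1) :=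
            mul_le_mul_of_nonneg_left (pow_le_pow_right₀ (by norm_num) (by omega)) (by positivity)
      have h7 : (M : ℝ) ^ (2 * k + 1) / p ≤ (N χ : ℝ) ^ (2 * k + 1) / p * 2 ^ (2 * k + 1) := by
        rw [div_mul_eq_mul_div]
        apply div_le_div_of_nonneg_right _ hp0.le
        calc (M : ℝ) ^ (2 * k + 1) ≤ (2 * (N χ : ℝ)) ^ (2 * k + 1) := pow_le_pow_left₀ hM0.le h5 _
          _ = (N χ : ℝ) ^ (2 * k + 1) * 2 ^ (2 * k + 1) := by rw [mul_pow]; ring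
      linarith
    obtain ⟨j', hj', hle⟩ := B1F_large hTOE hk hc1' hM1 hR0 hθ0
      (BF_mono (hbad χ hχE') (Subset.refl _) (Subset.refl _) hRle le_rfl)
    refine hle.trans ?_
    exact single_le_sum (f := fun j => ‖GS χ M j‖ ^ (2 * k)) (fun _ _ => by positivity) (mem_range.mpr hj')
  have h5 : θ ^ (2 * k) = (p : ℝ) ^ (-(ε / 4)) := by
    rw [hθ, ← Real.rpow_natCast, ← Real.rpow_mul hp0.le]
    congr 1
    push_cast
    field_simp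
    ring
  have h7 : (M : ℝ) ^ (ε / 4) ≤ 2 ^ (ε / 4) * (p : ℝ) ^ (ε / 4) := by
    rw [← Real.mul_rpow (by norm_num) hp0.le]
    exact Real.rpow_le_rpow hM0.le (by exact_mod_cast hMp) (by positivity)
  have h8 := hlow.trans hsum
  rw [h5] at h8
  have e1 : (p : ℝ) * (M : ℝ) ^ (k + 1) + (M : ℝ) ^ (2 * k + 1) = p * G := by
    rw [hG]; field_simp
  rw [e1, hR] at h8
  have h9 : ((E.filter (fun χ => j χ = i)).card : ℝ) * ((p : ℝ) ^ (-(ε / 4)) * (p : ℝ) ^ ε) ≤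
      C₀ * K * 2 ^ (ε / 4) * (p * (p : ℝ) ^ (ε / 4)) := by
    have hpos : (0 : ℝ) < G / K := by positivity
    refine le_of_mul_le_mul_right ?_ hpos
    calc ((E.filter (fun χ => j χ = i)).card : ℝ) * ((p : ℝ) ^ (-(ε / 4)) * (p : ℝ) ^ ε) * (G / K)
        = ((E.filter (fun χ => j χ = i)).card : ℝ) * ((p : ℝ) ^ (-(ε / 4)) / 4 ^ k *
            ((p : ℝ) ^ ε * (G / 2 ^ (2 * k + 1)))) := by rw [hK]; field_simp
      _ ≤ C₀ * ((p * G) * (M : ℝ) ^ (ε / 4)) := h8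
      _ ≤ C₀ * ((p * G) * (2 ^ (ε / 4) * (p : ℝ) ^ (ε / 4))) := by gcongr
      _ = C₀ * K * 2 ^ (ε / 4) * (p * (p : ℝ) ^ (ε / 4)) * (G / K) := by field_simp
  have h10 : (p : ℝ) ^ (-(ε / 4)) * (p : ℝ) ^ ε = (p : ℝ) ^ (3 * ε / 4) := by
    rw [← Real.rpow_add hp0]; congr 1; ring
  have h11 : (p : ℝ) * (p : ℝ) ^ (ε / 4) = (p : ℝ) ^ (1 - ε / 2) * (p : ℝ) ^ (3 * ε / 4) := by
    rw [← Real.rpow_add hp0]
    nth_rw 1 [← Real.rpow_one (p : ℝ)]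
    rw [← Real.rpow_add hp0]
    congr 1; ring
  rw [h10, h11, ← mul_assoc] at h9
  exact le_of_mul_le_mul_right h9 (by positivity)

end Pool.Agent.ASU
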