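import Pool.Agent.helper73.ASU.Spec

set_option autoImplicit false

/-! # ASU: final form -/

namespace Pool.Agent.ASU

open Finset

/-- part (a) for fixed parameters -/
def PA (k : ℕ) (ε δ c C : ℝ) : Prop :=
  ∀ X : ℕ, 1 ≤ X → ∃ E : Finset ℕ, (E.card : ℝ) ≤ C * (X : ℝ) ^ (1 - c) ∧
    ∀ (p : ℕ) [Fact p.Prime], p ≤ X → p ∉ E → ∀ N : ℕ, N ≤ p → ∀ (A B : Finset ℕ) (a b c d : ZMod p),
      A ⊆ range N → B ⊆ range N → a * d - b * c ≠ 0 →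
      (∀ x ∈ A, c * (x : ZMod p) + d ≠ 0) → (∀ y ∈ B, c * (y : ZMod p) + d ≠ 0) →
      (p : ℝ) ^ ε * ((N : ℝ) ^ (k + 1) + (N : ℝ) ^ (3 * k) / p) ≤ ((A.card : ℝ) * B.card) ^ k →
      ∀ w : ℕ → ℂ, (∀ y, ‖w y‖ ≤ 1) →
        ∑ x ∈ A, ‖∑ y ∈ B, w y * ((quadraticChar (ZMod p) ((a * (x : ZMod p) + b) / (c * (x : ZMod p) + d) -
          (a * (y : ZMod p) + b) / (c * (y : ZMod p) + d)) : ℤ) : ℂ)‖ ≤ (p : ℝ) ^ (-δ) * (A.card * B.card)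

/-- part (b) for fixed parameters -/
def PB (k : ℕ) (ε δ c C : ℝ) : Prop :=
  ∀ (p : ℕ) [Fact p.Prime], ∃ E : Finset (MulChar (ZMod p) ℂ), (E.card : ℝ) ≤ C * (p : ℝ) ^ (1 - c) ∧
    ∀ χ : MulChar (ZMod p) ℂ, χ ∉ E → ∀ N : ℕ, (3 * N) ^ k ≤ p → ∀ (A B : Finset ℕ) (a b c d : ZMod p),
      A ⊆ range N → B ⊆ range N → a * d - b * c ≠ 0 →
      (∀ x ∈ A, c * (x : ZMod p) + d ≠ 0) → (∀ y ∈ B, c * (y : ZMod p) + d ≠ 0) →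
      (p : ℝ) ^ ε * (N : ℝ) ^ (k + 1) ≤ ((A.card : ℝ) * B.card) ^ k →
      ∀ w : ℕ → ℂ, (∀ y, ‖w y‖ ≤ 1) →
        ∑ x ∈ A, ‖∑ y ∈ B, w y * χ ((a * (x : ZMod p) + b) / (c * (x : ZMod p) + d) -
          (a * (y : ZMod p) + b) / (c * (y : ZMod p) + d))‖ ≤ (p : ℝ) ^ (-δ) * (A.card * B.card)

/-- part (c) for fixed parameters -/
def PC (k : ℕ) (ε δ c C : ℝ) : Prop :=
  ∀ (p : ℕ) [Fact p.Prime] (χ : MulChar (ZMod p) ℂ), χ ≠ 1 → ∀ (N : ℕ) (P Q : Finset (ZMod p)),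
    P.card ≤ N → Q.card ≤ N → ∃ E : Finset (ZMod p), (E.card : ℝ) ≤ C * (p : ℝ) ^ (1 - c) ∧
    ∀ x : ZMod p, x ∉ E → ∀ A ⊆ P, ∀ B ⊆ Q,
      (p : ℝ) ^ ε * ((N : ℝ) ^ (k + 1) + (N : ℝ) ^ (2 * k) / √(p : ℝ)) ≤ ((A.card : ℝ) * B.card) ^ k →
      ∀ w : ZMod p → ℂ, (∀ y, ‖w y‖ ≤ 1) →
        ∑ a ∈ A, ‖∑ b ∈ B, w b * χ (x + a + b)‖ ≤ (p : ℝ) ^ (-δ) * (A.card * B.card)

theorem FIN_A (hAF : AF_stmt) (hMOB : MOB_stmt) (k : ℕ) (hk : 1 ≤ k) (ε : ℝ) (hε : 0 < ε) :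
    ∃ δ c C : ℝ, 0 < δ ∧ 0 < c ∧ 0 < C ∧ PA k ε δ c C := by
  classical
  obtain ⟨δ, c, C, hδ, hc, hC, h⟩ := hAF k hk ε hε
  refine ⟨δ, min c 1, C + 1, hδ, lt_min hc one_pos, by linarith, fun X hX => ?_⟩
  set E₀ : Finset ℕ := (range (X + 1)).filter (fun p => p.Prime ∧ p ≠ 2 ∧ p ≤ X ∧ ∃ N : ℕ, N ≤ p ∧
    Bad (JM p) (range N) (range N) k ((p : ℝ) ^ ε * ((N : ℝ) ^ (k + 1) + (N : ℝ) ^ (3 * k) / p)) ((p : ℝ) ^ (-δ))) with hE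
  have h1 := h X hX E₀ (fun p hp => (mem_filter.mp hp).2)
  have hX1 : (1 : ℝ) ≤ X := by exact_mod_cast hX
  refine ⟨insert 2 E₀, ?_, ?_⟩
  · have h2 : ((insert 2 E₀).card : ℝ) ≤ E₀.card + 1 := by exact_mod_cast card_insert_le _ _
    have h3 : (1 : ℝ) ≤ (X : ℝ) ^ (1 - min c 1) := Real.one_le_rpow hX1 (by linarith [min_le_right c 1])
    have h4 : (X : ℝ) ^ (1 - c) ≤ (X : ℝ) ^ (1 - min c 1) :=
      Real.rpow_le_rpow_of_exponent_le hX1 (by linarith [min_le_left c 1])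
    nlinarith
  · intro p _ hpX hpE N hN A B a b c' d hA hB hdet hcA hcB hR w hw
    rw [mem_insert, not_or] at hpE
    obtain ⟨hp2, hpE⟩ := hpE
    have hp : p.Prime := Fact.out
    set χ : MulChar (ZMod p) ℂ := (quadraticChar (ZMod p)).ringHomComp (Int.castRingHom ℂ) with hχ
    obtain ⟨w', hw', hbb⟩ := hMOB p χ A B a b c' d hdet hcA hcB w hw
    have e1 : ∑ x ∈ A, ‖∑ y ∈ B, w y * ((quadraticChar (ZMod p) ((a * (x : ZMod p) + b) / (c' * (x : ZMod p) + d) -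
          (a * (y : ZMod p) + b) / (c' * (y : ZMod p) + d)) : ℤ) : ℂ)‖ = BB (CM χ) A B w' := by
      rw [← hbb]; rfl
    have e2 : BB (CM χ) A B w' = BB (JM p) A B w' := by
      unfold BB
      refine sum_congr rfl fun x _ => ?_
      congr 1
      refine sum_congr rfl fun y _ => ?_
      congr 1
      unfold CM JM
      rw [hχ, MulChar.ringHomComp_apply, ← jacobiSym.legendreSym.to_jacobiSym]
      simp [legendreSym]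
    rw [e1, e2]
    by_contra hcon
    push Not at hcon
    apply hpE
    rw [hE, mem_filter, mem_range]
    exact ⟨by omega, hp, hp2, hpX, N, hN, A, hA, B, hB, w', hw', hR, hcon⟩

theorem FIN_B (hBF : BF_stmt) (hMOB : MOB_stmt) (k : ℕ) (hk : 2 ≤ k) (ε : ℝ) (hε : 0 < ε) :
    ∃ δ c C : ℝ, 0 < δ ∧ 0 < c ∧ 0 < C ∧ PB k ε δ c C := by
  classical
  obtain ⟨δ, c, C, hδ, hc, hC, h⟩ := hBF k hk ε hε
  refine ⟨δ, c, C, hδ, hc, hC, fun p _ => ?_⟩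
  set E₀ : Finset (DirichletCharacter ℂ p) := univ.filter (fun χ => ∃ N : ℕ, (3 * N) ^ k ≤ p ∧
    Bad (CM χ) (range N) (range N) k ((p : ℝ) ^ ε * (N : ℝ) ^ (k + 1)) ((p : ℝ) ^ (-δ))) with hE
  refine ⟨E₀, h p E₀ (fun χ hχ => (mem_filter.mp hχ).2), ?_⟩
  intro χ hχ N hN A B a b c' d hA hB hdet hcA hcB hR w hw
  obtain ⟨w', hw', hbb⟩ := hMOB p χ A B a b c' d hdet hcA hcB w hw
  rw [hbb]
  by_contra hcon
  push Not at hcon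
  apply hχ
  rw [hE, mem_filter]
  exact ⟨mem_univ _, N, hN, A, hA, B, hB, w', hw', hR, hcon⟩

theorem FIN_C (hCF : CF_stmt) (k : ℕ) (hk : 1 ≤ k) (ε : ℝ) (hε : 0 < ε) :
    ∃ δ c C : ℝ, 0 < δ ∧ 0 < c ∧ 0 < C ∧ PC k ε δ c C := by
  classical
  obtain ⟨δ, c, C, hδ, hc, hC, h⟩ := hCF k hk ε hε
  refine ⟨δ, c, C, hδ, hc, hC, fun p _ χ hχ N P Q hP hQ => ?_⟩
  set E₀ : Finset (ZMod p) := univ.filter (fun x => Bad (XM χ x) P Q k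
    ((p : ℝ) ^ ε * ((N : ℝ) ^ (k + 1) + (N : ℝ) ^ (2 * k) / √(p : ℝ))) ((p : ℝ) ^ (-δ))) with hE
  refine ⟨E₀, h p χ hχ N P Q hP hQ E₀ (fun x hx => (mem_filter.mp hx).2), ?_⟩
  intro x hx A hA B hB hR w hw
  by_contra hcon
  push Not at hcon
  apply hx
  rw [hE, mem_filter]
  exact ⟨mem_univ _, A, hA, B, hB, w, hw, hR, hcon⟩

/-- parameters can be weakened: `PA` -/
theorem FIN_monoA {k : ℕ} {ε δ c C δ' c' C' : ℝ} (hC : 0 ≤ C') (h : PA k ε δ c C) (hδ : δ' ≤ δ) (hc : c' ≤ c) (hCC : C ≤ C') :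
    PA k ε δ' c' C' := by
  intro X hX
  obtain ⟨E, hE, h2⟩ := h X hX
  have hX1 : (1 : ℝ) ≤ X := by exact_mod_cast hX
  refine ⟨E, hE.trans ?_, ?_⟩
  · have h4 : (X : ℝ) ^ (1 - c) ≤ (X : ℝ) ^ (1 - c') := Real.rpow_le_rpow_of_exponent_le hX1 (by linarith)
    have h5 : 0 ≤ (X : ℝ) ^ (1 - c) := by positivity
    nlinarith
  · intro p _ hpX hpE N hN A B a b c' d hA hB hdet hcA hcB hR w hw
    refine (h2 p hpX hpE N hN A B a b c' d hA hB hdet hcA hcB hR w hw).trans ?_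
    have hp1 : (1 : ℝ) ≤ p := by exact_mod_cast (Fact.out : p.Prime).one_lt.le
    exact mul_le_mul_of_nonneg_right (Real.rpow_le_rpow_of_exponent_le hp1 (by linarith)) (by positivity)

theorem FIN_monoB {k : ℕ} {ε δ c C δ' c' C' : ℝ} (hC : 0 ≤ C') (h : PB k ε δ c C) (hδ : δ' ≤ δ) (hc : c' ≤ c) (hCC : C ≤ C') :
    PB k ε δ' c' C' := by
  intro p _
  obtain ⟨E, hE, h2⟩ := h p
  have hp1 : (1 : ℝ) ≤ p := by exact_mod_cast (Fact.out : p.Prime).one_lt.le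
  refine ⟨E, hE.trans ?_, ?_⟩
  · have h4 : (p : ℝ) ^ (1 - c) ≤ (p : ℝ) ^ (1 - c') := Real.rpow_le_rpow_of_exponent_le hp1 (by linarith)
    have h5 : 0 ≤ (p : ℝ) ^ (1 - c) := by positivity
    nlinarith
  · intro χ hχ N hN A B a b c' d hA hB hdet hcA hcB hR w hw
    refine (h2 χ hχ N hN A B a b c' d hA hB hdet hcA hcB hR w hw).trans ?_
    exact mul_le_mul_of_nonneg_right (Real.rpow_le_rpow_of_exponent_le hp1 (by linarith)) (by positivity)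

theorem FIN_monoC {k : ℕ} {ε δ c C δ' c' C' : ℝ} (hC : 0 ≤ C') (h : PC k ε δ c C) (hδ : δ' ≤ δ) (hc : c' ≤ c) (hCC : C ≤ C') :
    PC k ε δ' c' C' := by
  intro p _ χ hχ N P Q hP hQ
  obtain ⟨E, hE, h2⟩ := h p χ hχ N P Q hP hQ
  have hp1 : (1 : ℝ) ≤ p := by exact_mod_cast (Fact.out : p.Prime).one_lt.le
  refine ⟨E, hE.trans ?_, ?_⟩
  · have h4 : (p : ℝ) ^ (1 - c) ≤ (p : ℝ) ^ (1 - c') := Real.rpow_le_rpow_of_exponent_le hp1 (by linarith)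
    have h5 : 0 ≤ (p : ℝ) ^ (1 - c) := by positivity
    nlinarith
  · intro x hx A hA B hB hR w hw
    refine (h2 x hx A hA B hB hR w hw).trans ?_
    exact mul_le_mul_of_nonneg_right (Real.rpow_le_rpow_of_exponent_le hp1 (by linarith)) (by positivity)

/-- the conjunction -/
theorem FIN (hAF : AF_stmt) (hBF : BF_stmt) (hCF : CF_stmt) (hMOB : MOB_stmt) :
    ∀ k : ℕ, 2 ≤ k → ∀ ε : ℝ, 0 < ε → ∃ δ c C : ℝ, 0 < δ ∧ 0 < c ∧ 0 < C ∧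
      PA k ε δ c C ∧ PB k ε δ c C ∧ PC k ε δ c C := by
  intro k hk ε hε
  obtain ⟨δ₁, c₁, C₁, hδ₁, hc₁, hC₁, h₁⟩ := FIN_A hAF hMOB k (by omega) ε hε
  obtain ⟨δ₂, c₂, C₂, hδ₂, hc₂, hC₂, h₂⟩ := FIN_B hBF hMOB k hk ε hε
  obtain ⟨δ₃, c₃, C₃, hδ₃, hc₃, hC₃, h₃⟩ := FIN_C hCF k (by omega) ε hε
  refine ⟨min δ₁ (min δ₂ δ₃), min c₁ (min c₂ c₃), C₁ + C₂ + C₃, lt_min hδ₁ (lt_min hδ₂ hδ₃), lt_min hc₁ (lt_min hc₂ hc₃),
    by linarith, ?_, ?_, ?_⟩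
  · exact FIN_monoA (by linarith) h₁ (min_le_left _ _) (min_le_left _ _) (by linarith)
  · exact FIN_monoB (by linarith) h₂ ((min_le_right _ _).trans (min_le_left _ _))
      ((min_le_right _ _).trans (min_le_left _ _)) (by linarith)
  · exact FIN_monoC (by linarith) h₃ ((min_le_right _ _).trans (min_le_right _ _))
      ((min_le_right _ _).trans (min_le_right _ _)) (by linarith)

end Pool.Agent.ASU
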