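import Pool.Agent.helper73.ASU.A1F
import Pool.Agent.helper73.ASU.AF

set_option autoImplicit false

/-! # ASU: exceptional sets of size `X^σ` -/

namespace Pool.Agent.ASU

open Finset Pool.Agent.helper3.FT

/-- two dyadic decompositions -/
theorem Sig_dyadic (P : ℕ → ℕ → Prop) (σ s C : ℝ) (hs : 0 ≤ s) (hsσ : s < σ) (hC : 0 < C)
    (h : ∀ Y M : ℕ, 1 ≤ Y → 1 ≤ M → M ≤ 2 * Y → ∀ E : Finset ℕ, (∀ p ∈ E, p.Prime ∧ p ≤ Y ∧ Y < 2 * p ∧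
      ∃ N : ℕ, N ≤ M ∧ M < 2 * N ∧ P p N) → (E.card : ℝ) ≤ C * (Y : ℝ) ^ s) :
    ∃ C' : ℝ, 0 < C' ∧ ∀ X : ℕ, 1 ≤ X → ∀ E : Finset ℕ, (∀ p ∈ E, p.Prime ∧ p ≤ X ∧ ∃ N : ℕ, 1 ≤ N ∧ N ≤ p ∧ P p N) →
      (E.card : ℝ) ≤ C' * (X : ℝ) ^ σ := by
  classical
  set η : ℝ := (σ - s) / 2 with hη
  have hη0 : 0 < η := by rw [hη]; linarith
  obtain ⟨C₁, hC₁, h₁⟩ := BF_log η hη0
  refine ⟨(C₁ * 4 ^ η) ^ 2 * (C * 2 ^ s), by positivity, ?_⟩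
  intro X hX E hE
  have hX0 : (0 : ℝ) < X := by exact_mod_cast hX
  have hX1 : (1 : ℝ) ≤ X := by exact_mod_cast hX
  have hlog : ∀ Z : ℕ, 1 ≤ Z → Z ≤ 4 * X → ((Nat.log 2 Z : ℕ) : ℝ) + 1 ≤ C₁ * 4 ^ η * (X : ℝ) ^ η := by
    intro Z hZ hZX
    refine (h₁ Z hZ).trans ?_
    have h2 : (Z : ℝ) ^ η ≤ 4 ^ η * (X : ℝ) ^ η := by
      rw [← Real.mul_rpow (by norm_num) hX0.le]
      exact Real.rpow_le_rpow (by positivity) (by exact_mod_cast hZX) hη0.le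
    calc C₁ * (Z : ℝ) ^ η ≤ C₁ * (4 ^ η * (X : ℝ) ^ η) := mul_le_mul_of_nonneg_left h2 hC₁.le
      _ = _ := by ring
  set i : ℕ → ℕ := fun p => Nat.clog 2 p with hi
  have hiX : ∀ p ∈ E, 2 ^ i p ≤ 2 * X := by
    intro p hp
    have h3 : 2 ^ i p < 2 * p := (BF_clog (hE p hp).1.one_lt.le).2
    have h4 := (hE p hp).2.1
    omega
  have hiJ : ∀ p ∈ E, i p ≤ Nat.log 2 (2 * X) := fun p hp => Nat.le_log_of_pow_le (by norm_num) (hiX p hp)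
  have hsc := BF_scale E i (Nat.log 2 (2 * X)) (C₁ * 4 ^ η * (X : ℝ) ^ η * (C * 2 ^ s * (X : ℝ) ^ s)) hiJ ?_
  · refine hsc.trans ?_
    have h5 := hlog (2 * X) (by omega) (by omega)
    have h6 : (X : ℝ) ^ σ = (X : ℝ) ^ η * (X : ℝ) ^ η * (X : ℝ) ^ s := by
      rw [← Real.rpow_add hX0, ← Real.rpow_add hX0]; congr 1; rw [hη]; ring
    calc (((Nat.log 2 (2 * X) : ℕ) : ℝ) + 1) * (C₁ * 4 ^ η * (X : ℝ) ^ η * (C * 2 ^ s * (X : ℝ) ^ s))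
        ≤ (C₁ * 4 ^ η * (X : ℝ) ^ η) * (C₁ * 4 ^ η * (X : ℝ) ^ η * (C * 2 ^ s * (X : ℝ) ^ s)) :=
          mul_le_mul_of_nonneg_right h5 (by positivity)
      _ = (C₁ * 4 ^ η) ^ 2 * (C * 2 ^ s) * (X : ℝ) ^ σ := by rw [h6]; ring
  intro a _
  set F := E.filter (fun p => i p = a) with hF
  rcases F.eq_empty_or_nonempty with hem | ⟨p₁, hp₁⟩
  · rw [hem]
    simp only [card_empty, Nat.cast_zero]
    positivity
  set Y : ℕ := 2 ^ a with hY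
  have hYX : Y ≤ 2 * X := by
    obtain ⟨hpE, hpi⟩ := mem_filter.mp hp₁
    have := hiX p₁ hpE
    rwa [hpi] at this
  have hY1 : 1 ≤ Y := Nat.one_le_two_pow
  have hY0 : (0 : ℝ) < Y := by exact_mod_cast hY1
  have hFE : ∀ p ∈ F, p.Prime ∧ p ≤ Y ∧ Y < 2 * p ∧ ∃ N : ℕ, 1 ≤ N ∧ N ≤ p ∧ P p N := by
    intro p hp
    obtain ⟨hpE, hpi⟩ := mem_filter.mp hp
    obtain ⟨b1, b2, b3⟩ := hE p hpE
    obtain ⟨c1, c2⟩ := BF_clog b1.one_lt.le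
    refine ⟨b1, ?_, ?_, b3⟩
    · rw [hY, ← hpi]; exact c1
    · rw [hY, ← hpi]; exact c2
  have hex : ∀ p ∈ F, ∃ N : ℕ, 1 ≤ N ∧ N ≤ p ∧ P p N := fun p hp => (hFE p hp).2.2.2
  choose! N hN1 hNp hPN using hex
  set j : ℕ → ℕ := fun p => Nat.clog 2 (N p) with hj
  have hM : ∀ p ∈ F, 2 ^ j p ≤ 2 * Y := by
    intro p hp
    have h3 : 2 ^ j p < 2 * N p := (BF_clog (hN1 p hp)).2
    have h4 := hNp p hp
    have h5 := (hFE p hp).2.1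
    omega
  have hjJ : ∀ p ∈ F, j p ≤ Nat.log 2 (2 * Y) := fun p hp => Nat.le_log_of_pow_le (by norm_num) (hM p hp)
  have hYs : C * (Y : ℝ) ^ s ≤ C * 2 ^ s * (X : ℝ) ^ s := by
    rw [mul_assoc, ← Real.mul_rpow (by norm_num) hX0.le]
    apply mul_le_mul_of_nonneg_left _ hC.le
    exact Real.rpow_le_rpow hY0.le (by exact_mod_cast hYX) hs
  have hsc2 := BF_scale F j (Nat.log 2 (2 * Y)) (C * (Y : ℝ) ^ s) hjJ ?_
  · refine hsc2.trans ?_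
    have h5 := hlog (2 * Y) (by omega) (by omega)
    calc (((Nat.log 2 (2 * Y) : ℕ) : ℝ) + 1) * (C * (Y : ℝ) ^ s)
        ≤ (C₁ * 4 ^ η * (X : ℝ) ^ η) * (C * 2 ^ s * (X : ℝ) ^ s) :=
          mul_le_mul h5 hYs (by positivity) (by positivity)
      _ = _ := by ring
  intro b _
  rcases (F.filter (fun p => j p = b)).eq_empty_or_nonempty with hem | ⟨p₂, hp₂⟩
  · rw [hem]
    simp only [card_empty, Nat.cast_zero]
    positivity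
  obtain ⟨hpF₂, hpi₂⟩ := mem_filter.mp hp₂
  have hMY : 2 ^ b ≤ 2 * Y := by
    have := hM p₂ hpF₂
    rwa [hpi₂] at this
  refine h Y (2 ^ b) hY1 Nat.one_le_two_pow hMY _ ?_
  intro p hp
  obtain ⟨hpF, hpi⟩ := mem_filter.mp hp
  obtain ⟨a1, a2, a3, _⟩ := hFE p hpF
  obtain ⟨hc1, hc2⟩ := BF_clog (hN1 p hpF)
  refine ⟨a1, a2, a3, N p, ?_, ?_, hPN p hpF⟩
  · rw [← hpi]; exact hc1
  · rw [← hpi]; exact hc2

end Pool.Agent.ASU
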