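import Mathlib
import Pool.Agent.helper82.Weil.M
import Pool.Agent.helper47.RA.Num

set_option autoImplicit false

/-!
# ASU (MP_f6e9a2_nt, Paley graph conjecture): ARBITRARY subsets of a progression, for almost all primes (helper73)

THE METHOD.  `T_k(m) = tr ((m m*)^k)` bounds every bilinear form `∑_{A × B}` with arbitrary sets and coefficients
(row TR).  The average of `T_k` of the matrices `(J(a - b|n))_{a, b < N}` over the odd `n ≤ X` is a sum over closed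
walks `v` of length `2 k` in `[0, N)` of `∑_n J(D(v)|n)`, `D(v)` the product of the `2 k` differences: the walks for
which `D(v)` is a perfect square are few (rows SQ*), for the others there is cancellation (rows PV*).

RULES.  Row `asu:XXX` is a file `Pool/Agent/<seat>/ASU/XXX.lean`: `import Pool.Agent.helper73.ASU.Spec`,
`set_option autoImplicit false`, `namespace Pool.Agent.ASU`, `open Finset`, and the theorem whose EXACT line is in the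
lock note (other rows only as hypotheses; an unused hypothesis may stay).  Auxiliary lemmas are prefixed `XXX_`.
No `convert`, `congr!`, `native_decide`, no double quotes, no strings, no `notation`.
Constants `C` depend on the variables quantified before them only.
-/

namespace Pool.Agent.ASU

open Finset

/-! ## Words, closed walks, the trace -/

/-- rotation of a cyclic word (`finRotate (K + 1) i = i + 1`: `finRotate_succ_apply`) -/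
def rot {k : ℕ} {α : Type*} (a : Fin k → α) : Fin k → α := fun i => a (finRotate k i)

/-- the words of length `k` over `V` -/
abbrev wd {α : Type*} (k : ℕ) (V : Finset α) : Finset (Fin k → α) := Fintype.piFinset (fun _ : Fin k => V)

/-- `tr ((m m*)^k)` as a sum over closed walks -/
noncomputable def TT {α β : Type} (m : α → β → ℂ) (V : Finset α) (W : Finset β) (k : ℕ) : ℂ :=
  ∑ a ∈ wd k V, ∑ b ∈ wd k W, ∏ i : Fin k, (m (a i) (b i) * (starRingEnd ℂ) (m (rot a i) (b i)))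

/-- the bilinear sum with arbitrary coefficients `w` -/
noncomputable def BB {α β : Type} (m : α → β → ℂ) (A : Finset α) (B : Finset β) (w : β → ℂ) : ℝ :=
  ∑ x ∈ A, ‖∑ y ∈ B, w y * m x y‖

/-- **TR** (medium).  The trace bounds all bilinear forms.
Proof.  `H(x, x') = ∑_{y ∈ W} m(x, y) conj m(x', y)`, `x, x' ∈ V`: a positive semidefinite hermitian matrix (`Matrix.posSemidef_self_mul_conjTranspose`, index type `↥V`).
(a) `TT m V W k = ∑_{a ∈ V^k} ∏_i H(a_i, a_{i+1}) = trace (H^k)` for `k ≥ 1`: first `Finset.prod_univ_sum` (the product over `i` of the sums over `y`), then expand the matrix power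
(induction on the number of steps: `(H^(j+1))(x, y) = ∑_{c : Fin j → V} ∏_{i : Fin (j+1)} H((Fin.cons x c) i, (Fin.snoc c y) i)`; `Fin.snoc_eq_cons_rotate`).
(b) `trace (H^k) = ∑_i λ_i^k`, `λ_i ≥ 0` the eigenvalues (spectral theorem), so `≥ 0` and `≥ λ_i^k` for each `i`.
(c) Let `u x` be the phases (`|u x| ≤ 1`) with `u x * ∑_y w y m(x,y) = |∑_y w y m(x, y)|` for `x ∈ A`, 0 outside `A`.  `BB = ∑_{y ∈ B} w y ∑_x u x m(x, y)`, Cauchy-Schwarz: `BB² ≤ |B| ∑_{y ∈ W} |∑_x u x m(x, y)|²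
= |B| ∑_{x, x'} u x conj(u x') H(x, x') ≤ |B| λ_max ∑ |u x|² ≤ |B| |A| λ_max`.  Take the `k`-th power. -/
def TR_stmt : Prop := ∀ (α β : Type) (m : α → β → ℂ) (V : Finset α) (W : Finset β) (k : ℕ), 1 ≤ k →
  0 ≤ (TT m V W k).re ∧ ∀ A ⊆ V, ∀ B ⊆ W, ∀ w : β → ℂ, (∀ y, ‖w y‖ ≤ 1) →
    BB m A B w ^ (2 * k) ≤ ((A.card : ℝ) * B.card) ^ k * (TT m V W k).re

/-! ## Closed walks with square product -/

/-- the squarefree part: the product of the primes with odd exponent (`sfp 0 = 1`) -/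
def sfp (n : ℕ) : ℕ := ∏ q ∈ n.primeFactors.filter (fun q => Odd (n.factorization q)), q

/-- distance of two integers -/
def dst (x y : ℕ) : ℕ := ((x : ℤ) - y).natAbs

/-- **SQA** (short to medium).  Squarefree parts.
Proof.  `n / sfp n` has even exponents, hence is a square.  If `∏ n_j ≠ 0` is a square, then for every prime `q` the number of `j` with odd `v_q(n_j)` is even; a prime `q ∣ sfp (n_j)` is one with `v_q(n_j)` odd, so some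
`i ≠ j` has `q ∣ sfp (n_i)`, `i < j` or `i > j`.  `sfp (n_j)` is squarefree, all its primes divide the product of the two gcds. -/
def SQA_stmt : Prop := (∀ n : ℕ, 1 ≤ sfp n ∧ Squarefree (sfp n) ∧ (1 ≤ n → ∃ u : ℕ, 1 ≤ u ∧ n = sfp n * u ^ 2)) ∧
  ∀ (L : ℕ) (n : Fin L → ℕ), ∏ j, n j ≠ 0 → IsSquare (∏ j, n j) → ∀ j : Fin L,
    sfp (n j) ∣ Nat.gcd (sfp (n j)) (∏ i ∈ Iio j, sfp (n i)) * Nat.gcd (sfp (n j)) (∏ i ∈ Ioi j, sfp (n i))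

/-- the weight of a step of length `n` after the product `m` -/
noncomputable def wf (n m : ℕ) : ℝ := if n = 0 then 0 else (Nat.gcd (sfp n) m : ℝ) / √(sfp n : ℝ)

/-- **SQ1** (medium; from SQA).  One step.
Proof.  Every `n ≥ 1` is `dst v w` for at most two `w < N`, and then `n < N`: the sum is at most `2 ∑_{1 ≤ n < N} gcd(A(n), m) A(n)^(-1/2)`, `A = sfp`.  `n = A u²`; `gcd(A, m) ≤ ∑_{d ∣ m, d ∣ A} d`.  The map `n ↦ (A, u)` is
injective, `A = d a`, `a ≤ N/(d u²)`, so this is `≤ 2 ∑_{d ∣ m} d ∑_{1 ≤ u < N} ∑_{1 ≤ a ≤ N/(d u²)} (d a)^(-1/2) ≤ 2 ∑_{d ∣ m} √d ∑_u 2 √(N/(d u²)) ≤ 4 √N τ(m) ∑_{u < N} 1/u`.  (`∑_{a ≤ x} a^(-1/2) ≤ 2 √x`.) -/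
def SQ1_stmt : Prop := ∀ N m v : ℕ, 1 ≤ N → 1 ≤ m → v < N →
  ∑ w ∈ range N, wf (dst v w) m ≤ 4 * √(N : ℝ) * (m.divisors.card : ℝ) * (1 + Real.log N)

/-- the weight of a path with `J` steps -/
noncomputable def pw {J : ℕ} (v : Fin (J + 1) → ℕ) : ℝ :=
  ∏ j : Fin J, wf (dst (v j.castSucc) (v j.succ)) (∏ i ∈ Iio j, sfp (dst (v i.castSucc) (v i.succ)))

/-- **SQ2** (medium; from SQ1, SQA).  Paths.
Proof.  Induction on `J`: `v = Fin.snoc v' w` (`Fin.snocEquiv`), `pw v = pw v' * wf (dst (v' last) w) m(v')`, `m(v') = ∏_{i < J} sfp(..) ≤ N^J` (each factor is `1` or at most the distance, `< N`), `m(v') ≥ 1`.  By SQ1 the sum over `w` is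
at most `4 √N τ(m) (1 + log N)`, `τ(m) ≤ C m^η ≤ C N^(J η)` (`Pool.Agent.helper47.RA.card_divisors_le`, imported), `1 + log N ≤ C N^η`.  `J = 0`: `N` paths of weight 1. -/
def SQ2_stmt : Prop := ∀ J : ℕ, ∀ ε : ℝ, 0 < ε → ∃ C : ℝ, 0 < C ∧ ∀ N : ℕ, 1 ≤ N →
  ∑ v ∈ wd (J + 1) (range N), pw v ≤ C * (N : ℝ) ^ (1 + (J : ℝ) / 2 + ε)

/-- **SQ3** (medium; from SQA, SQ2).  Closed walks.
Proof.  `L = J + 1`, `n_j = dst (v j) (rot v j)`, `A_j = sfp n_j`, `D_j`, `E_j` the two gcds in SQA.  For a walk which is counted `A_j ∣ D_j E_j`, so `1 ≤ ∏_j (D_j E_j/A_j)^(1/2)`; Cauchy-Schwarz: the number is `≤ (S_f S_b)^(1/2)`,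
`S_f = ∑_{v, all n_j ≠ 0} ∏_j D_j/√A_j`, `S_b` the same with `E_j`.  `S_f`: the last edge (from `v last` to `v 0`) has `D/√A ≤ √A ≤ √N`, the others are `pw v`: `S_f ≤ √N ∑_v pw v`.  `S_b = S_f` by reversing the walk:
`v'(i) = v(-i)` in `Fin (J+1)` (cyclic), `n'_j = n_{rev j}`, so the edges after `j` become the edges before.  Total `C N^(1/2 + 1 + J/2 + ε)`. -/
def SQ3_stmt : Prop := ∀ L : ℕ, 1 ≤ L → ∀ ε : ℝ, 0 < ε → ∃ C : ℝ, 0 < C ∧ ∀ N : ℕ, 1 ≤ N →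
  ∀ S : Finset (Fin L → ℕ), (∀ v ∈ S, (∀ j, v j < N) ∧ ∏ j, dst (v j) (rot v j) ≠ 0 ∧
    IsSquare (∏ j, dst (v j) (rot v j))) → (S.card : ℝ) ≤ C * (N : ℝ) ^ (1 + (L : ℝ) / 2 + ε)

/-- the product of the differences along a closed walk `a_0, b_0, a_1, b_1, ...` -/
def DD {k : ℕ} (a b : Fin k → ℕ) : ℤ := ∏ i, (((a i : ℤ) - b i) * (((rot a i : ℕ) : ℤ) - b i))

/-- **SQ4** (short to medium; from SQ3).  Pairs of words.
Proof.  Interleave: `v : Fin (2 k) → ℕ`, `v (2 i) = a i`, `v (2 i + 1) = b i` (for instance `v x = if x % 2 = 0 then a (x / 2) else b (x / 2)`); injective; the edges of `v` are `dst (a i) (b i)` and `dst (b i) (rot a i)`, so their product is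
`(DD a b).natAbs`, a square if `DD a b` is one (`Int.isSquare_natAbs`-like).  SQ3 with `L = 2 k`. -/
def SQ4_stmt : Prop := ∀ k : ℕ, 1 ≤ k → ∀ ε : ℝ, 0 < ε → ∃ C : ℝ, 0 < C ∧ ∀ N : ℕ, 1 ≤ N →
  ∀ S : Finset ((Fin k → ℕ) × (Fin k → ℕ)), (∀ v ∈ S, (∀ j, v.1 j < N) ∧ (∀ j, v.2 j < N) ∧ DD v.1 v.2 ≠ 0 ∧
    IsSquare (DD v.1 v.2)) → (S.card : ℝ) ≤ C * (N : ℝ) ^ ((k : ℝ) + 1 + ε)

/-! ## Sums of Jacobi symbols over the lower entry -/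

/-- the sum over the odd `n ≤ X` -/
def JS (D : ℤ) (X : ℕ) : ℤ := ∑ n ∈ (range (X + 1)).filter Odd, jacobiSym D n

/-- Pólya-Vinogradov in classes modulo 8, with a coprimality condition (`Pool.Agent.AP.PVC_stmt`, proved there, with `e₀ = 8`, `m = 1`) -/
def PV8_stmt : Prop := ∀ d g : ℕ, Odd d → Squarefree d → 2 ≤ d → 1 ≤ g → Nat.Coprime g 8 → ∀ a Z₁ Z₂ : ℕ,
  |((∑ z ∈ (Ioc Z₁ Z₂).filter (fun z => z ≡ a [MOD 8]),
    if Nat.Coprime g z then jacobiSym (z : ℤ) d else 0 : ℤ) : ℝ)| ≤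
    (g.divisors.card : ℝ) * (√(d : ℝ) * (1 + Real.log d))

/-- **PVA8** (medium; from PV8).  `d ≥ 2` odd squarefree.
Proof.  For odd `n`: `J(s d m²|n) = J(s|n) J(d|n) [gcd(m, n) = 1]` (`jacobiSym.mul_left`, `jacobiSym.sq_one`), `[gcd(m, n) = 1] = [gcd(g, n) = 1]`, `g` the odd part of `m` (`τ(g) ≤ τ(m)`).  `J(s|n)` depends on `n` mod 8 only
(`jacobiSym.mod_right`, `4 |s| ∣ 8`), and so does the sign `J(d|n) J(n|d)` for `gcd(n, d) = 1` (`jacobiSym.quadratic_reciprocity'`).  So for each of the four odd classes `r` mod 8 there is a sign `c_r` with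
`J(s d m²|n) = c_r J(n|d) [gcd(g, n) = 1]` for all `n = r mod 8`; PV8. -/
def PVA8_stmt : Prop := ∀ d m : ℕ, ∀ s : ℤ, (s = 1 ∨ s = -1 ∨ s = 2 ∨ s = -2) → Odd d → Squarefree d → 2 ≤ d → 1 ≤ m →
  ∀ X : ℕ, |((JS (s * d * m ^ 2) X : ℤ) : ℝ)| ≤ 4 * (m.divisors.card : ℝ) * (√(d : ℝ) * (1 + Real.log d))

/-- **PVB8** (short to medium).  `d = 1`.
Proof.  `J(s m²|n) = J(s|n) [gcd(m, n) = 1]`, `[gcd(m, n) = 1] = ∑_{f ∣ m, f ∣ n} μ(f)`; `n = f n'`, `f`, `n'` odd, `J(s|n) = J(s|f) J(s|n')`; `n' ↦ J(s|n')` has period 8 and sum 0 over the odd classes, so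
`|∑_{n' ≤ Y, odd} J(s|n')| ≤ 8`; at most `τ(m)` numbers `f`. -/
def PVB8_stmt : Prop := ∀ m : ℕ, ∀ s : ℤ, (s = -1 ∨ s = 2 ∨ s = -2) → 1 ≤ m →
  ∀ X : ℕ, |JS (s * m ^ 2) X| ≤ 8 * (m.divisors.card : ℤ)

/-- **PVD** (medium; from PVA8, PVB8).
Proof.  `|D| = a m²`, `a` squarefree (`Nat.sq_mul_squarefree`), `a = d` or `2 d` with `d` odd squarefree, so `D = s d m²`, `s = ±1, ±2`.  `d = 1` and `s = 1` is excluded.  `τ(m) ≤ C m^(2 η) ≤ C |D|^η` (`Pool.Agent.helper47.RA.card_divisors_le`), `√d ≤ |D|^(1/2)`,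
`1 + log d ≤ C |D|^η`. -/
def PVD_stmt : Prop := ∀ ε : ℝ, 0 < ε → ∃ C : ℝ, 0 < C ∧ ∀ D : ℤ, D ≠ 0 → ¬ IsSquare D → ∀ X : ℕ,
  |((JS D X : ℤ) : ℝ)| ≤ C * |(D : ℝ)| ^ (1 / 2 + ε)

/-! ## (a) almost all primes -/

/-- the matrix of Jacobi symbols -/
def JM (n : ℕ) (x y : ℕ) : ℂ := ((jacobiSym ((x : ℤ) - y) n : ℤ) : ℂ)

/-- **AS1** (medium; from SQ4, PVD).  The average of the traces.
Proof.  `TT (JM n) (range N) (range N) k = ∑_{a, b} J(DD a b|n)` (`jacobiSym.mul_left`, real entries).  Sum over `n` inside.  `DD = 0`: only `n = 1` (`J(0|1) = 1`), at most `N^(2k)` in all.  `DD ≠ 0` a square: at most `X` each (number of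
odd `n ≤ X`), SQ4.  `DD` not a square: PVD with `η = ε/(2k)`, `|DD| ≤ N^(2k)`: at most `N^(2k)` walks, `C N^(k + ε)` each. -/
def AS1_stmt : Prop := ∀ k : ℕ, 1 ≤ k → ∀ ε : ℝ, 0 < ε → ∃ C : ℝ, 0 < C ∧ ∀ N X : ℕ, 1 ≤ N → 1 ≤ X →
  ∑ n ∈ (range (X + 1)).filter Odd, (TT (JM n) (range N) (range N) k).re ≤
    C * ((X : ℝ) * (N : ℝ) ^ ((k : ℝ) + 1 + ε) + (N : ℝ) ^ (3 * (k : ℝ) + ε))

/-- the matrix `m` has a large bilinear sum: sets `A`, `B` in the hosts with `|A||B|^k ≥ R` -/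
def Bad {α β : Type} (m : α → β → ℂ) (V : Finset α) (W : Finset β) (k : ℕ) (R θ : ℝ) : Prop :=
  ∃ A ⊆ V, ∃ B ⊆ W, ∃ w : β → ℂ, (∀ y, ‖w y‖ ≤ 1) ∧ R ≤ ((A.card : ℝ) * B.card) ^ k ∧
    θ * ((A.card : ℝ) * B.card) < BB m A B w

/-- **AE** (short; from TR, AS1).  Few exceptional primes at one scale.
Proof.  For a bad prime `p`: `θ^(2k) (|A||B|)^(2k) ≤ BB^(2k) ≤ (|A||B|)^k T`, so `T ≥ θ^(2k) R` (if `|A||B| = 0` then `BB = 0`, contradiction).  The `T` of all odd `n` are `≥ 0`. -/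
def AE_stmt : Prop := ∀ k : ℕ, 1 ≤ k → ∀ ε : ℝ, 0 < ε → ∃ C : ℝ, 0 < C ∧ ∀ N X : ℕ, 1 ≤ N → 1 ≤ X → ∀ R θ : ℝ, 0 < R → 0 < θ →
  ∀ E : Finset ℕ, (∀ p ∈ E, p.Prime ∧ p ≠ 2 ∧ p ≤ X ∧ Bad (JM p) (range N) (range N) k R θ) →
  θ ^ (2 * k) * R * E.card ≤ C * ((X : ℝ) * (N : ℝ) ^ ((k : ℝ) + 1 + ε) + (N : ℝ) ^ (3 * (k : ℝ) + ε))

/-- **AF** (medium; from AE).  All scales `N` at once.
Proof.  `δ = ε/(16 k)`, `c = min(ε/8, 1/2)`.  At most `√X` elements of `E` are `≤ √X`.  Let `p ∈ E`, `p > √X`, with its `N`, `A`, `B`; `N ≥ 1` (else `BB = 0`).  `N ≤ M = 2^j < 2 N`, `M ≤ 2 p ≤ 2 X` (`N ≤ p`):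
`j ≤ log_2 (2 X)`.  `A, B ⊆ range M`, `(|A||B|)^k ≥ p^ε (N^(k+1) + N^(3k)/p) ≥ X^(ε/2) 8^(-k) (M^(k+1) + M^(3k)/X) =: R_M` (`k + 1 ≤ 3 k`), `p^(-δ) ≥ X^(-δ)`.  AE with `θ = X^(-δ)`, `ε' = ε/16`:
`#E_M ≤ C X^(2 k δ) M^(ε') (X M^(k+1) + M^(3k))/R_M = C 8^k X^(1 + 2 k δ - ε/2) M^(ε')`.  Sum over the `O(log X)` scales. -/
def AF_stmt : Prop := ∀ k : ℕ, 1 ≤ k → ∀ ε : ℝ, 0 < ε → ∃ δ c C : ℝ, 0 < δ ∧ 0 < c ∧ 0 < C ∧ ∀ X : ℕ, 1 ≤ X →
  ∀ E : Finset ℕ, (∀ p ∈ E, p.Prime ∧ p ≠ 2 ∧ p ≤ X ∧ ∃ N : ℕ, N ≤ p ∧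
    Bad (JM p) (range N) (range N) k ((p : ℝ) ^ ε * ((N : ℝ) ^ (k + 1) + (N : ℝ) ^ (3 * k) / p)) ((p : ℝ) ^ (-δ))) →
  (E.card : ℝ) ≤ C * (X : ℝ) ^ (1 - c)

/-! ## (b) every prime, almost all characters -/

/-- the matrix of a character on integers -/
noncomputable def CM {p : ℕ} (χ : DirichletCharacter ℂ p) (x y : ℕ) : ℂ := χ ((x : ZMod p) - (y : ZMod p))

/-- **BS1** (medium; from SQ4).  The average over the characters.
Proof.  `∑_χ ∏ χ(a_i - b_i) conj χ(a_{i+1} - b_i) = φ(p) [∏ (a_i - b_i) = ∏ (a_{i+1} - b_i) ≠ 0 mod p]` (`DirichletCharacter.sum_char_inv_mul_char_eq`; `conj χ(u) = χ(u⁻¹)` on units; if one of the factors is 0 all terms vanish).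
`|∏ (a_i - b_i)| < N^k`, both products are `< p/2` in absolute value (`2 N^k < p`), so congruent means equal: `DD a b = (∏ (a_i - b_i))²` is a square `≠ 0`.  SQ4. -/
def BS1_stmt : Prop := ∀ k : ℕ, 1 ≤ k → ∀ ε : ℝ, 0 < ε → ∃ C : ℝ, 0 < C ∧ ∀ (p : ℕ) [Fact p.Prime] (N : ℕ), 1 ≤ N → 2 * N ^ k < p →
  ∑ χ : DirichletCharacter ℂ p, (TT (CM χ) (range N) (range N) k).re ≤ C * (p * (N : ℝ) ^ ((k : ℝ) + 1 + ε))

/-- **BF** (medium; from TR, BS1).  All scales at once.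
Proof.  As AE, AF: `N ≤ M = 2^j < 2 N`, `2 M^k ≤ 2^(k+1) N^k ≤ (3 N)^k ≤ p` for `k ≥ 2` (and `2 M^k < p`: `p` odd if `p ≠ 2`, for `p = 2` no `N ≥ 1`).  `R_M = p^ε 4^(-k) M^(k+1)`, `θ = p^(-δ)`, `δ = ε/(8k)`:
`#E_M ≤ C p^(1 + 2 k δ - ε) 4^k M^(ε')`, `M ≤ p`; `O(log p)` scales. -/
def BF_stmt : Prop := ∀ k : ℕ, 2 ≤ k → ∀ ε : ℝ, 0 < ε → ∃ δ c C : ℝ, 0 < δ ∧ 0 < c ∧ 0 < C ∧ ∀ (p : ℕ) [Fact p.Prime],
  ∀ E : Finset (DirichletCharacter ℂ p), (∀ χ ∈ E, ∃ N : ℕ, (3 * N) ^ k ≤ p ∧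
    Bad (CM χ) (range N) (range N) k ((p : ℝ) ^ ε * (N : ℝ) ^ (k + 1)) ((p : ℝ) ^ (-δ))) →
  (E.card : ℝ) ≤ C * (p : ℝ) ^ (1 - c)

/-! ## (c) every prime, every character, arbitrary hosts, almost all translates -/

/-- **CP** (medium).  Degenerate closed walks (every value of `v_j + v_{j+1}` occurs at least twice).
Proof.  Order the `2 k` sums along the walk `a_0, b_0, a_1, b_1, ..`: `n_{2i} = a_i + b_i`, `n_{2i+1} = b_i + a_{i+1}`; `f(j)` = the first index with the same value: at most `(2k)^(2k)` maps `f`, and at most `k` first indices (every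
value occurs twice).  Given `f`, the walk is determined by `a_0` and by the new vertex of the edge `j` for each first index `j` (if `f(j) = i < j` then `v_{j+1} = n_i - v_j`): at most `N^(1 + k)`. -/
def CP_stmt : Prop := ∀ (p : ℕ) [Fact p.Prime] (k N : ℕ), 1 ≤ k → 1 ≤ N → ∀ P Q : Finset (ZMod p), P.card ≤ N → Q.card ≤ N →
  ∀ S : Finset ((Fin k → ZMod p) × (Fin k → ZMod p)), (∀ v ∈ S, (∀ j, v.1 j ∈ P) ∧ (∀ j, v.2 j ∈ Q) ∧
    ¬ Pool.Agent.helper82.Weil.Nondeg (fun i => v.1 i + v.2 i) (fun i => rot v.1 i + v.2 i)) →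
  S.card ≤ (2 * k) ^ (2 * k) * N ^ (k + 1)

/-- the matrix of the translate -/
noncomputable def XM {p : ℕ} (χ : MulChar (ZMod p) ℂ) (x a b : ZMod p) : ℂ := χ (x + a + b)

/-- **CS1** (short to medium; from CP and Weil's bound).
Proof.  `∑_x TT = ∑_{a, b} ZZ χ (fun i => a i + b i) (fun i => rot a i + b i)` (`Pool.Agent.helper82.Weil.ZZ`); the degenerate ones `≤ p` each (`ZZ_trivial`), the others `≤ 2 k √p` (`ZZ_bound`). -/
def CS1_stmt : Prop := ∀ (p : ℕ) [Fact p.Prime] (k N : ℕ), 1 ≤ k → 1 ≤ N → ∀ χ : MulChar (ZMod p) ℂ, χ ≠ 1 →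
  ∀ P Q : Finset (ZMod p), P.card ≤ N → Q.card ≤ N →
  ∑ x : ZMod p, (TT (XM χ x) P Q k).re ≤
    (2 * k : ℝ) ^ (2 * k) * (p * (N : ℝ) ^ (k + 1)) + 2 * k * √(p : ℝ) * (N : ℝ) ^ (2 * k)

/-- **CF** (short; from TR, CS1).
Proof.  As AE with `R = p^ε (N^(k+1) + N^(2k)/√p)`, `θ = p^(-δ)`, `δ = ε/(4k)`: `θ^(2k) R #E ≤ (2k)^(2k) 2 p (N^(k+1) + N^(2k)/√p)`, so `#E ≤ 2 (2k)^(2k) p^(1 - ε/2)`.  (`N = 0`: no `A`, `B`.) -/
def CF_stmt : Prop := ∀ k : ℕ, 1 ≤ k → ∀ ε : ℝ, 0 < ε → ∃ δ c C : ℝ, 0 < δ ∧ 0 < c ∧ 0 < C ∧ ∀ (p : ℕ) [Fact p.Prime],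
  ∀ χ : MulChar (ZMod p) ℂ, χ ≠ 1 → ∀ (N : ℕ) (P Q : Finset (ZMod p)), P.card ≤ N → Q.card ≤ N →
  ∀ E : Finset (ZMod p), (∀ x ∈ E, Bad (XM χ x) P Q k ((p : ℝ) ^ ε * ((N : ℝ) ^ (k + 1) + (N : ℝ) ^ (2 * k) / √(p : ℝ)))
    ((p : ℝ) ^ (-δ))) → (E.card : ℝ) ≤ C * (p : ℝ) ^ (1 - c)

/-! ## Final form -/

/-- **MOB** (short).  Moebius images: `χ(g x - g y) = χ(a d - b c) χ(x - y) χ(c x + d)⁻¹ χ(c y + d)⁻¹`, and the three factors do not depend on both `x` and `y`; they have absolute value 1 and go into the coefficients.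
(`g x = (a x + b)/(c x + d)`; for `y` with `c y + d = 0`, not in `B`, take the coefficient 0.) -/
def MOB_stmt : Prop := ∀ (p : ℕ) [Fact p.Prime] (χ : MulChar (ZMod p) ℂ) (A B : Finset ℕ) (a b c d : ZMod p),
  a * d - b * c ≠ 0 → (∀ x ∈ A, c * (x : ZMod p) + d ≠ 0) → (∀ y ∈ B, c * (y : ZMod p) + d ≠ 0) →
  ∀ w : ℕ → ℂ, (∀ y, ‖w y‖ ≤ 1) → ∃ w' : ℕ → ℂ, (∀ y, ‖w' y‖ ≤ 1) ∧
    ∑ x ∈ A, ‖∑ y ∈ B, w y * χ ((a * (x : ZMod p) + b) / (c * (x : ZMod p) + d) -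
      (a * (y : ZMod p) + b) / (c * (y : ZMod p) + d))‖ = BB (CM χ) A B w'

end Pool.Agent.ASU
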