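import Pool.Agent.helper73.ASU.Spec
import Pool.Agent.helper3.FT.Defs

set_option autoImplicit false

/-!
# ASU, block 2 (MP_f6e9a2_nt): ALL characters modulo almost all primes (helper73)

The matrix `(χ(x - y))_{x, y < N}` is a corner of a circulant matrix of size `2 N`, so all bilinear sums are bounded by
the maximum over `j` of the twisted sums `∑_{h < N} χ(h) e(h j / (2 N))` (row TOE); their `k`-th power is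
`∑_{m ≤ N^k} c_m χ(m)` (row POW), and a large values estimate (rows PVQ, HMB) bounds the number of primes for which some
`χ ≠ 1` has a large twisted sum.

RULES as in `Spec.lean` (`import Pool.Agent.helper73.ASU.Spec2`).  `e x = exp (2 π i x)` is `Pool.Agent.helper3.FT.e`.
-/

namespace Pool.Agent.ASU

open Finset Pool.Agent.helper3.FT

/-- the twisted sum -/
noncomputable def GS {p : ℕ} (χ : DirichletCharacter ℂ p) (N j : ℕ) : ℂ :=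
  ∑ h ∈ Ico 1 N, χ (h : ZMod p) * e ((h : ℝ) * j / (2 * N))

/-- **TOE** (short to medium).  Circulant embedding.
Proof.  `L = 2 N`, `F(j) = ∑_{|h| < N} χ(h) e(h j/L)`, `j < L`.  For `x, y < N`: `χ(x - y) = (1/L) ∑_{j < L} F(j) e(-(x - y) j/L)` (orthogonality modulo `L`, `|h - (x - y)| < L`).  With phases `u_x` (`|u_x| ≤ 1`, 0 outside `A`) and `w_y`
(0 outside `B`): `BB = (1/L) ∑_j F(j) (∑_x u_x e(-x j/L)) (∑_y w_y e(y j/L)) ≤ max |F| (1/L) (∑_j |∑_x ..|²)^(1/2) (∑_j |∑_y ..|²)^(1/2) ≤ max |F| √(|A||B|)` (Cauchy-Schwarz and Parseval modulo `L`).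
`F(j) = GS(j) + χ(-1) GS(j')`, `j' = L - j` or `0`; take the `j` with `|GS(j)|` maximal: `max |F| ≤ 2 |GS(j)|`. -/
def TOE_stmt : Prop := ∀ (p : ℕ) [Fact p.Prime] (χ : DirichletCharacter ℂ p) (N : ℕ), 1 ≤ N →
  ∀ A ⊆ range N, ∀ B ⊆ range N, ∀ w : ℕ → ℂ, (∀ y, ‖w y‖ ≤ 1) →
  ∃ j < 2 * N, BB (CM χ) A B w ≤ 2 * √((A.card : ℝ) * B.card) * ‖GS χ N j‖

/-- **POW** (short to medium).  The `k`-th power of the twisted sum.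
Proof.  `c m = ∑_{h ∈ [1, N)^k, ∏ h = m} e((∑ h) j/(2 N))`, at most `τ(m)^k ≤ C m^(ε/k) ≤ C N^ε` terms (`Pool.Agent.helper47.RA.card_divisors_le`; every `h_i ∣ m`).  Model: `charSum_pow`, `tup_le` in `Pool/Agent/helper8/HB/Moment.lean`. -/
def POW_stmt : Prop := ∀ k : ℕ, 1 ≤ k → ∀ ε : ℝ, 0 < ε → ∃ C : ℝ, 0 < C ∧ ∀ N j : ℕ, 1 ≤ N → ∃ c : ℕ → ℂ,
  (∀ m ∈ Icc 1 (N ^ k), ‖c m‖ ≤ C * (N : ℝ) ^ ε) ∧
  ∀ (p : ℕ) [Fact p.Prime] (χ : DirichletCharacter ℂ p), GS χ N j ^ k = ∑ m ∈ Icc 1 (N ^ k), c m * χ (m : ZMod p)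

/-- completion of an incomplete sum (proved: `Pool.Agent.AP.PVB : PVB_stmt`, `Pool/Agent/helper92/AP/PVB.lean`) -/
def PVG_stmt : Prop := ∀ (d : ℕ) (f : ℤ → ℂ) (B : ℝ), 1 ≤ d → 0 ≤ B → (∀ x : ℤ, f (x + d) = f x) →
  (∀ h : ℤ, ‖∑ x ∈ range d, f (x : ℤ) * e ((h : ℝ) * x / d)‖ ≤ B) → ∑ x ∈ range d, f (x : ℤ) = 0 →
  ∀ A A' : ℤ, ‖∑ x ∈ Ioc A A', f x‖ ≤ B * (1 + Real.log d)

/-- **PVQ** (medium; from PVG).  Pólya-Vinogradov for the product of two characters.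
Proof.  `f(x) = χ(x) conj ψ(x)`, period `d = p q`.  `x = q y + p z`, `y` mod `p`, `z` mod `q` (Chinese remainder theorem): `∑_x f(x) e(h x/(p q)) = χ(q) conj ψ(p) (∑_y χ(y) e(h y/p)) (∑_z conj ψ(z) e(h z/q))`, absolute value `≤ √p √q`
(Gauss sums: for `p ∣ h` the first factor is 0; Parseval or `gaussSum`), and it is 0 for `h = 0`. -/
def PVQ_stmt : Prop := ∀ (p q : ℕ) [Fact p.Prime] [Fact q.Prime], p ≠ q →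
  ∀ (χ : DirichletCharacter ℂ p) (ψ : DirichletCharacter ℂ q), χ ≠ 1 → ψ ≠ 1 → ∀ M : ℕ,
  ‖∑ m ∈ Icc 1 M, χ (m : ZMod p) * (starRingEnd ℂ) (ψ (m : ZMod q))‖ ≤ √((p : ℝ) * q) * (1 + Real.log (p * q))

/-- **HMB** (short to medium; from PVQ).  Halász-Montgomery: at most one character for each prime.
Proof.  `S_p = ∑_m c_m χ_p(m)`.  `∑_p |S_p|² = ∑_m c_m ∑_p conj(S_p) χ_p(m) ≤ (∑ |c_m|²)^(1/2) (∑_m |∑_p conj(S_p) χ_p(m)|²)^(1/2)`, and `∑_m |∑_p conj(S_p) χ_p(m)|² = ∑_{p, q} conj(S_p) S_q ∑_m χ_p(m) conj χ_q(m)`: the terms `p = q`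
give at most `M ∑ |S_p|²`, the others, by PVQ and `√(p q) ≤ X`, at most `X (1 + 2 log X) ∑_{p, q} |S_p S_q| ≤ X (1 + 2 log X) |E| ∑ |S_p|²`.  Square and divide by `∑ |S_p|²`. -/
def HMB_stmt : Prop := ∀ (X M : ℕ) (E : Finset ℕ) (χ : (p : ℕ) → DirichletCharacter ℂ p) (c : ℕ → ℂ), 1 ≤ X →
  (∀ p ∈ E, p.Prime ∧ p ≤ X ∧ χ p ≠ 1) →
  ∑ p ∈ E, ‖∑ m ∈ Icc 1 M, c m * χ p (m : ZMod p)‖ ^ 2 ≤
    ((M : ℝ) + E.card * (X * (1 + 2 * Real.log X))) * ∑ m ∈ Icc 1 M, ‖c m‖ ^ 2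

/-- **A1E** (short to medium; from POW, HMB).  Large values of the twisted sums, at one scale.
Proof.  `ε' = ε/8`.  For each `j < 2 N` let `E_j` be the primes of `E` with a character `χ_p ≠ 1`, `|GS χ_p N j| ≥ V`.  `|E_j| V^(2k) ≤ ∑_{E_j} |GS^k|² ≤ (N^k + |E_j| X (1 + 2 log X)) C N^(k + 2 ε')` (POW, HMB), and
`X (1 + 2 log X) C N^(k + 2 ε') ≤ C' X^(1+ε) N^(k+ε) ≤ V^(2k)/2` if the constant of the theorem is large: `|E_j| ≤ 2 C N^(2k + 2ε')/V^(2k)`.  Sum over the `2 N` values of `j`. -/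
def A1E_stmt : Prop := ∀ k : ℕ, 1 ≤ k → ∀ ε : ℝ, 0 < ε → ∃ C : ℝ, 0 < C ∧ ∀ N X : ℕ, 1 ≤ N → 1 ≤ X → ∀ V : ℝ, 0 < V → ∀ E : Finset ℕ,
  (∀ p ∈ E, p.Prime ∧ p ≤ X ∧ ∃ χ : DirichletCharacter ℂ p, χ ≠ 1 ∧ ∃ j < 2 * N, V ≤ ‖GS χ N j‖) →
  C * ((X : ℝ) ^ (1 + ε) * (N : ℝ) ^ ((k : ℝ) + ε)) ≤ V ^ (2 * k) →
  E.card * V ^ (2 * k) ≤ C * (N : ℝ) ^ (2 * (k : ℝ) + 1 + ε)

/-- **A1F** (medium; from TOE, A1E).  All characters, all scales: the exceptional primes.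
Proof.  `δ = ε/(16 k)`, `κ = ε/(4 (1 + ε))`.  At most `X^(1-κ)` elements of `E` are `≤ X^(1-κ)`.  Let `p ∈ E`, `p > X^(1-κ)`, with `χ`, `N`, `A`, `B`, `w`; `N ≥ 1`; `N ≤ M = 2^i < 2 N`, `M ≤ 2 X`.  `A, B ⊆ range M`, so by TOE there is `j < 2 M` with
`p^(-δ) |A||B| < BB ≤ 2 √(|A||B|) |GS χ M j|`: `|GS|^(2k) ≥ 4^(-k) X^(-2kδ) (|A||B|)^k`, and `(|A||B|)^k ≥ p^ε (p N^k + N^(2k+1)/p) ≥ X^(ε/2) 2^(-2k-1) (X M^k + M^(2k+1)/X)` (`p^(1+ε) ≥ X^(1+ε/2)`, `p^ε ≥ X^(ε/2)`).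
`V^(2k) := 2^(-4k-1) X^(3ε/8) (X M^k + M^(2k+1)/X)`.  A1E with `ε' = ε/16` applies if `X ≥ X₀` (`X^(ε/4) ≥` constant; for `X < X₀` the theorem is trivial): `#E_M ≤ C M^(2k+1+ε')/V^(2k) ≤ C' X^(1 - 3ε/8 + ε/16)`.  `O(log X)` scales.
Dyadic lemmas are in `Pool/Agent/helper73/ASU/{BF,AF}.lean` (`BF_scale`, `BF_log`, `BF_clog`, `BF_mono`, `CF_empty`), which treat the same problem. -/
def A1F_stmt : Prop := ∀ k : ℕ, 1 ≤ k → ∀ ε : ℝ, 0 < ε → ∃ δ c C : ℝ, 0 < δ ∧ 0 < c ∧ 0 < C ∧ ∀ X : ℕ, 1 ≤ X →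
  ∀ E : Finset ℕ, (∀ p ∈ E, p.Prime ∧ p ≤ X ∧ ∃ χ : DirichletCharacter ℂ p, χ ≠ 1 ∧ ∃ N : ℕ, N ≤ p ∧
    Bad (CM χ) (range N) (range N) k ((p : ℝ) ^ ε * (p * (N : ℝ) ^ k + (N : ℝ) ^ (2 * k + 1) / p)) ((p : ℝ) ^ (-δ))) →
  (E.card : ℝ) ≤ C * (X : ℝ) ^ (1 - c)

/-- **LSP** (short to medium).  The large sieve for one prime.
Proof.  `f(a) = ∑_{m = a mod p} c_m`; `∑_χ |∑_a χ(a) f(a)|² = φ(p) ∑_{a unit} |f(a)|²` (`Pool.Agent.helper85.MT.mul_parseval`, or `DirichletCharacter.sum_char_inv_mul_char_eq`), `|f(a)|² ≤ (M/p + 1) ∑_{m = a} |c_m|²`, `φ(p) (M/p + 1) ≤ p + M`. -/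
def LSP_stmt : Prop := ∀ (p : ℕ) [Fact p.Prime] (M : ℕ) (c : ℕ → ℂ),
  ∑ χ : DirichletCharacter ℂ p, ‖∑ m ∈ Icc 1 M, c m * χ (m : ZMod p)‖ ^ 2 ≤ ((p : ℝ) + M) * ∑ m ∈ Icc 1 M, ‖c m‖ ^ 2

/-- **B1F** (medium; from TOE, POW, LSP).  Every prime, almost all characters, all `N ≤ p`.
Proof.  `δ = ε/(8 k)`.  `N ≥ 1`, `N ≤ M = 2^i < 2 N`, `M ≤ 2 p`.  As in A1F: a bad `χ` at scale `M` has `j < 2 M` with `|GS χ M j|^(2k) ≥ 4^(-k) p^(-2kδ) (|A||B|)^k ≥ 2^(-4k-1) p^(ε - ε/4) (M^(k+1) + M^(2k+1)/p)`, while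
`∑_χ ∑_{j < 2M} |GS χ M j|^(2k) ≤ 2 M (p + M^k) M^k C M^(2ε')` (POW, LSP).  So `#E_M ≤ C' p^(1 - 3ε/4 + 2ε')`; `O(log p)` scales.  Dyadic lemmas: `Pool/Agent/helper73/ASU/BF.lean`. -/
def B1F_stmt : Prop := ∀ k : ℕ, 1 ≤ k → ∀ ε : ℝ, 0 < ε → ∃ δ c C : ℝ, 0 < δ ∧ 0 < c ∧ 0 < C ∧ ∀ (p : ℕ) [Fact p.Prime],
  ∀ E : Finset (DirichletCharacter ℂ p), (∀ χ ∈ E, ∃ N : ℕ, N ≤ p ∧
    Bad (CM χ) (range N) (range N) k ((p : ℝ) ^ ε * ((N : ℝ) ^ (k + 1) + (N : ℝ) ^ (2 * k + 1) / p)) ((p : ℝ) ^ (-δ))) →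
  (E.card : ℝ) ≤ C * (p : ℝ) ^ (1 - c)

end Pool.Agent.ASU
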